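import Mathlib

/-!
Counting discs on a torus by slicing.
-/

namespace FC78

open MeasureTheory Set

theorem per_measure {P : ℝ} (hP : 0 < P) {A : Set ℝ} (hA : MeasurableSet A)
    (hper : ∀ y, y + P ∈ A ↔ y ∈ A) (t : ℝ) :
    volume (A ∩ Ioc 0 P) = volume (A ∩ Ioc t (t + P)) := by
  have hz : ∀ (n : ℤ) y, y + n * P ∈ A ↔ y ∈ A := by
    intro n
    induction n with
    | zero => intro y; simp
    | succ n ih =>
      intro y
      have : y + ((n:ℤ) + 1 : ℤ) * P = (y + (n:ℤ) * P) + P := by push_cast; ring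
      rw [this, hper, ih]
    | pred n ih =>
      intro y
      have h1 := hper (y + ((-(n:ℤ) - 1 : ℤ) : ℝ) * P)
      have : y + ((-(n:ℤ) - 1 : ℤ) : ℝ) * P + P = y + ((-(n:ℤ) : ℤ) : ℝ) * P := by
        push_cast; ring
      rw [this, ih] at h1
      exact h1.symm
  have h1 := (isAddFundamentalDomain_Ioc hP 0).measure_set_eq (isAddFundamentalDomain_Ioc hP t)
    (A := A) hA (by
      rintro ⟨g, hg⟩
      obtain ⟨n, rfl⟩ := AddSubgroup.mem_zmultiples_iff.1 hg
      ext y
      simp only [mem_preimage]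
      have : (⟨n • P, hg⟩ : AddSubgroup.zmultiples P) +ᵥ y = y + n * P := by
        rw [AddSubgroup.vadd_def]
        simp [add_comm]
      rw [this, hz])
  rw [zero_add] at h1
  exact h1

/-- The periodic open arc. -/
def arc (P c r : ℝ) : Set ℝ := {y | ∃ b : ℤ, |y - c - b * P| < r}

theorem measurableSet_arc (P c r : ℝ) : MeasurableSet (arc P c r) := by
  have : arc P c r = ⋃ b : ℤ, {y | |y - c - b * P| < r} := by
    ext y; simp [arc]
  rw [this]
  apply MeasurableSet.iUnion
  intro b
  apply IsOpen.measurableSet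
  exact isOpen_lt (by fun_prop) continuous_const

theorem arc_per (P c r y : ℝ) : y + P ∈ arc P c r ↔ y ∈ arc P c r := by
  constructor
  · rintro ⟨b, hb⟩
    refine ⟨b - 1, ?_⟩
    convert hb using 2
    push_cast; ring
  · rintro ⟨b, hb⟩
    refine ⟨b + 1, ?_⟩
    convert hb using 2
    push_cast; ring

theorem arc_ge {P c r : ℝ} (hP : 0 < P) (hr : 2 * r ≤ P) :
    ENNReal.ofReal (2 * r) ≤ volume (arc P c r ∩ Ioc 0 P) := by
  rw [per_measure hP (measurableSet_arc P c r) (arc_per P c r) (c - r)]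
  have h1 : Ioo (c - r) (c + r) ⊆ arc P c r ∩ Ioc (c - r) (c - r + P) := by
    intro y hy
    refine ⟨⟨0, ?_⟩, hy.1, ?_⟩
    · rw [abs_lt]
      constructor <;> simp <;> linarith [hy.1, hy.2]
    · linarith [hy.2]
  refine le_trans (le_of_eq ?_) (measure_mono h1)
  rw [Real.volume_Ioo]
  congr 1
  ring

theorem arc_le {P c r : ℝ} (hP : 0 < P) (hr : 2 * r ≤ P) :
    volume (arc P c r ∩ Ioc 0 P) ≤ ENNReal.ofReal (2 * r) := by
  rw [per_measure hP (measurableSet_arc P c r) (arc_per P c r) (c - P / 2)]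
  have h1 : arc P c r ∩ Ioc (c - P / 2) (c - P / 2 + P) ⊆ Ioo (c - r) (c + r) := by
    rintro y ⟨⟨b, hb⟩, hy1, hy2⟩
    rw [abs_lt] at hb
    have hb0 : b = 0 := by
      have h2 : (b:ℝ) * P < P := by nlinarith
      have h3 : -P < (b:ℝ) * P := by nlinarith
      have h4 : (b:ℝ) < 1 := by nlinarith
      have h5 : (-1:ℝ) < b := by nlinarith
      have h6 : b < 1 := by exact_mod_cast h4
      have h7 : -1 < b := by exact_mod_cast h5
      omega
    subst hb0
    simp at hb
    constructor <;> linarith [hb.1, hb.2]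
  refine (measure_mono h1).trans (le_of_eq ?_)
  rw [Real.volume_Ioo]
  congr 1
  ring

open Classical in
theorem sum_measure_le {α : Type*} [MeasurableSpace α] (μ : Measure α) {ι : Type*}
    (s : Finset ι) (E : ι → Set α) (hE : ∀ i ∈ s, MeasurableSet (E i)) (B : Set α)
    (hB : MeasurableSet B) (hsub : ∀ i ∈ s, E i ⊆ B) (C : ENNReal)
    (hC : ∀ y, ((s.filter (fun i => y ∈ E i)).card : ENNReal) ≤ C) :
    ∑ i ∈ s, μ (E i) ≤ C * μ B := by
  have h1 : ∑ i ∈ s, μ (E i) = ∫⁻ y, ∑ i ∈ s, (E i).indicator 1 y ∂μ := by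
    rw [lintegral_finsetSum']
    · apply Finset.sum_congr rfl
      intro i hi
      rw [lintegral_indicator_one (hE i hi)]
    · intro i hi
      exact (measurable_one.indicator (hE i hi)).aemeasurable
  rw [h1]
  have h2 : C * μ B = ∫⁻ y, B.indicator (fun _ => C) y ∂μ := by
    rw [lintegral_indicator_const hB]
  rw [h2]
  apply lintegral_mono
  intro y
  simp only
  have h3 : ∑ i ∈ s, (E i).indicator (1 : α → ENNReal) y =
      ((s.filter (fun i => y ∈ E i)).card : ENNReal) := by
    rw [Finset.card_filter]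
    push_cast
    apply Finset.sum_congr rfl
    intro i _
    by_cases h : y ∈ E i <;> simp [h]
  rw [h3]
  by_cases hy : y ∈ B
  · rw [indicator_of_mem hy]
    exact hC y
  · have : s.filter (fun i => y ∈ E i) = ∅ := by
      rw [Finset.filter_eq_empty_iff]
      intro i hi h
      exact hy (hsub i hi h)
    rw [this]
    simp

open Classical in
theorem le_sum_measure {α : Type*} [MeasurableSpace α] (μ : Measure α) {ι : Type*}
    (s : Finset ι) (E : ι → Set α) (hE : ∀ i ∈ s, MeasurableSet (E i)) (c : ENNReal)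
    (hc : ∀ y, c ≤ ((s.filter (fun i => y ∈ E i)).card : ENNReal)) :
    c * μ univ ≤ ∑ i ∈ s, μ (E i) := by
  have h1 : ∑ i ∈ s, μ (E i) = ∫⁻ y, ∑ i ∈ s, (E i).indicator 1 y ∂μ := by
    rw [lintegral_finsetSum']
    · apply Finset.sum_congr rfl
      intro i hi
      rw [lintegral_indicator_one (hE i hi)]
    · intro i hi
      exact (measurable_one.indicator (hE i hi)).aemeasurable
  rw [h1, ← lintegral_const]
  apply lintegral_mono
  intro y
  simp only
  have h3 : ∑ i ∈ s, (E i).indicator (1 : α → ENNReal) y =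
      ((s.filter (fun i => y ∈ E i)).card : ENNReal) := by
    rw [Finset.card_filter]
    push_cast
    apply Finset.sum_congr rfl
    intro i _
    by_cases h : y ∈ E i <;> simp [h]
  rw [h3]
  exact hc y

/-- Lattice box: the point `(x, y)` is within `r` of a translate of `(p, p')`. -/
def InBox (T τ : ℝ) (p p' r x y : ℝ) : Prop :=
  ∃ a b : ℤ, |x - p - a * T| < r ∧ |y - p' - a * τ - b * (2 * Real.pi)| < r

open Classical in
/-- The number of bad discs is small. -/
theorem count_bad {T τ r C₁ ε : ℝ} (hT : 0 < T) (hr : 0 < r) (hrT : 2 * r ≤ T)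
    (hrp : 2 * r ≤ 2 * Real.pi) (hC : 0 ≤ C₁) (hε : 0 ≤ ε) {ι : Type*} [Fintype ι]
    (p p' : ι → ℝ)
    (hov : ∀ x y, ((Finset.univ.filter (fun i => InBox T τ (p i) (p' i) r x y)).card : ℝ) ≤ C₁)
    (Bad : ℝ → Set ℝ) (hBm : ∀ x, MeasurableSet (Bad x))
    (hBs : ∀ x, volume (Bad x ∩ Ioc 0 (2 * Real.pi)) ≤ ENNReal.ofReal ε)
    (S : Finset ι) (hS : ∀ i ∈ S, ∀ x y, InBox T τ (p i) (p' i) r x y → y ∈ Bad x) :
    (S.card : ℝ) * (2 * r) ^ 2 ≤ T * C₁ * ε := by
  have hpi : 0 < 2 * Real.pi := by positivity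
  -- slices
  have hslice : ∀ x, ((S.filter (fun i => x ∈ arc T (p i) r)).card : ℝ) * (2 * r) ≤ C₁ * ε := by
    intro x
    set I := S.filter (fun i => x ∈ arc T (p i) r) with hI
    have ha : ∀ i : ι, ∃ a : ℤ, i ∈ I → |x - p i - a * T| < r := by
      intro i
      by_cases hi : i ∈ I
      · obtain ⟨a, ha⟩ := (Finset.mem_filter.1 hi).2
        exact ⟨a, fun _ => ha⟩
      · exact ⟨0, fun h => absurd h hi⟩
    choose a ha using ha
    set E : ι → Set ℝ := fun i => arc (2 * Real.pi) (p' i + a i * τ) r with hE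
    have hbox : ∀ i ∈ I, ∀ y, y ∈ E i → InBox T τ (p i) (p' i) r x y := by
      intro i hi y hy
      obtain ⟨b, hb⟩ := hy
      refine ⟨a i, b, ha i hi, ?_⟩
      convert hb using 2
      ring
    have h1 := sum_measure_le (volume.restrict (Ioc 0 (2 * Real.pi))) I E
      (fun i _ => measurableSet_arc _ _ _) (Bad x) (hBm x)
      (fun i hi y hy => hS i (Finset.mem_filter.1 hi).1 x y (hbox i hi y hy))
      (ENNReal.ofReal C₁) (by
        intro y
        have h2 : (I.filter (fun i => y ∈ E i)).card ≤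
            (Finset.univ.filter (fun i => InBox T τ (p i) (p' i) r x y)).card := by
          apply Finset.card_le_card
          intro i hi
          rw [Finset.mem_filter] at hi ⊢
          exact ⟨Finset.mem_univ _, hbox i hi.1 y hi.2⟩
        have h3 := hov x y
        have h4 : ((I.filter (fun i => y ∈ E i)).card : ℝ) ≤ C₁ := by
          refine le_trans ?_ h3
          exact_mod_cast h2
        rw [← ENNReal.ofReal_natCast]
        exact ENNReal.ofReal_le_ofReal h4)
    have h5 : (I.card : ENNReal) * ENNReal.ofReal (2 * r) ≤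
        ∑ i ∈ I, (volume.restrict (Ioc 0 (2 * Real.pi))) (E i) := by
      rw [← nsmul_eq_mul, ← Finset.sum_const]
      apply Finset.sum_le_sum
      intro i _
      rw [Measure.restrict_apply (measurableSet_arc _ _ _)]
      exact arc_ge hpi hrp
    rw [Measure.restrict_apply (hBm x)] at h1
    have h6 : (I.card : ENNReal) * ENNReal.ofReal (2 * r) ≤
        ENNReal.ofReal C₁ * ENNReal.ofReal ε :=
      (h5.trans h1).trans (mul_le_mul_right (hBs x) _)
    rw [← ENNReal.ofReal_mul hC, ← ENNReal.ofReal_natCast, ← ENNReal.ofReal_mul (by positivity)]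
      at h6
    exact (ENNReal.ofReal_le_ofReal_iff (by positivity)).1 h6
  have h1 := sum_measure_le (volume.restrict (Ioc 0 T)) S (fun i => arc T (p i) r)
    (fun i _ => measurableSet_arc _ _ _) univ MeasurableSet.univ (fun i _ => subset_univ _)
    (ENNReal.ofReal (C₁ * ε / (2 * r))) (by
      intro x
      rw [← ENNReal.ofReal_natCast]
      apply ENNReal.ofReal_le_ofReal
      rw [le_div_iff₀ (by positivity)]
      exact hslice x)
  have h5 : (S.card : ENNReal) * ENNReal.ofReal (2 * r) ≤
      ∑ i ∈ S, (volume.restrict (Ioc 0 T)) (arc T (p i) r) := by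
    rw [← nsmul_eq_mul, ← Finset.sum_const]
    apply Finset.sum_le_sum
    intro i _
    rw [Measure.restrict_apply (measurableSet_arc _ _ _)]
    exact arc_ge hT hrT
  have h6 := h5.trans h1
  rw [Measure.restrict_apply MeasurableSet.univ, univ_inter, Real.volume_Ioc, sub_zero,
    ← ENNReal.ofReal_mul (by positivity), ← ENNReal.ofReal_natCast,
    ← ENNReal.ofReal_mul (by positivity)] at h6
  have h7 := (ENNReal.ofReal_le_ofReal_iff (by positivity)).1 h6
  rw [div_mul_eq_mul_div, le_div_iff₀ (by positivity)] at h7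
  calc (S.card : ℝ) * (2 * r) ^ 2 = S.card * (2 * r) * (2 * r) := by ring
    _ ≤ C₁ * ε * T := h7
    _ = _ := by ring

open Classical in
/-- The total number of discs is large. -/
theorem count_total {T τ r : ℝ} (hT : 0 < T) (hr : 0 < r) (hrT : 2 * r ≤ T)
    (hrp : 2 * r ≤ 2 * Real.pi) {ι : Type*} [Fintype ι] (p p' : ι → ℝ)
    (hcov : ∀ x y, ∃ i, InBox T τ (p i) (p' i) r x y) :
    T * (2 * Real.pi) ≤ (Fintype.card ι : ℝ) * (2 * r) ^ 2 := by
  have hpi : 0 < 2 * Real.pi := by positivity
  have hslice : ∀ x, 2 * Real.pi ≤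
      ((Finset.univ.filter (fun i => x ∈ arc T (p i) r)).card : ℝ) * (2 * r) := by
    intro x
    set I := Finset.univ.filter (fun i => x ∈ arc T (p i) r) with hI
    have ha : ∀ i : ι, ∃ a : ℤ, i ∈ I → |x - p i - a * T| < r := by
      intro i
      by_cases hi : i ∈ I
      · obtain ⟨a, ha⟩ := (Finset.mem_filter.1 hi).2
        exact ⟨a, fun _ => ha⟩
      · exact ⟨0, fun h => absurd h hi⟩
    choose a ha using ha
    set E : ι → Set ℝ := fun i => arc (2 * Real.pi) (p' i + a i * τ) r with hE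
    have hc : Ioc 0 (2 * Real.pi) ⊆ ⋃ i ∈ I, (E i ∩ Ioc 0 (2 * Real.pi)) := by
      intro y hy
      obtain ⟨i, a', b, h1, h2⟩ := hcov x y
      have hi : i ∈ I := Finset.mem_filter.2 ⟨Finset.mem_univ _, a', h1⟩
      have haa : a' = a i := by
        have h3 := ha i hi
        rw [abs_lt] at h1 h3
        have h4 : ((a' - a i : ℤ) : ℝ) * T < T := by push_cast; nlinarith
        have h5 : -T < ((a' - a i : ℤ) : ℝ) * T := by push_cast; nlinarith
        have h6 : ((a' - a i : ℤ) : ℝ) < 1 := by nlinarith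
        have h7 : (-1:ℝ) < ((a' - a i : ℤ) : ℝ) := by nlinarith
        have h8 : a' - a i < 1 := by exact_mod_cast h6
        have h9 : -1 < a' - a i := by exact_mod_cast h7
        omega
      subst haa
      rw [mem_iUnion₂]
      refine ⟨i, hi, ⟨b, ?_⟩, hy⟩
      convert h2 using 2
      ring
    have h1 : volume (Ioc 0 (2 * Real.pi)) ≤ ∑ i ∈ I, ENNReal.ofReal (2 * r) := by
      refine (measure_mono hc).trans ((measure_biUnion_finset_le _ _).trans ?_)
      apply Finset.sum_le_sum
      intro i _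
      exact arc_le hpi hrp
    rw [Finset.sum_const, nsmul_eq_mul, Real.volume_Ioc, sub_zero, ← ENNReal.ofReal_natCast,
      ← ENNReal.ofReal_mul (by positivity)] at h1
    exact (ENNReal.ofReal_le_ofReal_iff (by positivity)).1 h1
  have h1 := le_sum_measure (volume.restrict (Ioc 0 T)) Finset.univ (fun i => arc T (p i) r)
    (fun i _ => measurableSet_arc _ _ _) (ENNReal.ofReal (2 * Real.pi / (2 * r))) (by
      intro x
      rw [← ENNReal.ofReal_natCast]
      apply ENNReal.ofReal_le_ofReal
      rw [div_le_iff₀ (by positivity)]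
      exact hslice x)
  have h5 : ∑ i ∈ (Finset.univ : Finset ι), (volume.restrict (Ioc 0 T)) (arc T (p i) r) ≤
      (Fintype.card ι : ENNReal) * ENNReal.ofReal (2 * r) := by
    rw [← nsmul_eq_mul, ← Finset.card_univ, ← Finset.sum_const]
    apply Finset.sum_le_sum
    intro i _
    rw [Measure.restrict_apply (measurableSet_arc _ _ _)]
    exact arc_le hT hrT
  have h6 := h1.trans h5
  rw [Measure.restrict_apply MeasurableSet.univ, univ_inter, Real.volume_Ioc, sub_zero,
    ← ENNReal.ofReal_mul (by positivity), ← ENNReal.ofReal_natCast,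
    ← ENNReal.ofReal_mul (by positivity)] at h6
  have h7 := (ENNReal.ofReal_le_ofReal_iff (by positivity)).1 h6
  rw [div_mul_eq_mul_div, div_le_iff₀ (by positivity)] at h7
  calc T * (2 * Real.pi) = 2 * Real.pi * T := by ring
    _ ≤ _ := h7
    _ = _ := by ring

end FC78
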