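import Pool.Agent.W_MP_fc1c69_an.Doubling

/-!
Eigenfunctions of a circle invariant metric are trigonometric polynomials in the
invariant direction.
-/

namespace FC78

open Finset MeasureTheory

/-- Differentiation under the integral sign for continuous data. -/
theorem hasDerivAt_param {G G' : ℝ → ℝ → ℂ} (hG : Continuous (Function.uncurry G))
    (hG' : Continuous (Function.uncurry G'))
    (hd : ∀ x y, HasDerivAt (fun x => G x y) (G' x y) x) (a b x0 : ℝ) :
    HasDerivAt (fun x => ∫ y in a..b, G x y) (∫ y in a..b, G' x0 y) x0 := by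
  obtain ⟨C, hC⟩ := ((isCompact_closedBall x0 1).prod (isCompact_uIcc (a := a) (b := b))).exists_bound_of_continuousOn
    hG'.continuousOn
  have := intervalIntegral.hasDerivAt_integral_of_dominated_loc_of_deriv_le (μ := volume)
    (F := G) (F' := G') (x₀ := x0) (a := a) (b := b) (bound := fun _ => C)
    (s := Metric.closedBall x0 1) (Metric.closedBall_mem_nhds x0 one_pos)
    (Filter.Eventually.of_forall fun x =>
      (hG.comp (Continuous.prodMk_right x)).aestronglyMeasurable)
    ((hG.comp (Continuous.prodMk_right x0)).intervalIntegrable _ _)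
    ((hG'.comp (Continuous.prodMk_right x0)).aestronglyMeasurable)
    (Filter.Eventually.of_forall fun t ht x hx => hC (x, t) ⟨hx, Set.uIoc_subset_uIcc ht⟩)
    intervalIntegrable_const
    (Filter.Eventually.of_forall fun t _ x _ => hd x t)
  exact this.2

section

variable {φ : ℂ → ℝ}

/-- point of the plane -/
noncomputable def pt (x y : ℝ) : ℂ := (x : ℂ) + Complex.I * y

theorem continuous_pt : Continuous (Function.uncurry pt) := by
  unfold pt Function.uncurry
  fun_prop

theorem hasDerivAt_pt_left (x y : ℝ) : HasDerivAt (fun x => pt x y) 1 x := by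
  unfold pt
  exact ((hasDerivAt_id x).ofReal_comp.add_const _).congr_deriv (by simp)

theorem hasDerivAt_pt_right (x y : ℝ) : HasDerivAt (fun y => pt x y) Complex.I y := by
  unfold pt
  exact (((hasDerivAt_id y).ofReal_comp.const_mul Complex.I).const_add _).congr_deriv (by simp)

theorem pt_re (x y : ℝ) : (pt x y).re = x := by simp [pt]

theorem pt_im (x y : ℝ) : (pt x y).im = y := by simp [pt]

theorem pt_re_im (z : ℂ) : pt z.re z.im = z := by
  apply Complex.ext <;> simp [pt]

/-- first directional derivative -/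
noncomputable def dd (φ : ℂ → ℝ) (v z : ℂ) : ℝ := fderiv ℝ φ z v

/-- second directional derivative -/
noncomputable def dd2 (φ : ℂ → ℝ) (v z : ℂ) : ℝ := fderiv ℝ (fderiv ℝ φ) z v v

theorem hasDerivAt_dd_aux (hφ : ContDiff ℝ 2 φ) (z v : ℂ) {γ : ℝ → ℂ} {t : ℝ}
    (hγ : HasDerivAt γ v t) (hz : γ t = z) : HasDerivAt (fun t => φ (γ t)) (dd φ v z) t := by
  have h1 : HasFDerivAt φ (fderiv ℝ φ z) (γ t) := by
    rw [hz]
    exact (hφ.differentiable (by norm_num) z).hasFDerivAt
  exact h1.comp_hasDerivAt t hγ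

theorem hasDerivAt_dd2_aux (hφ : ContDiff ℝ 2 φ) (z v : ℂ) {γ : ℝ → ℂ} {t : ℝ}
    (hγ : HasDerivAt γ v t) (hz : γ t = z) :
    HasDerivAt (fun t => dd φ v (γ t)) (dd2 φ v z) t := by
  have h0 : ContDiff ℝ 1 (fderiv ℝ φ) := hφ.fderiv_right (by norm_num)
  have h1 : HasFDerivAt (fderiv ℝ φ) (fderiv ℝ (fderiv ℝ φ) z) (γ t) := by
    rw [hz]
    exact (h0.differentiable (by norm_num) z).hasFDerivAt
  have h2 := h1.comp_hasDerivAt t hγ
  exact (h2.clm_apply (hasDerivAt_const t v)).congr_deriv (by simp [dd2])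

theorem continuous_dd (hφ : ContDiff ℝ 2 φ) (v : ℂ) : Continuous (dd φ v) := by
  have h0 : ContDiff ℝ 1 (fderiv ℝ φ) := hφ.fderiv_right (by norm_num)
  exact h0.continuous.clm_apply continuous_const

theorem continuous_dd2 (hφ : ContDiff ℝ 2 φ) (v : ℂ) : Continuous (dd2 φ v) := by
  have h0 : ContDiff ℝ 1 (fderiv ℝ φ) := hφ.fderiv_right (by norm_num)
  have h1 : ContDiff ℝ 0 (fderiv ℝ (fderiv ℝ φ)) := h0.fderiv_right (by norm_num)
  exact (h1.continuous.clm_apply continuous_const).clm_apply continuous_const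

theorem laplacian_eq_dd2 (φ : ℂ → ℝ) (z : ℂ) :
    Laplacian.laplacian φ z = dd2 φ 1 z + dd2 φ Complex.I z := by
  rw [InnerProductSpace.laplacian_eq_iteratedFDeriv_complexPlane]
  simp only [iteratedFDeriv_two_apply, dd2]
  simp

/-- the kernel `exp(-imy)` -/
noncomputable def ek (m : ℤ) (y : ℝ) : ℂ := Complex.exp (-(Complex.I * m * y))

theorem continuous_ek (m : ℤ) : Continuous (ek m) := by unfold ek; fun_prop

theorem hasDerivAt_ek (m : ℤ) (y : ℝ) : HasDerivAt (ek m) (-(Complex.I * m) * ek m y) y := by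
  unfold ek
  have h1 : HasDerivAt (fun y : ℝ => -(Complex.I * m * (y:ℂ))) (-(Complex.I * m * 1)) y :=
    ((hasDerivAt_id y).ofReal_comp.const_mul (Complex.I * (m:ℂ))).neg
  exact h1.cexp.congr_deriv (by ring)

theorem ek_add (m : ℤ) (a b : ℝ) : ek m (a + b) = ek m a * ek m b := by
  unfold ek
  rw [← Complex.exp_add]
  congr 1
  push_cast
  ring

theorem ek_two_pi (m : ℤ) : ek m (2 * Real.pi) = 1 := by
  unfold ek
  have : -(Complex.I * m * ((2 * Real.pi : ℝ) : ℂ)) = ((-m : ℤ) : ℂ) * (2 * Real.pi * Complex.I) := by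
    push_cast; ring
  rw [this, Complex.exp_int_mul_two_pi_mul_I]

theorem norm_ek (m : ℤ) (y : ℝ) : ‖ek m y‖ = 1 := by
  unfold ek
  rw [Complex.norm_exp]
  simp

/-- Fourier coefficient of a function on the plane in the second variable. -/
noncomputable def fc (ψ : ℂ → ℝ) (m : ℤ) (x : ℝ) : ℂ :=
  (1 / (2 * Real.pi)) * ∫ y in (0:ℝ)..(2 * Real.pi), ek m y * (ψ (pt x y) : ℂ)

theorem hasDerivAt_fc {ψ ψ' : ℂ → ℝ} (hψ : Continuous ψ) (hψ' : Continuous ψ')
    (hd : ∀ x y, HasDerivAt (fun x => ψ (pt x y)) (ψ' (pt x y)) x) (m : ℤ) (x : ℝ) :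
    HasDerivAt (fc ψ m) (fc ψ' m x) x := by
  unfold fc
  apply HasDerivAt.const_mul
  apply hasDerivAt_param (G := fun x y => ek m y * (ψ (pt x y) : ℂ))
    (G' := fun x y => ek m y * (ψ' (pt x y) : ℂ))
  · apply Continuous.mul
    · exact (continuous_ek m).comp continuous_snd
    · exact Complex.continuous_ofReal.comp (hψ.comp continuous_pt)
  · apply Continuous.mul
    · exact (continuous_ek m).comp continuous_snd
    · exact Complex.continuous_ofReal.comp (hψ'.comp continuous_pt)
  · intro x y
    exact (hd x y).ofReal_comp.const_mul _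

theorem fc_conj (ψ : ℂ → ℝ) (m : ℤ) (x : ℝ) : fc ψ (-m) x = (starRingEnd ℂ) (fc ψ m x) := by
  unfold fc
  rw [map_mul]
  congr 1
  · rw [map_div₀, map_one, map_mul, map_ofNat, Complex.conj_ofReal]
  · have hpi : (0:ℝ) ≤ 2 * Real.pi := by positivity
    rw [intervalIntegral.integral_of_le hpi, intervalIntegral.integral_of_le hpi, ← integral_conj]
    apply integral_congr_ae
    apply Filter.Eventually.of_forall
    intro y
    simp only
    rw [map_mul, Complex.conj_ofReal]
    congr 1
    unfold ek
    rw [← Complex.exp_conj]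
    congr 1
    rw [map_neg, map_mul, map_mul, Complex.conj_I, map_intCast, Complex.conj_ofReal]
    push_cast
    ring

/-- Integration by parts: the second vertical derivative. -/
theorem fc_dd2_I (hφ : ContDiff ℝ 2 φ) (hper : ∀ z, φ (z + 2 * Real.pi * Complex.I) = φ z)
    (m : ℤ) (x : ℝ) : fc (dd2 φ Complex.I) m x = -(m:ℂ) ^ 2 * fc φ m x := by
  have hperd : ∀ z, dd φ Complex.I (z + 2 * Real.pi * Complex.I) = dd φ Complex.I z := by
    intro z
    unfold dd
    have h1 : (fun z => φ (z + 2 * Real.pi * Complex.I)) = φ := funext hper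
    have h2 := fderiv_comp_add_right (𝕜 := ℝ) (f := φ) (x := z) (2 * Real.pi * Complex.I)
    rw [h1] at h2
    rw [h2]
  have hd : ∀ y : ℝ, HasDerivAt (fun y : ℝ => ek m y * (dd φ Complex.I (pt x y) : ℂ) +
      (Complex.I * m) * (ek m y * (φ (pt x y) : ℂ)))
      (ek m y * (dd2 φ Complex.I (pt x y) : ℂ) + (m:ℂ) ^ 2 * (ek m y * (φ (pt x y) : ℂ))) y := by
    intro y
    have e1 := (hasDerivAt_dd_aux hφ (pt x y) Complex.I (hasDerivAt_pt_right x y) rfl).ofReal_comp
    have e2 := (hasDerivAt_dd2_aux hφ (pt x y) Complex.I (hasDerivAt_pt_right x y) rfl).ofReal_comp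
    have e3 := (hasDerivAt_ek m y).fun_mul e2
    have e4 := ((hasDerivAt_ek m y).fun_mul e1).const_mul (Complex.I * (m:ℂ))
    refine (e3.fun_add e4).congr_deriv ?_
    linear_combination (-(m:ℂ) ^ 2 * ek m y * (φ (pt x y) : ℂ)) * Complex.I_sq
  have hptp : pt x (2 * Real.pi) = pt x 0 + 2 * Real.pi * Complex.I := by
    unfold pt; push_cast; ring
  have hek0 : ek m 0 = 1 := by simp [ek]
  have hcont : Continuous (fun y : ℝ => ek m y * (dd2 φ Complex.I (pt x y) : ℂ) +
      (m:ℂ) ^ 2 * (ek m y * (φ (pt x y) : ℂ))) := by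
    have c1 : Continuous (fun y : ℝ => pt x y) := by unfold pt; fun_prop
    have c2 := continuous_dd2 hφ Complex.I
    have c3 := hφ.continuous
    have c4 := continuous_ek m
    apply Continuous.add
    · exact c4.mul (Complex.continuous_ofReal.comp (c2.comp c1))
    · exact continuous_const.mul (c4.mul (Complex.continuous_ofReal.comp (c3.comp c1)))
  have hint := intervalIntegral.integral_eq_sub_of_hasDerivAt (a := 0) (b := 2 * Real.pi)
    (fun y _ => hd y) (hcont.intervalIntegrable _ _)
  rw [ek_two_pi, hek0, hptp, hperd, hper, sub_self] at hint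
  have c1 : Continuous (fun y : ℝ => pt x y) := by unfold pt; fun_prop
  rw [intervalIntegral.integral_add, intervalIntegral.integral_const_mul] at hint
  · unfold fc
    linear_combination (1 / (2 * (Real.pi : ℂ))) * hint
  · exact ((continuous_ek m).mul
      (Complex.continuous_ofReal.comp ((continuous_dd2 hφ _).comp c1))).intervalIntegrable _ _
  · exact (continuous_const.mul ((continuous_ek m).mul
      (Complex.continuous_ofReal.comp (hφ.continuous.comp c1)))).intervalIntegrable _ _

theorem fc_shift (T τ : ℝ) (hper : ∀ z, φ (z + 2 * Real.pi * Complex.I) = φ z)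
    (hper1 : ∀ z, φ (z + (T + Complex.I * τ)) = φ z) (m : ℤ) (x : ℝ) :
    fc φ m (x + T) = ek m τ * fc φ m x := by
  unfold fc
  have h1 : ∀ y : ℝ, ek m y * (φ (pt (x + T) y) : ℂ) =
      ek m τ * (fun y : ℝ => ek m y * (φ (pt x y) : ℂ)) (y - τ) := by
    intro y
    have e1 : pt (x + T) y = pt x (y - τ) + (T + Complex.I * τ) := by
      unfold pt; push_cast; ring
    rw [e1, hper1]
    have e2 : ek m y = ek m τ * ek m (y - τ) := by
      rw [← ek_add]
      congr 1
      ring
    simp only
    rw [e2]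
    ring
  rw [intervalIntegral.integral_congr (fun y _ => h1 y), intervalIntegral.integral_const_mul,
    intervalIntegral.integral_comp_sub_right (fun y : ℝ => ek m y * (φ (pt x y) : ℂ)) τ]
  have hperG : Function.Periodic (fun y : ℝ => ek m y * (φ (pt x y) : ℂ)) (2 * Real.pi) := by
    intro y
    simp only
    rw [ek_add, ek_two_pi, mul_one]
    congr 2
    have : pt x (y + 2 * Real.pi) = pt x y + 2 * Real.pi * Complex.I := by
      unfold pt; push_cast; ring
    rw [this, hper]
  have h2 := hperG.intervalIntegral_add_eq (-τ) 0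
  have e3 : (0:ℝ) - τ = -τ := by ring
  have e4 : 2 * Real.pi - τ = -τ + 2 * Real.pi := by ring
  rw [e3, e4, h2, zero_add]
  ring

theorem modes_of_eigen (hφ : ContDiff ℝ 2 φ)
    (hper : ∀ z, φ (z + 2 * Real.pi * Complex.I) = φ z) {k : ℝ → ℝ}
    (heq : ∀ z, dd2 φ 1 z + dd2 φ Complex.I z = -(k z.re * φ z)) :
    Modes k (fc φ) (fc (dd φ 1)) := by
  constructor
  · intro m x
    exact hasDerivAt_fc hφ.continuous (continuous_dd hφ 1)
      (fun x y => hasDerivAt_dd_aux hφ (pt x y) 1 (hasDerivAt_pt_left x y) rfl) m x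
  · intro m x
    have h1 := hasDerivAt_fc (continuous_dd hφ 1) (continuous_dd2 hφ 1)
      (fun x y => hasDerivAt_dd2_aux hφ (pt x y) 1 (hasDerivAt_pt_left x y) rfl) m x
    refine h1.congr_deriv ?_
    have h2 := fc_dd2_I hφ hper m x
    have c1 : Continuous (fun y : ℝ => pt x y) := by unfold pt; fun_prop
    have h3 : fc (dd2 φ 1) m x + fc (dd2 φ Complex.I) m x = -(k x : ℂ) * fc φ m x := by
      unfold fc
      rw [← mul_add, ← intervalIntegral.integral_add, mul_left_comm]
      · congr 1
        rw [← intervalIntegral.integral_const_mul]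
        apply intervalIntegral.integral_congr
        intro y _
        have e1 := heq (pt x y)
        rw [pt_re] at e1
        have e2 : (dd2 φ 1 (pt x y) : ℂ) + (dd2 φ Complex.I (pt x y) : ℂ) =
            -((k x : ℂ) * (φ (pt x y) : ℂ)) := by exact_mod_cast e1
        simp only
        linear_combination (ek m y) * e2
      · exact ((continuous_ek m).mul
          (Complex.continuous_ofReal.comp ((continuous_dd2 hφ _).comp c1))).intervalIntegrable _ _
      · exact ((continuous_ek m).mul
          (Complex.continuous_ofReal.comp ((continuous_dd2 hφ _).comp c1))).intervalIntegrable _ _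
    linear_combination h3 - h2

/-- A periodic solution of `f'' = (M - k) f` with `k < M` vanishes. -/
theorem mode_zero {f g : ℝ → ℂ} {k : ℝ → ℝ} {M T : ℝ} (hT : 0 < T)
    (hf : ∀ x, HasDerivAt f (g x) x) (hg : ∀ x, HasDerivAt g (((M : ℂ) - (k x : ℂ)) * f x) x)
    (hk : ∀ x, k x < M) (hper : ∀ x, ‖f (x + T)‖ = ‖f x‖) : ∀ x, f x = 0 := by
  set w : ℝ → ℝ := fun x => ((starRingEnd ℂ) (f x) * g x).re with hw
  have hv : ∀ x, HasDerivAt (fun x => ‖f x‖ ^ 2) (2 * w x) x := by
    intro x
    have h1 : HasDerivAt (fun x => (starRingEnd ℂ) (f x)) ((starRingEnd ℂ) (g x)) x :=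
      (hf x).star_conj
    have h2 := h1.fun_mul (hf x)
    have h3 : HasDerivAt (fun x => ((starRingEnd ℂ) (f x) * f x).re)
        ((starRingEnd ℂ) (g x) * f x + (starRingEnd ℂ) (f x) * g x).re x :=
      (Complex.reCLM.hasFDerivAt.comp_hasDerivAt x h2)
    have h4 : (fun x => ‖f x‖ ^ 2) = fun x => ((starRingEnd ℂ) (f x) * f x).re := by
      funext x
      rw [← Complex.normSq_eq_norm_sq, mul_comm, Complex.mul_conj]
      simp
    rw [h4]
    refine h3.congr_deriv ?_
    simp only [hw, Complex.add_re, Complex.mul_re, Complex.conj_re, Complex.conj_im]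
    ring
  have hwd : ∀ x, HasDerivAt w (‖g x‖ ^ 2 + (M - k x) * ‖f x‖ ^ 2) x := by
    intro x
    have h1 : HasDerivAt (fun x => (starRingEnd ℂ) (f x)) ((starRingEnd ℂ) (g x)) x :=
      (hf x).star_conj
    have h2 := h1.fun_mul (hg x)
    have h3 : HasDerivAt w ((starRingEnd ℂ) (g x) * g x +
        (starRingEnd ℂ) (f x) * (((M : ℂ) - (k x : ℂ)) * f x)).re x :=
      (Complex.reCLM.hasFDerivAt.comp_hasDerivAt x h2)
    refine h3.congr_deriv ?_
    rw [← Complex.normSq_eq_norm_sq, ← Complex.normSq_eq_norm_sq]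
    simp only [Complex.normSq_apply, Complex.add_re, Complex.mul_re, Complex.mul_im,
      Complex.conj_re, Complex.conj_im, Complex.sub_re, Complex.sub_im, Complex.ofReal_re,
      Complex.ofReal_im]
    ring
  have hmono : Monotone w := by
    apply monotone_of_hasDerivAt_nonneg hwd
    intro x
    have := hk x
    have h2 : 0 ≤ (M - k x) * ‖f x‖ ^ 2 := mul_nonneg (by linarith) (by positivity)
    simp only [Pi.zero_apply]
    positivity
  have hwper : ∀ x, w (x + T) = w x := by
    intro x
    have h1 : HasDerivAt (fun x => ‖f (x + T)‖ ^ 2) (2 * w (x + T)) x :=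
      (hv (x + T)).comp_add_const x T
    have h2 : (fun x => ‖f (x + T)‖ ^ 2) = fun x => ‖f x‖ ^ 2 := by
      funext x
      rw [hper]
    rw [h2] at h1
    have := h1.unique (hv x)
    linarith
  have hwconst : ∀ x y, w x = w y := by
    have key : ∀ x y, x ≤ y → w y ≤ w x := by
      intro x y hxy
      obtain ⟨n, hn⟩ := exists_nat_gt ((y - x) / T)
      rw [div_lt_iff₀ hT] at hn
      have h1 : ∀ n : ℕ, w (x + n * T) = w x := by
        intro n
        induction n with
        | zero => simp
        | succ n ih =>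
          rw [← ih, ← hwper (x + n * T)]
          congr 1
          push_cast; ring
      rw [← h1 n]
      apply hmono
      linarith
    intro x y
    rcases le_total x y with h | h
    · exact le_antisymm (hmono h) (key x y h)
    · exact le_antisymm (key y x h) (hmono h)
  intro x
  have h1 : HasDerivAt w 0 x := by
    have : w = fun _ => w x := funext fun y => hwconst y x
    rw [this]
    exact hasDerivAt_const _ _
  have h2 := (hwd x).unique h1
  have h3 : 0 < M - k x := by linarith [hk x]
  have h4 : ‖f x‖ ^ 2 = 0 := by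
    have := sq_nonneg ‖g x‖
    have := sq_nonneg ‖f x‖
    nlinarith
  exact norm_eq_zero.1 (pow_eq_zero_iff two_ne_zero |>.1 h4)

/-- Finite Fourier representation. -/
theorem fourier_rep (hφ : Continuous φ)
    (hper : ∀ z, φ (z + 2 * Real.pi * Complex.I) = φ z) (D : ℕ) (x : ℝ)
    (hz : ∀ m : ℤ, m ∉ Finset.Icc (-(D:ℤ)) D → fc φ m x = 0) (y : ℝ) :
    trig D (fun m => fc φ m x) y = φ (pt x y) := by
  have hfact : Fact (0 < 2 * Real.pi) := ⟨by positivity⟩
  have c1 : Continuous (fun y : ℝ => pt x y) := by unfold pt; fun_prop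
  have hperG : Function.Periodic (fun y : ℝ => (φ (pt x y) : ℂ)) (2 * Real.pi) := by
    intro y
    simp only
    have : pt x (y + 2 * Real.pi) = pt x y + 2 * Real.pi * Complex.I := by
      unfold pt; push_cast; ring
    rw [this, hper]
  let F : C(AddCircle (2 * Real.pi), ℂ) :=
    ⟨hperG.lift, continuous_coinduced_dom.2 (Complex.continuous_ofReal.comp (hφ.comp c1))⟩
  have hF : ∀ y : ℝ, F (y : AddCircle (2 * Real.pi)) = (φ (pt x y) : ℂ) := fun y =>
    hperG.lift_coe y
  have hcoef : ∀ m : ℤ, fourierCoeff F m = fc φ m x := by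
    intro m
    rw [fourierCoeff_eq_intervalIntegral _ _ 0]
    unfold fc
    rw [zero_add, Complex.real_smul]
    congr 1
    · push_cast; ring
    · apply intervalIntegral.integral_congr
      intro y _
      simp only
      rw [hF, fourier_coe_apply, smul_eq_mul]
      congr 1
      unfold ek
      congr 1
      have : (Real.pi : ℂ) ≠ 0 := by exact_mod_cast Real.pi_ne_zero
      push_cast
      field_simp
  have hsupp : ∀ m : ℤ, m ∉ Finset.Icc (-(D:ℤ)) D → fourierCoeff F m = 0 := by
    intro m hm
    rw [hcoef, hz m hm]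
  have hsum : Summable (fourierCoeff F) := by
    apply summable_of_ne_finset_zero (s := Finset.Icc (-(D:ℤ)) D)
    exact hsupp
  have h1 := has_pointwise_sum_fourier_series_of_summable hsum (y : AddCircle (2 * Real.pi))
  have h2 : HasSum (fun m => fourierCoeff F m • fourier m (y : AddCircle (2 * Real.pi)))
      (∑ m ∈ Finset.Icc (-(D:ℤ)) D, fourierCoeff F m • fourier m
        (y : AddCircle (2 * Real.pi))) := by
    apply hasSum_sum_of_ne_finset_zero
    intro m hm
    rw [hsupp m hm, zero_smul]
  have h3 := h1.unique h2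
  rw [hF] at h3
  rw [h3]
  unfold trig
  apply Finset.sum_congr rfl
  intro m _
  rw [hcoef, fourier_coe_apply, smul_eq_mul]
  congr 2
  have : (Real.pi : ℂ) ≠ 0 := by exact_mod_cast Real.pi_ne_zero
  push_cast
  field_simp

end

end FC78
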