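import Pool.Agent.W_MP_fc1c69_an.Geometry
import Pool.Agent.W_MP_fc1c69_an.Fourier
import Pool.Agent.W_MP_fc1c69_an.Count

/-!
Assembly.
-/

namespace FC78

open Set MeasureTheory

namespace CircleTorus

variable (M : CircleTorus)

/-- Good disc: some value on the disc dominates all values on the double disc. -/
def Good (K : ℝ) (φ : ℂ → ℝ) (c : ℂ) (r : ℝ) : Prop :=
  ∃ z' ∈ M.disc c r, ∀ z ∈ M.disc c (2 * r), |φ z| ≤ K * |φ z'|

/-- Analytic core: for an eigenfunction with `lam` not too small there are, on every vertical line,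
small bad sets; a point outside the bad set gives local doubling. -/
theorem eigen_line {lam : ℝ} (hlam : 0 < lam) {φ : ℂ → ℝ} (hφ : M.IsEigenfunction lam φ)
    {Q κ h L ρ δ σ : ℝ} (hQ1 : 1 ≤ Q) (hQ : ∀ x, M.q x ≤ Q) (hh0 : 0 < h) (hh : h ≤ 1 / 2)
    (hκ : Real.sqrt lam * h = κ) (hκQ : 2 * Real.sqrt Q * κ ≤ 1) (hL : 1 ≤ L) (hρ : 0 < ρ)
    (hδ : 0 < δ) (hδ1 : δ ≤ 1) (hσ : 0 < σ) (hσρ : σ ≤ ρ / 2) (x : ℝ) :
    ∃ Bad : Set ℝ, MeasurableSet Bad ∧
      volume (Bad ∩ Ioc 0 (2 * Real.pi)) ≤ ENNReal.ofReal (10 / Real.sqrt L) ∧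
      ∀ y, y ∉ Bad → ∃ u ∈ Icc y (y + δ * h), ∃ s ∈ Icc 0 (σ * h), ∀ x' y' : ℝ,
        |x' - x| ≤ ρ * h → |y' - u| ≤ ρ * h →
        |φ (pt x' y')| ≤ KD κ Q ρ (max 1 (KT L δ (2 * ρ + 1))) σ * |φ (pt (x + s) u)| := by
  set Λ := Real.sqrt lam with hΛ
  have hΛ0 : 0 < Λ := Real.sqrt_pos.2 hlam
  have hΛ2 : Λ ^ 2 = lam := Real.sq_sqrt hlam.le
  have hper : ∀ z, φ (z + 2 * Real.pi * Complex.I) = φ z := by
    intro z
    apply hφ.periodic
    exact ⟨0, 1, by push_cast; ring⟩
  have hper1 : ∀ z, φ (z + (M.T + Complex.I * M.τ)) = φ z := by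
    intro z
    apply hφ.periodic
    exact ⟨1, 0, by push_cast; ring⟩
  have heq : ∀ z, dd2 φ 1 z + dd2 φ Complex.I z = -((fun x => lam * M.q x) z.re * φ z) := by
    intro z
    have h1 := hφ.equation z
    rw [laplacian_eq_dd2] at h1
    simp only
    linarith
  have hm : Modes (fun x => lam * M.q x) (fc φ) (fc (dd φ 1)) :=
    modes_of_eigen hφ.contDiff hper heq
  set D : ℕ := ⌊Λ * Real.sqrt Q⌋₊ with hD
  have hDle : (D : ℝ) ≤ Λ * Real.sqrt Q := Nat.floor_le (by positivity)
  have hDh : 2 * D * h ≤ 1 := by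
    calc 2 * (D:ℝ) * h ≤ 2 * (Λ * Real.sqrt Q) * h := by
          apply mul_le_mul_of_nonneg_right _ hh0.le
          linarith
      _ = 2 * Real.sqrt Q * κ := by rw [← hκ]; ring
      _ ≤ 1 := hκQ
  have hk : ∀ x, |lam * M.q x| ≤ Λ ^ 2 * Q := by
    intro x
    rw [abs_of_nonneg (mul_nonneg hlam.le (M.q_pos x).le), hΛ2]
    exact mul_le_mul_of_nonneg_left (hQ x) hlam.le
  have hvan : ∀ x (m : ℤ), m ∉ Finset.Icc (-(D:ℤ)) D → fc φ m x = 0 := by
    intro x m hmD
    have h1 : (D:ℝ) + 1 ≤ |(m:ℝ)| := by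
      rw [Finset.mem_Icc, not_and_or, not_le, not_le] at hmD
      rcases hmD with h2 | h2
      · have h3 : (m:ℝ) + 1 ≤ -(D:ℝ) := by exact_mod_cast h2
        have := neg_le_abs (m:ℝ)
        linarith
      · have h3 : (D:ℝ) + 1 ≤ m := by exact_mod_cast h2
        have := le_abs_self (m:ℝ)
        linarith
    have h4 : Λ * Real.sqrt Q < D + 1 := Nat.lt_floor_add_one _
    have h5 : lam * Q < (m:ℝ) ^ 2 := by
      have h6 : (Λ * Real.sqrt Q) ^ 2 = lam * Q := by
        rw [mul_pow, hΛ2, Real.sq_sqrt (by linarith)]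
      rw [← h6, ← sq_abs (m:ℝ)]
      apply pow_lt_pow_left₀ (lt_of_lt_of_le h4 h1) (by positivity) two_ne_zero
    have hz := mode_zero (f := fc φ m) (g := fc (dd φ 1) m) (k := fun x => lam * M.q x)
      (M := (m:ℝ) ^ 2) M.T_pos (fun x => hm.hf m x)
      (fun x => by
        have := hm.hg m x
        convert this using 3
        push_cast
        ring)
      (fun x => lt_of_le_of_lt (mul_le_mul_of_nonneg_left (hQ x) hlam.le) h5)
      (fun x => by
        rw [fc_shift M.T M.τ hper hper1, norm_mul, norm_ek, one_mul])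
    exact hz x
  have hrep : ∀ x y : ℝ, trig D (fun m => fc φ m x) y = φ (pt x y) := fun x y =>
    fourier_rep hφ.contDiff.continuous hper D x (hvan x) y
  obtain ⟨Bad, hBm, hBp, hBs, hBg⟩ := trig_good D
    (fun m => fc φ m x + (Complex.I / Λ) * fc (dd φ 1) m x) hh0 hh hL hDh
  refine ⟨Bad, hBm, ?_, ?_⟩
  · have h1 : (volume.restrict (Ioc 0 (2 * Real.pi))).real Bad =
        (volume (Bad ∩ Ioc 0 (2 * Real.pi))).toReal := by
      rw [Measure.real, Measure.restrict_apply hBm]
    rw [h1] at hBs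
    refine (ENNReal.le_ofReal_iff_toReal_le ?_ (by positivity)).2 hBs
    exact ne_top_of_le_ne_top measure_Ioc_lt_top.ne (measure_mono inter_subset_right)
  · intro y hy
    have hR : 0 ≤ 2 * ρ + 1 := by positivity
    obtain ⟨u, hu, hgood⟩ := hBg y hy δ (2 * ρ + 1) hδ hδ1 hR
    refine ⟨u, hu, ?_⟩
    have hloc := local_doubling (f := fc φ) (g := fc (dd φ 1)) hm D (Λ := Λ) (Q := Q) (h := h)
      (ρ := ρ) (κ := κ) (K := max 1 (KT L δ (2 * ρ + 1))) (σ := σ) (x0 := x) (u := u)
      hΛ0 hQ1 hk hh0 hρ hκ (le_max_left _ _) hσ hσρ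
      (fun m x => fc_conj φ m x) (fun m x => fc_conj (dd φ 1) m x)
      (by
        intro ζ hζ
        refine (hgood ζ hζ).trans ?_
        exact mul_le_mul_of_nonneg_right (le_max_right _ _) (norm_nonneg _))
    obtain ⟨s, hs, hloc⟩ := hloc
    refine ⟨s, hs, ?_⟩
    intro x' y' hx' hy'
    have := hloc x' y' hx' hy'
    rw [hrep, hrep, Complex.norm_real, Complex.norm_real] at this
    exact this

theorem disc_mono {c : ℂ} {r r' : ℝ} (h : r ≤ r') : M.disc c r ⊆ M.disc c r' := by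
  rintro z ⟨γ, h1, h2, h3, h4⟩
  exact ⟨γ, h1, h2, h3, lt_of_lt_of_le h4 h⟩

theorem pt_sub_norm_le (x y : ℝ) (c : ℂ) : ‖pt x y - c‖ ≤ |x - c.re| + |y - c.im| := by
  refine (Complex.norm_le_abs_re_add_abs_im _).trans ?_
  rw [Complex.sub_re, Complex.sub_im, pt_re, pt_im]

theorem pt_shift (x y : ℝ) (a b : ℤ) :
    M.Same (pt x y) (pt (x - a * M.T) (y - a * M.τ - b * (2 * Real.pi))) := by
  refine ⟨-a, -b, ?_⟩
  unfold pt
  push_cast
  ring

open Classical in
/-- All but a small proportion of the discs are good. -/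
theorem core (A C₁ ε : ℝ) (hA : 0 < A) (hε : 0 < ε) :
    ∃ K : ℝ, 1 ≤ K ∧ ∀ lam : ℝ, 0 < lam → ∀ φ : ℂ → ℝ, M.IsEigenfunction lam φ →
      ∀ (ι : Type) [Fintype ι] (c : ι → ℂ), M.IsCovering C₁ (A / Real.sqrt lam) c →
        ((Finset.univ.filter (fun i => ¬ M.Good K φ (c i) (A / Real.sqrt lam))).card : ℝ) ≤
          ε * Fintype.card ι := by
  obtain ⟨q0, Q0, hq0, hqQ, hq⟩ := M.exists_bounds
  have hT := M.T_pos
  have hpi3 := Real.pi_gt_three
  set Q := max Q0 1 with hQdef
  have hQ1 : 1 ≤ Q := le_max_right _ _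
  have hQ : ∀ x, M.q x ≤ Q := fun x => (hq x).2.trans (le_max_left _ _)
  set a0 := Real.sqrt q0 with ha0
  set a1 := Real.sqrt Q with ha1
  have ha0p : 0 < a0 := Real.sqrt_pos.2 hq0
  have ha1p : 1 ≤ a1 := by
    rw [ha1]
    exact Real.one_le_sqrt.2 hQ1
  -- minimal frequency
  set Lm := A / (a1 * (M.T + 2 * Real.pi + 1)) with hLm
  have hLm0 : 0 < Lm := by positivity
  set cN := max a1 (1 / Lm) with hcN
  have hcN0 : 0 < cN := lt_of_lt_of_le (by linarith) (le_max_left _ _)
  set κ := 1 / (2 * cN) with hκ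
  have hκ0 : 0 < κ := by positivity
  have hκQ : 2 * Real.sqrt Q * κ ≤ 1 := by
    rw [← ha1, hκ, mul_one_div, div_le_one (by positivity)]
    have := le_max_left a1 (1 / Lm)
    linarith
  set R0 := A / (κ * a1) with hR0
  set R1 := A / (κ * a0) with hR1
  have hR0p : 0 < R0 := by positivity
  have hR1p : 0 < R1 := by positivity
  set δ := min 1 (min M.T R0) / 4 with hδ
  have hδ0 : 0 < δ := by
    have : 0 < min 1 (min M.T R0) := lt_min one_pos (lt_min hT hR0p)
    positivity
  have hδ1 : δ ≤ 1 / 4 := by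
    have := min_le_left 1 (min M.T R0)
    linarith
  have hδT : δ ≤ M.T / 4 := by
    have := (min_le_right 1 (min M.T R0)).trans (min_le_left _ _)
    linarith
  have hδR : δ ≤ R0 / 4 := by
    have := (min_le_right 1 (min M.T R0)).trans (min_le_right _ _)
    linarith
  set ρ := 2 * R1 + 2 with hρ
  have hρ0 : 0 < ρ := by positivity
  -- small scale threshold
  set h1 := min 1 M.T / (2 * R1) with hh1
  have hh10 : 0 < h1 := by
    have : 0 < min 1 M.T := lt_min one_pos hT
    positivity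
  set C := max C₁ 0 + 1 with hC
  have hC0 : 0 < C := by
    have := le_max_right C₁ 0
    linarith
  have hCC : C₁ ≤ C := by
    have := le_max_left C₁ 0
    linarith
  set e := min (ε * (2 * Real.pi) * (2 * δ) ^ 2 / ((2 * R1) ^ 2 * C))
    ((2 * δ * h1) ^ 2 / (M.T * C) / 2) with he
  have he0 : 0 < e := by
    apply lt_min <;> positivity
  set L := max 1 ((10 / e) ^ 2) with hL
  have hL1 : 1 ≤ L := le_max_left _ _
  have hLe : 10 / Real.sqrt L ≤ e := by
    have h2 : 10 / e ≤ Real.sqrt L := by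
      apply Real.le_sqrt_of_sq_le
      exact le_max_right _ _
    have h3 : 0 < Real.sqrt L := Real.sqrt_pos.2 (by linarith)
    rw [div_le_iff₀ h3]
    rw [div_le_iff₀ he0] at h2
    linarith
  set Kf := KD κ Q ρ (max 1 (KT L δ (2 * ρ + 1))) δ with hKf
  refine ⟨max 1 Kf, le_max_left _ _, ?_⟩
  intro lam hlam φ hφ ι _ c hcov
  set Λ := Real.sqrt lam with hΛ
  have hΛ0 : 0 < Λ := Real.sqrt_pos.2 hlam
  set S := Finset.univ.filter (fun i => ¬ M.Good (max 1 Kf) φ (c i) (A / Λ)) with hS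
  have hcard0 : (0:ℝ) ≤ Fintype.card ι := Nat.cast_nonneg _
  rcases lt_or_ge Λ Lm with hsmall | hlarge
  · -- the discs are the whole torus
    have hSe : S = ∅ := by
      rw [hS, Finset.filter_eq_empty_iff]
      intro i _
      rw [not_not]
      obtain ⟨z0, hz0⟩ := M.exists_max hφ.contDiff.continuous hφ.periodic
      refine ⟨z0, ?_, ?_⟩
      · obtain ⟨w, hw, hwn⟩ := M.exists_close (c i) z0
        apply M.mem_disc_of_norm hQ hw
        rw [lt_div_iff₀ hΛ0]
        have h2 : a1 * ‖w - c i‖ ≤ a1 * (M.T + 2 * Real.pi) :=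
          mul_le_mul_of_nonneg_left hwn (by linarith)
        have h3 : Λ * (a1 * (M.T + 2 * Real.pi + 1)) < A := by
          rw [hLm, lt_div_iff₀ (by positivity)] at hsmall
          exact hsmall
        calc a1 * ‖w - c i‖ * Λ ≤ a1 * (M.T + 2 * Real.pi) * Λ :=
              mul_le_mul_of_nonneg_right h2 hΛ0.le
          _ ≤ Λ * (a1 * (M.T + 2 * Real.pi + 1)) := by
              have h4 : 0 ≤ Λ * a1 := mul_nonneg hΛ0.le (by linarith only [ha1p])
              linarith only [h4]
          _ < A := h3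
      · intro z _
        refine (hz0 z).trans ?_
        have := le_max_left 1 Kf
        exact le_mul_of_one_le_left (abs_nonneg (φ z0)) this
    rw [hSe]
    simp only [Finset.card_empty, Nat.cast_zero]
    positivity
  -- the main case
  set h := κ / Λ with hh
  have hh0 : 0 < h := by positivity
  have hκh : Real.sqrt lam * h = κ := by
    rw [← hΛ, hh]; field_simp
  have hh2 : h ≤ 1 / 2 := by
    rw [hh, hκ, div_div, div_le_div_iff₀ (by positivity) (by norm_num)]
    have h2 : 1 ≤ cN * Λ := by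
      calc 1 = (1 / Lm) * Lm := by field_simp
        _ ≤ cN * Λ := mul_le_mul (le_max_right _ _) hlarge hLm0.le hcN0.le
    linarith
  have hrad : A / Λ = A / κ * h := by
    rw [hh]; field_simp
  have hin : ∀ (z w : ℂ) (i : ι), M.Same z w → ‖w - c i‖ < R0 * h → z ∈ M.disc (c i) (A / Λ) := by
    intro z w i hzw hn
    apply M.mem_disc_of_norm hQ hzw
    rw [hrad]
    have h2 : R0 = A / κ / a1 := by rw [hR0]; field_simp
    rw [h2] at hn
    calc Real.sqrt Q * ‖w - c i‖ < a1 * (A / κ / a1 * h) :=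
          mul_lt_mul_of_pos_left hn (by linarith)
      _ = A / κ * h := by field_simp
  have hout : ∀ (z : ℂ) (i : ι) (t : ℝ), z ∈ M.disc (c i) (t * (A / Λ)) →
      ∃ w, M.Same z w ∧ ‖w - c i‖ < t * R1 * h := by
    intro z i t hz
    obtain ⟨w, hw, hn⟩ := M.norm_of_mem_disc (fun x => (hq x).1) hz
    refine ⟨w, hw, ?_⟩
    rw [hrad] at hn
    have h2 : t * R1 * h = t * (A / κ * h) / a0 := by rw [hR1]; field_simp
    rw [h2, lt_div_iff₀ ha0p]
    linarith
  -- bad sets
  choose Bad hBm hBs hBg using fun x => M.eigen_line hlam hφ hQ1 hQ hh0 hh2 hκh hκQ hL1 hρ0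
    hδ0 (by linarith) hδ0 (by linarith : δ ≤ ρ / 2) x
  have hr0 : 0 < δ * h := by positivity
  have hδh2 : δ * h ≤ δ * (1 / 2) := mul_le_mul_of_nonneg_left hh2 hδ0.le
  have hr2 : 2 * (δ * h) ≤ M.T := by linarith only [hδh2, hδT, hT]
  have hr3 : 2 * (δ * h) ≤ 2 * Real.pi := by linarith only [hδh2, hδ1, hpi3]
  have hδRh : 4 * (δ * h) ≤ R0 * h := by
    have h2 := mul_le_mul_of_nonneg_right hδR hh0.le
    linarith only [h2]
  have hov : ∀ x y, ((Finset.univ.filter (fun i =>
      InBox M.T M.τ (c i).re (c i).im (δ * h) x y)).card : ℝ) ≤ C := by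
    intro x y
    refine le_trans ?_ ((hcov.overlap (pt x y)).trans hCC)
    rw [Set.ncard_eq_toFinset_card']
    have h2 : (Finset.univ.filter (fun i =>
        InBox M.T M.τ (c i).re (c i).im (δ * h) x y)) ⊆
        {i | pt x y ∈ M.disc (c i) (A / Λ)}.toFinset := by
      intro i hi
      obtain ⟨a, b, h3, h4⟩ := (Finset.mem_filter.1 hi).2
      rw [Set.mem_toFinset, Set.mem_ofPred_eq]
      apply hin _ _ i (M.pt_shift x y a b)
      refine lt_of_le_of_lt (pt_sub_norm_le _ _ _) ?_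
      have e1 : x - a * M.T - (c i).re = x - (c i).re - a * M.T := by ring
      have e2 : y - a * M.τ - b * (2 * Real.pi) - (c i).im =
          y - (c i).im - a * M.τ - b * (2 * Real.pi) := by ring
      rw [e1, e2]
      calc _ < δ * h + δ * h := add_lt_add h3 h4
        _ ≤ R0 * h := by linarith only [hδRh, hr0]
    exact_mod_cast Finset.card_le_card h2
  have hbad : ∀ i ∈ S, ∀ x y, InBox M.T M.τ (c i).re (c i).im (δ * h) x y → y ∈ Bad x := by
    intro i hi x y hbox
    by_contra hy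
    apply (Finset.mem_filter.1 hi).2
    obtain ⟨u, hu, s, hs, hg⟩ := hBg x y hy
    obtain ⟨a, b, h3, h4⟩ := hbox
    rw [abs_lt] at h3 h4
    refine ⟨pt (x + s) u, ?_, ?_⟩
    · apply hin _ _ i (M.pt_shift (x + s) u a b)
      refine lt_of_le_of_lt (pt_sub_norm_le _ _ _) ?_
      have e1 : |x + s - a * M.T - (c i).re| < 2 * (δ * h) := by
        rw [abs_lt]
        constructor <;> linarith [hs.1, hs.2]
      have e2 : |u - a * M.τ - b * (2 * Real.pi) - (c i).im| < 2 * (δ * h) := by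
        rw [abs_lt]
        constructor <;> linarith [hu.1, hu.2]
      calc _ < 2 * (δ * h) + 2 * (δ * h) := add_lt_add e1 e2
        _ ≤ R0 * h := by linarith only [hδRh]
    · intro z hz
      obtain ⟨w, hw, hwn⟩ := hout z i 2 hz
      -- translate w close to (x, y)
      set w' := w + a * (M.T + M.τ * Complex.I) + b * (2 * Real.pi * Complex.I) with hw'
      have hzw' : M.Same z w' := M.same_trans hw ⟨a, b, hw'⟩
      have e0 : φ z = φ (pt w'.re w'.im) := by
        rw [pt_re_im]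
        exact (hφ.periodic z w' hzw').symm
      rw [e0]
      have hre : |(w - c i).re| < 2 * R1 * h := lt_of_le_of_lt (Complex.abs_re_le_norm _) hwn
      have him : |(w - c i).im| < 2 * R1 * h := lt_of_le_of_lt (Complex.abs_im_le_norm _) hwn
      have e1 : w'.re = w.re + a * M.T := by simp [hw']
      have e2 : w'.im = w.im + a * M.τ + b * (2 * Real.pi) := by simp [hw']
      rw [Complex.sub_re, abs_lt] at hre
      rw [Complex.sub_im, abs_lt] at him
      have hδh : δ * h ≤ h := by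
        have h2 := mul_le_mul_of_nonneg_right hδ1 hh0.le
        linarith only [h2, hh0]
      have hρh : ρ * h = 2 * R1 * h + 2 * h := by rw [hρ]; ring
      have hfin := hg w'.re w'.im (by
        rw [e1, abs_le, hρh]
        constructor <;> linarith only [hre.1, hre.2, h3.1, h3.2, hδh, hh0]) (by
        rw [e2, abs_le, hρh]
        constructor <;> linarith only [him.1, him.2, h4.1, h4.2, hu.1, hu.2, hδh, hh0])
      refine hfin.trans ?_
      exact mul_le_mul_of_nonneg_right (le_max_right _ _) (abs_nonneg _)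
  have hBs' : ∀ x, volume (Bad x ∩ Ioc 0 (2 * Real.pi)) ≤ ENNReal.ofReal e := fun x =>
    (hBs x).trans (ENNReal.ofReal_le_ofReal hLe)
  have hcount := count_bad hT hr0 hr2 hr3 hC0.le he0.le (fun i => (c i).re) (fun i => (c i).im)
    hov Bad hBm hBs' S hbad
  rcases le_or_gt h h1 with hle | hgt
  · -- small scale: compare with the total number
    have hR1h : R1 * h ≤ min 1 M.T / 2 := by
      calc R1 * h ≤ R1 * h1 := mul_le_mul_of_nonneg_left hle hR1p.le
        _ = min 1 M.T / 2 := by rw [hh1]; field_simp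
    have hm1 : min 1 M.T ≤ 1 := min_le_left _ _
    have hm2 : min 1 M.T ≤ M.T := min_le_right _ _
    have htot := count_total (T := M.T) (τ := M.τ) (r := R1 * h) hT (by positivity)
      (by linarith) (by linarith) (fun i => (c i).re) (fun i => (c i).im) (by
        intro x y
        obtain ⟨i, hi⟩ := hcov.covers (pt x y)
        refine ⟨i, ?_⟩
        have hi' : pt x y ∈ M.disc (c i) (1 * (A / Λ)) := by rwa [one_mul]
        obtain ⟨w, ⟨a, b, hw⟩, hwn⟩ := hout _ i 1 hi'
        rw [one_mul] at hwn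
        have e1 : w.re = x + a * M.T := by rw [hw]; simp [pt]
        have e2 : w.im = y + a * M.τ + b * (2 * Real.pi) := by rw [hw]; simp [pt]
        refine ⟨-a, -b, ?_, ?_⟩
        · refine lt_of_le_of_lt (le_trans (le_of_eq ?_) (Complex.abs_re_le_norm _)) hwn
          rw [Complex.sub_re, e1]
          congr 1
          push_cast
          ring
        · refine lt_of_le_of_lt (le_trans (le_of_eq ?_) (Complex.abs_im_le_norm _)) hwn
          rw [Complex.sub_im, e2]
          congr 1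
          push_cast
          ring)
    have he1 : e ≤ ε * (2 * Real.pi) * (2 * δ) ^ 2 / ((2 * R1) ^ 2 * C) := min_le_left _ _
    rw [le_div_iff₀ (by positivity)] at he1
    -- combine
    have hh2pos : 0 < h ^ 2 := by positivity
    have e3 : (S.card : ℝ) * (2 * δ) ^ 2 * h ^ 2 ≤ M.T * C * e := by
      calc (S.card : ℝ) * (2 * δ) ^ 2 * h ^ 2 = (S.card : ℝ) * (2 * (δ * h)) ^ 2 := by ring
        _ ≤ _ := hcount
    have e4 : M.T * (2 * Real.pi) ≤ (Fintype.card ι : ℝ) * (2 * R1) ^ 2 * h ^ 2 := by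
      calc M.T * (2 * Real.pi) ≤ _ := htot
        _ = _ := by ring
    have e5 : (S.card : ℝ) * ((2 * δ) ^ 2 * (2 * R1) ^ 2 * h ^ 2) ≤
        ε * (Fintype.card ι) * ((2 * δ) ^ 2 * (2 * R1) ^ 2 * h ^ 2) := by
      calc (S.card : ℝ) * ((2 * δ) ^ 2 * (2 * R1) ^ 2 * h ^ 2)
          = ((S.card : ℝ) * (2 * δ) ^ 2 * h ^ 2) * (2 * R1) ^ 2 := by ring
        _ ≤ (M.T * C * e) * (2 * R1) ^ 2 := mul_le_mul_of_nonneg_right e3 (by positivity)
        _ = M.T * (e * ((2 * R1) ^ 2 * C)) := by ring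
        _ ≤ M.T * (ε * (2 * Real.pi) * (2 * δ) ^ 2) := mul_le_mul_of_nonneg_left he1 hT.le
        _ = ε * (2 * δ) ^ 2 * (M.T * (2 * Real.pi)) := by ring
        _ ≤ ε * (2 * δ) ^ 2 * ((Fintype.card ι : ℝ) * (2 * R1) ^ 2 * h ^ 2) :=
            mul_le_mul_of_nonneg_left e4 (by positivity)
        _ = _ := by ring
    exact le_of_mul_le_mul_right e5 (by positivity)
  · -- large scale: no bad disc
    have he2 : e ≤ (2 * δ * h1) ^ 2 / (M.T * C) / 2 := min_le_right _ _
    have e3 : (S.card : ℝ) * (2 * δ * h1) ^ 2 ≤ (2 * δ * h1) ^ 2 / 2 := by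
      calc (S.card : ℝ) * (2 * δ * h1) ^ 2 ≤ (S.card : ℝ) * (2 * (δ * h)) ^ 2 := by
            apply mul_le_mul_of_nonneg_left _ (Nat.cast_nonneg _)
            apply pow_le_pow_left₀ (by positivity)
            have h7 := mul_le_mul_of_nonneg_left hgt.le hδ0.le
            linarith only [h7]
        _ ≤ M.T * C * e := hcount
        _ ≤ M.T * C * ((2 * δ * h1) ^ 2 / (M.T * C) / 2) :=
            mul_le_mul_of_nonneg_left he2 (by positivity)
        _ = _ := by field_simp
    have e4 : (S.card : ℝ) ≤ 1 / 2 := by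
      have h5 : 0 < (2 * δ * h1) ^ 2 := by positivity
      have h6 : (S.card : ℝ) * (2 * δ * h1) ^ 2 ≤ 1 / 2 * (2 * δ * h1) ^ 2 := by linarith
      exact le_of_mul_le_mul_right h6 h5
    have e5 : S.card = 0 := by
      by_contra hne
      have : (1:ℝ) ≤ S.card := by exact_mod_cast Nat.one_le_iff_ne_zero.2 hne
      linarith
    rw [e5]
    simp only [Nat.cast_zero]
    positivity

end CircleTorus

end FC78
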