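import Mathlib

/-!
Circle invariant metrics on the two dimensional torus, geodesic discs and doubling indices.
-/

namespace FC78

/-- The torus `ℂ / (ℤ (T + iτ) + ℤ 2πi)` with the Riemannian metric `q(Re z) |dz|²`, where `q` is
a positive continuous `T`-periodic function. The translations `z ↦ z + is` are isometries, so
the circle acts by isometries. -/
structure CircleTorus where
  /-- the real part of the first period -/
  T : ℝ
  /-- the imaginary part of the first period -/
  τ : ℝ
  /-- the conformal factor -/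
  q : ℝ → ℝ
  T_pos : 0 < T
  q_cont : Continuous q
  q_pos : ∀ x, 0 < q x
  q_per : ∀ x, q (x + T) = q x

namespace CircleTorus

variable (M : CircleTorus)

/-- `z` and `w` represent the same point of the torus. -/
def Same (z w : ℂ) : Prop :=
  ∃ a b : ℤ, w = z + a * (M.T + M.τ * Complex.I) + b * (2 * Real.pi * Complex.I)

/-- Riemannian length of the curve `γ` on `[0, 1]`. -/
noncomputable def len (γ : ℝ → ℂ) : ℝ :=
  ∫ t in (0:ℝ)..1, Real.sqrt (M.q (γ t).re) * ‖deriv γ t‖

/-- The open geodesic disc with centre `c` and radius `r` (as a periodic subset of the plane):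
all points that can be joined to `c` on the torus by a `C¹` curve of length less than `r`. -/
def disc (c : ℂ) (r : ℝ) : Set ℂ :=
  {z | ∃ γ : ℝ → ℂ, ContDiff ℝ 1 γ ∧ γ 0 = c ∧ M.Same z (γ 1) ∧ M.len γ < r}

/-- `φ` is a real eigenfunction of the Laplace-Beltrami operator `q⁻¹ Δ` of the torus with
eigenvalue `lam`: `q⁻¹ Δ φ + lam φ = 0`, where `Δ` is the flat Laplacian. -/
structure IsEigenfunction (lam : ℝ) (φ : ℂ → ℝ) : Prop where
  contDiff : ContDiff ℝ 2 φ
  periodic : ∀ z w, M.Same z w → φ w = φ z
  equation : ∀ z, Laplacian.laplacian φ z + lam * M.q z.re * φ z = 0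
  nonzero : φ ≠ 0

/-- The geodesic discs with centres `c i` and radius `r` cover the torus, and every point lies in
at most `C₁` of them. -/
structure IsCovering (C₁ r : ℝ) {ι : Type} [Fintype ι] (c : ι → ℂ) : Prop where
  covers : ∀ z, ∃ i, z ∈ M.disc (c i) r
  overlap : ∀ z, (Set.ncard {i | z ∈ M.disc (c i) r} : ℝ) ≤ C₁

/-- The doubling index `log₂ (sup_{2B} |φ| / sup_B |φ|)` on the disc `B` with centre `c` and
radius `r`. -/
noncomputable def doublingIndex (φ : ℂ → ℝ) (c : ℂ) (r : ℝ) : ℝ :=
  Real.logb 2 ((⨆ z : M.disc c (2 * r), |φ z|) / (⨆ z : M.disc c r, |φ z|))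

end CircleTorus

end FC78
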