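import Pool.Agent.W_MP_fc1c69_an.Local

/-!
Local doubling in two dimensions from one good point.
-/

namespace FC78

open Finset

theorem trig_conj (D : ℕ) (c : ℤ → ℂ) (hc : ∀ m, c (-m) = (starRingEnd ℂ) (c m)) (ζ : ℂ) :
    (starRingEnd ℂ) (trig D c ζ) = trig D c ((starRingEnd ℂ) ζ) := by
  unfold trig
  rw [map_sum]
  apply Finset.sum_bij (fun (m:ℤ) _ => -m)
  · intro m hm
    rw [Finset.mem_Icc] at hm ⊢
    omega
  · intro a _ b _ h
    simpa using h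
  · intro m hm
    rw [Finset.mem_Icc] at hm
    exact ⟨-m, by rw [Finset.mem_Icc]; omega, by simp⟩
  · intro m _
    rw [map_mul, hc, ← Complex.exp_conj]
    congr 2
    rw [map_mul, map_mul, Complex.conj_I, map_intCast]
    push_cast
    ring

/-- the wave constant -/
noncomputable def C2 (κ Q ρ : ℝ) : ℝ := 2 * (1 + 1 / κ) * Real.exp (2 * Q * (ρ * κ))

/-- the second derivative constant -/
noncomputable def C3 (κ Q ρ K : ℝ) : ℝ := K * C2 κ Q ρ * (16 / (ρ * κ) ^ 2 + Q)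

/-- the constant of the lower bound -/
noncomputable def th (κ Q ρ K σ : ℝ) : ℝ := min (1 / (4 * C3 κ Q ρ K)) (κ * σ) / 4

/-- the final local constant -/
noncomputable def KD (κ Q ρ K σ : ℝ) : ℝ := C2 κ Q ρ * K / th κ Q ρ K σ

theorem C2_ge {κ Q ρ : ℝ} (hκ : 0 < κ) (hQ : 1 ≤ Q) (hρ : 0 < ρ) : 2 ≤ C2 κ Q ρ := by
  unfold C2
  have h1 : 1 ≤ Real.exp (2 * Q * (ρ * κ)) := by
    apply Real.one_le_exp
    positivity
  have h2 : 0 < 1 / κ := by positivity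
  nlinarith only [h1, h2]

theorem C3_ge {κ Q ρ K : ℝ} (hκ : 0 < κ) (hQ : 1 ≤ Q) (hρ : 0 < ρ) (hK : 1 ≤ K) :
    1 ≤ C3 κ Q ρ K := by
  unfold C3
  have h1 := C2_ge hκ hQ hρ
  have h2 : 0 ≤ 16 / (ρ * κ) ^ 2 := by positivity
  have h3 : 2 ≤ K * C2 κ Q ρ := by nlinarith only [hK, h1]
  nlinarith only [hQ, h2, h3]

theorem th_pos {κ Q ρ K σ : ℝ} (hκ : 0 < κ) (hQ : 1 ≤ Q) (hρ : 0 < ρ) (hK : 1 ≤ K)
    (hσ : 0 < σ) : 0 < th κ Q ρ K σ := by
  unfold th
  have := C3_ge hκ hQ hρ hK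
  have h1 : 0 < min (1 / (4 * C3 κ Q ρ K)) (κ * σ) := by
    apply lt_min <;> positivity
  positivity

theorem KD_pos {κ Q ρ K σ : ℝ} (hκ : 0 < κ) (hQ : 1 ≤ Q) (hρ : 0 < ρ) (hK : 1 ≤ K)
    (hσ : 0 < σ) : 0 < KD κ Q ρ K σ := by
  unfold KD
  have := C2_ge hκ hQ hρ
  have := th_pos hκ hQ hρ hK hσ
  positivity

section

variable {k : ℝ → ℝ} {f g : ℤ → ℝ → ℂ}

/-- The complex datum on the line `x = x0`. -/
noncomputable def FF (D : ℕ) (Λ : ℝ) (f g : ℤ → ℝ → ℂ) (x0 : ℝ) (ζ : ℂ) : ℂ :=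
  trig D (fun m => f m x0 + (Complex.I / Λ) * g m x0) ζ

theorem FF_eq (D : ℕ) (Λ : ℝ) (f g : ℤ → ℝ → ℂ) (x0 : ℝ) (ζ : ℂ) :
    FF D Λ f g x0 ζ = trig D (fun m => f m x0) ζ +
      (Complex.I / Λ) * trig D (fun m => g m x0) ζ := by
  unfold FF
  rw [trig_add, trig_smul]

theorem FF_conj (D : ℕ) (Λ : ℝ) (x0 : ℝ)
    (hf : ∀ m, f (-m) x0 = (starRingEnd ℂ) (f m x0))
    (hg : ∀ m, g (-m) x0 = (starRingEnd ℂ) (g m x0)) (ζ : ℂ) :
    (starRingEnd ℂ) (FF D Λ f g x0 ((starRingEnd ℂ) ζ)) = trig D (fun m => f m x0) ζ -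
      (Complex.I / Λ) * trig D (fun m => g m x0) ζ := by
  rw [FF_eq, map_add, map_mul, trig_conj D _ hf, trig_conj D _ hg, map_div₀, Complex.conj_I,
    Complex.conj_ofReal, Complex.conj_conj]
  ring

theorem bound_of_FF (D : ℕ) {Λ h R K x0 u : ℝ} (hΛ : 0 < Λ)
    (hf : ∀ m, f (-m) x0 = (starRingEnd ℂ) (f m x0))
    (hg : ∀ m, g (-m) x0 = (starRingEnd ℂ) (g m x0))
    (hK : ∀ ζ : ℂ, ‖ζ - u‖ ≤ R * h → ‖FF D Λ f g x0 ζ‖ ≤ K * ‖FF D Λ f g x0 u‖) :
    (∀ ζ : ℂ, ‖ζ - u‖ ≤ R * h →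
      ‖trig D (fun m => f m x0) ζ‖ ≤ K * ‖FF D Λ f g x0 u‖) ∧
    (∀ ζ : ℂ, ‖ζ - u‖ ≤ R * h →
      ‖trig D (fun m => g m x0) ζ‖ ≤ Λ * (K * ‖FF D Λ f g x0 u‖)) := by
  have hΛc : (Λ : ℂ) ≠ 0 := by exact_mod_cast hΛ.ne'
  have hcz : ∀ ζ : ℂ, ‖ζ - u‖ ≤ R * h → ‖(starRingEnd ℂ) ζ - u‖ ≤ R * h := by
    intro ζ hζ
    have : (starRingEnd ℂ) ζ - u = (starRingEnd ℂ) (ζ - u) := by
      rw [map_sub, Complex.conj_ofReal]
    rw [this, RCLike.norm_conj]
    exact hζ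
  constructor
  · intro ζ hζ
    have e1 := hK ζ hζ
    have e2 := hK _ (hcz ζ hζ)
    have e3 : trig D (fun m => f m x0) ζ = (FF D Λ f g x0 ζ +
        (starRingEnd ℂ) (FF D Λ f g x0 ((starRingEnd ℂ) ζ))) / 2 := by
      rw [FF_conj D Λ x0 hf hg, FF_eq]
      ring
    rw [e3, norm_div]
    have e4 : ‖(2:ℂ)‖ = 2 := by norm_num
    rw [e4]
    have e5 := norm_add_le (FF D Λ f g x0 ζ)
      ((starRingEnd ℂ) (FF D Λ f g x0 ((starRingEnd ℂ) ζ)))
    rw [RCLike.norm_conj] at e5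
    linarith only [e1, e2, e5]
  · intro ζ hζ
    have e1 := hK ζ hζ
    have e2 := hK _ (hcz ζ hζ)
    have e3 : trig D (fun m => g m x0) ζ = (-Complex.I * Λ) * ((FF D Λ f g x0 ζ -
        (starRingEnd ℂ) (FF D Λ f g x0 ((starRingEnd ℂ) ζ))) / 2) := by
      rw [FF_conj D Λ x0 hf hg, FF_eq]
      field_simp
      linear_combination (2 * trig D (fun m => g m x0) ζ) * Complex.I_sq
    rw [e3, norm_mul, norm_div]
    have e4 : ‖(2:ℂ)‖ = 2 := by norm_num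
    have e6 : ‖-Complex.I * (Λ:ℂ)‖ = Λ := by
      rw [norm_mul, norm_neg, Complex.norm_I, Complex.norm_real, Real.norm_eq_abs, abs_of_pos hΛ]
      ring
    rw [e4, e6]
    have e5 := norm_sub_le (FF D Λ f g x0 ζ)
      ((starRingEnd ℂ) (FF D Λ f g x0 ((starRingEnd ℂ) ζ)))
    rw [RCLike.norm_conj] at e5
    apply mul_le_mul_of_nonneg_left _ hΛ.le
    linarith only [e1, e2, e5]

theorem norm_FF_sq (D : ℕ) {Λ x0 : ℝ} (_hΛ : 0 < Λ)
    (hf : ∀ m, f (-m) x0 = (starRingEnd ℂ) (f m x0))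
    (hg : ∀ m, g (-m) x0 = (starRingEnd ℂ) (g m x0)) (u : ℝ) :
    ‖FF D Λ f g x0 u‖ ^ 2 = ‖trig D (fun m => f m x0) u‖ ^ 2 +
      ‖trig D (fun m => g m x0) u‖ ^ 2 / Λ ^ 2 := by
  have e1 : (starRingEnd ℂ) (trig D (fun m => f m x0) u) = trig D (fun m => f m x0) u := by
    rw [trig_conj D _ hf, Complex.conj_ofReal]
  have e2 : (starRingEnd ℂ) (trig D (fun m => g m x0) u) = trig D (fun m => g m x0) u := by
    rw [trig_conj D _ hg, Complex.conj_ofReal]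
  obtain ⟨a, ha⟩ := Complex.conj_eq_iff_real.1 e1
  obtain ⟨b, hb⟩ := Complex.conj_eq_iff_real.1 e2
  rw [FF_eq, ha, hb]
  have e3 : (a:ℂ) + Complex.I / Λ * b = (a:ℂ) + ((b / Λ : ℝ) : ℂ) * Complex.I := by
    push_cast
    ring
  rw [e3, ← Complex.normSq_eq_norm_sq, Complex.normSq_add_mul_I, Complex.norm_real,
    Complex.norm_real, Real.norm_eq_abs, Real.norm_eq_abs, sq_abs, sq_abs]
  rw [div_pow]

theorem local_doubling (hm : Modes k f g) (D : ℕ) {Λ Q h ρ κ K σ x0 u : ℝ}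
    (hΛ : 0 < Λ) (hQ : 1 ≤ Q) (hk : ∀ x, |k x| ≤ Λ ^ 2 * Q) (h0 : 0 < h) (hρ : 0 < ρ)
    (hκ : Λ * h = κ) (hK1 : 1 ≤ K) (hσ : 0 < σ) (hσρ : σ ≤ ρ / 2)
    (hfc : ∀ m x, f (-m) x = (starRingEnd ℂ) (f m x))
    (hgc : ∀ m x, g (-m) x = (starRingEnd ℂ) (g m x))
    (hK : ∀ ζ : ℂ, ‖ζ - u‖ ≤ (2 * ρ + 1) * h →
      ‖FF D Λ f g x0 ζ‖ ≤ K * ‖FF D Λ f g x0 u‖) :
    ∃ s ∈ Set.Icc 0 (σ * h), ∀ x y : ℝ, |x - x0| ≤ ρ * h → |y - u| ≤ ρ * h →
      ‖trig D (fun m => f m x) y‖ ≤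
        KD κ Q ρ K σ * ‖trig D (fun m => f m (x0 + s)) u‖ := by
  have hκ0 : 0 < κ := by rw [← hκ]; positivity
  set m0 := ‖FF D Λ f g x0 u‖ with hm0
  have hm00 : 0 ≤ m0 := norm_nonneg _
  obtain ⟨hΦ, hΨ⟩ := bound_of_FF D hΛ (fun m => hfc m x0) (fun m => hgc m x0) hK
  have hKm : 0 ≤ K * m0 := by positivity
  have hstep := wave_step hm D hΛ hQ hk h0 hρ.le hKm hΦ hΨ
  rw [hκ] at hstep
  have hC2 := C2_ge hκ0 hQ hρ
  have hC3 := C3_ge hκ0 hQ hρ hK1
  have hth := th_pos hκ0 hQ hρ hK1 hσ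
  have hC2e : 2 * (1 + 1 / κ) * Real.exp (2 * Q * (ρ * κ)) = C2 κ Q ρ := rfl
  -- upper bound
  have hup : ∀ x y : ℝ, |x - x0| ≤ ρ * h → |y - u| ≤ ρ * h →
      ‖trig D (fun m => f m x) y‖ ≤ C2 κ Q ρ * (K * m0) := by
    intro x y hx hy
    rcases le_total x0 x with hle | hle
    · rw [abs_of_nonneg (by linarith only [hle])] at hx
      have := (hstep (x - x0) (by linarith only [hle]) (y:ℂ) (by simpa using hy)
        (by simpa using hx)).1
      have e1 : x0 + (x - x0) = x := by ring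
      rw [e1, hC2e] at this
      exact this
    · rw [abs_of_nonpos (by linarith only [hle])] at hx
      have hΦ' : ∀ ζ : ℂ, ‖ζ - u‖ ≤ (2 * ρ + 1) * h →
          ‖trig D (fun m => (fun m x => f m (-x)) m (-x0)) ζ‖ ≤ K * m0 := by
        intro ζ hζ
        simpa using hΦ ζ hζ
      have hΨ' : ∀ ζ : ℂ, ‖ζ - u‖ ≤ (2 * ρ + 1) * h →
          ‖trig D (fun m => (fun m x => -g m (-x)) m (-x0)) ζ‖ ≤ Λ * (K * m0) := by
        intro ζ hζ
        have e1 : trig D (fun m => (fun m x => -g m (-x)) m (-x0)) ζ =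
            (-1) * trig D (fun m => g m x0) ζ := by
          rw [← trig_smul]
          simp
        rw [e1, norm_mul]
        simpa using hΨ ζ hζ
      have := (wave_step hm.reflect D hΛ hQ (fun x => hk (-x)) h0 hρ.le hKm hΦ' hΨ'
        (x0 - x) (by linarith only [hle]) (y:ℂ) (by simpa using hy) (by simpa using hx)).1
      have e1 : -(-x0 + (x0 - x)) = x := by ring
      rw [hκ] at this
      simp only [e1] at this
      exact this
  -- lower bound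
  set c := min (1 / (4 * C3 κ Q ρ K)) (κ * σ) with hc
  have hc0 : 0 < c := by
    apply lt_min <;> positivity
  have hc1 : c ≤ 1 / (4 * C3 κ Q ρ K) := min_le_left _ _
  have hc2 : c ≤ κ * σ := min_le_right _ _
  have hthc : th κ Q ρ K σ = c / 4 := rfl
  have hC3c : C3 κ Q ρ K * c ≤ 1 / 4 := by
    calc C3 κ Q ρ K * c ≤ C3 κ Q ρ K * (1 / (4 * C3 κ Q ρ K)) :=
          mul_le_mul_of_nonneg_left hc1 (by linarith only [hC3])
      _ = 1 / 4 := by field_simp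
  have hc4 : c ≤ 1 / 4 := by nlinarith only [hC3, hC3c]
  suffices hlow : ∃ s ∈ Set.Icc 0 (σ * h),
      th κ Q ρ K σ * m0 ≤ ‖trig D (fun m => f m (x0 + s)) u‖ by
    obtain ⟨s, hs, hlow⟩ := hlow
    refine ⟨s, hs, fun x y hx hy => (hup x y hx hy).trans ?_⟩
    unfold KD
    rw [div_mul_eq_mul_div, le_div_iff₀ hth]
    calc C2 κ Q ρ * (K * m0) * th κ Q ρ K σ = C2 κ Q ρ * K * (th κ Q ρ K σ * m0) := by ring
      _ ≤ _ := mul_le_mul_of_nonneg_left hlow (by positivity)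
  by_cases hcase : th κ Q ρ K σ * m0 ≤ ‖trig D (fun m => f m x0) u‖
  · exact ⟨0, ⟨le_rfl, by positivity⟩, by simpa using hcase⟩
  push Not at hcase
  have hsq := norm_FF_sq D hΛ (fun m => hfc m x0) (fun m => hgc m x0) u
  rw [← hm0] at hsq
  -- second derivative bound
  have h2nd : ∀ s ∈ Set.Icc 0 (σ * h),
      ‖trig D (fun m => ((m:ℂ) ^ 2 - (k (x0 + s) : ℂ)) * f m (x0 + s)) u‖ ≤
        Λ ^ 2 * C3 κ Q ρ K * m0 := by
    intro s hs
    have hsρ : s ≤ ρ * h / 2 := by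
      have : σ * h ≤ ρ / 2 * h := mul_le_mul_of_nonneg_right hσρ h0.le
      linarith only [hs.2, this]
    have hb0 : ∀ ζ : ℂ, ‖ζ - u‖ ≤ ρ * h / 2 → ‖trig D (fun m => f m (x0 + s)) ζ‖ ≤
        C2 κ Q ρ * (K * m0) := by
      intro ζ hζ
      have e1 : |ζ.re - u| ≤ ρ * h / 2 := by
        have : ζ.re - u = (ζ - u).re := by simp
        rw [this]
        exact (Complex.abs_re_le_norm _).trans hζ
      have e2 : |ζ.im| ≤ ρ * h / 2 := by
        have : ζ.im = (ζ - u).im := by simp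
        rw [this]
        exact (Complex.abs_im_le_norm _).trans hζ
      have hp : 0 < ρ * h := by positivity
      have := (hstep s hs.1 ζ (by linarith only [e1, hp]) (by linarith only [hsρ, e2])).1
      rw [hC2e] at this
      exact this
    have hr : 0 < ρ * h / 4 := by positivity
    have hb1 : ∀ ζ : ℂ, ‖ζ - u‖ ≤ ρ * h / 4 →
        ‖trig D (fun m => Complex.I * m * f m (x0 + s)) ζ‖ ≤
          C2 κ Q ρ * (K * m0) / (ρ * h / 4) := by
      intro ζ hζ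
      apply cauchy_trig D (fun m => f m (x0 + s)) hr
      intro z hz
      apply hb0
      have e1 : z - u = (z - ζ) + (ζ - u) := by ring
      rw [e1]
      refine (norm_add_le _ _).trans ?_
      linarith only [hζ, hz]
    have hb2 : ‖trig D (fun m => Complex.I * m * (Complex.I * m * f m (x0 + s))) u‖ ≤
          C2 κ Q ρ * (K * m0) / (ρ * h / 4) / (ρ * h / 4) := by
      apply cauchy_trig D (fun m => Complex.I * m * f m (x0 + s)) hr
      intro z hz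
      exact hb1 z hz
    have e1 : trig D (fun m => ((m:ℂ) ^ 2 - (k (x0 + s) : ℂ)) * f m (x0 + s)) u =
        (-1) * trig D (fun m => Complex.I * m * (Complex.I * m * f m (x0 + s))) u +
        (-(k (x0 + s) : ℂ)) * trig D (fun m => f m (x0 + s)) u := by
      rw [← trig_smul, ← trig_smul, ← trig_add]
      congr 1
      funext m
      linear_combination ((m:ℂ) ^ 2 * f m (x0 + s)) * Complex.I_sq
    rw [e1]
    refine (norm_add_le _ _).trans ?_
    rw [norm_mul, norm_mul, norm_neg, norm_neg, norm_one, one_mul, Complex.norm_real,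
      Real.norm_eq_abs]
    have e2 : |k (x0 + s)| * ‖trig D (fun m => f m (x0 + s)) u‖ ≤
        (Λ ^ 2 * Q) * (C2 κ Q ρ * (K * m0)) := by
      apply mul_le_mul (hk _) _ (norm_nonneg _) (by positivity)
      apply hb0
      rw [sub_self, norm_zero]
      positivity
    have e3 : C2 κ Q ρ * (K * m0) / (ρ * h / 4) / (ρ * h / 4) =
        Λ ^ 2 * (16 / (ρ * κ) ^ 2) * (C2 κ Q ρ * (K * m0)) := by
      rw [← hκ]
      field_simp
      ring
    rw [e3] at hb2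
    calc _ ≤ Λ ^ 2 * (16 / (ρ * κ) ^ 2) * (C2 κ Q ρ * (K * m0)) +
          (Λ ^ 2 * Q) * (C2 κ Q ρ * (K * m0)) := add_le_add hb2 e2
      _ = _ := by unfold C3; ring
  -- first derivative
  set A := Λ ^ 2 * C3 κ Q ρ K * m0 with hA
  have hA0 : 0 ≤ A := by positivity
  have hfs : ∀ m s, HasDerivAt (fun u => f m (x0 + u)) (g m (x0 + s)) s := fun m s =>
    (hm.hf m (x0 + s)).comp_const_add x0 s
  have hgs : ∀ m s, HasDerivAt (fun u => g m (x0 + u))
      (((m:ℂ) ^ 2 - (k (x0 + s) : ℂ)) * f m (x0 + s)) s := fun m s =>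
    (hm.hg m (x0 + s)).comp_const_add x0 s
  have hdΨ : ∀ s, HasDerivAt (fun s => trig D (fun m => g m (x0 + s)) u)
      (trig D (fun m => ((m:ℂ) ^ 2 - (k (x0 + s) : ℂ)) * f m (x0 + s)) u) s := by
    intro s
    have h1 := hasDerivAt_trig_curve D (fun m u => g m (x0 + u))
      (fun m => ((m:ℂ) ^ 2 - (k (x0 + s) : ℂ)) * f m (x0 + s))
      (fun _ => (u:ℂ)) 0 s (fun m => hgs m s) (hasDerivAt_const _ _)
    refine h1.congr_deriv ?_
    congr 1
    funext m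
    ring
  have hdΦ : ∀ s, HasDerivAt (fun s => trig D (fun m => f m (x0 + s)) u)
      (trig D (fun m => g m (x0 + s)) u) s := by
    intro s
    have h1 := hasDerivAt_trig_curve D (fun m u => f m (x0 + u))
      (fun m => g m (x0 + s))
      (fun _ => (u:ℂ)) 0 s (fun m => hfs m s) (hasDerivAt_const _ _)
    refine h1.congr_deriv ?_
    congr 1
    funext m
    ring
  have hΨlip : ∀ s ∈ Set.Icc 0 (σ * h), ‖trig D (fun m => g m (x0 + s)) u -
      trig D (fun m => g m x0) u‖ ≤ A * s := by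
    intro s hs
    have := norm_image_sub_le_of_norm_deriv_right_le_segment (a := 0) (b := σ * h)
      (f := fun s => trig D (fun m => g m (x0 + s)) u) (C := A)
      (fun s _ => (hdΨ s).continuousAt.continuousWithinAt)
      (fun s _ => (hdΨ s).hasDerivWithinAt)
      (fun s hs => h2nd s (Set.Ico_subset_Icc_self hs)) s hs
    simpa using this
  have hΦtay : ∀ s ∈ Set.Icc 0 (σ * h), ‖trig D (fun m => f m (x0 + s)) u -
      trig D (fun m => f m x0) u - s * trig D (fun m => g m x0) u‖ ≤ A * s * s := by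
    intro s hs
    have := norm_image_sub_le_of_norm_deriv_right_le_segment (a := 0) (b := s)
      (f := fun s : ℝ => trig D (fun m => f m (x0 + s)) u - s * trig D (fun m => g m x0) u)
      (f' := fun s => trig D (fun m => g m (x0 + s)) u - trig D (fun m => g m x0) u)
      (C := A * s)
      (fun v _ => by
        have e1 : HasDerivAt (fun s : ℝ => (s:ℂ) * trig D (fun m => g m x0) u)
            (1 * trig D (fun m => g m x0) u) v := by
          apply HasDerivAt.mul_const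
          exact (hasDerivAt_id v).ofReal_comp
        exact ((hdΦ v).fun_sub e1).continuousAt.continuousWithinAt)
      (fun v _ => by
        have e1 : HasDerivAt (fun s : ℝ => (s:ℂ) * trig D (fun m => g m x0) u)
            (1 * trig D (fun m => g m x0) u) v := by
          apply HasDerivAt.mul_const
          exact (hasDerivAt_id v).ofReal_comp
        exact (((hdΦ v).fun_sub e1).congr_deriv (by ring)).hasDerivWithinAt)
      (fun v hv => by
        have e1 := hΨlip v ⟨hv.1, hv.2.le.trans hs.2⟩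
        exact e1.trans (mul_le_mul_of_nonneg_left hv.2.le hA0)) s ⟨hs.1, le_rfl⟩
    simp only [add_zero, Complex.ofReal_zero, zero_mul, sub_zero] at this
    rw [sub_right_comm]
    exact this
  have hs0 : 0 ≤ c / Λ := by positivity
  have hsσ : c / Λ ≤ σ * h := by
    rw [div_le_iff₀ hΛ]
    calc c ≤ κ * σ := hc2
      _ = σ * h * Λ := by rw [← hκ]; ring
  refine ⟨c / Λ, ⟨hs0, hsσ⟩, ?_⟩
  have htay := hΦtay (c / Λ) ⟨hs0, hsσ⟩
  set a0 := trig D (fun m => f m x0) u with ha0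
  set b0 := trig D (fun m => g m x0) u with hb0
  set a1 := trig D (fun m => f m (x0 + c / Λ)) u with ha1
  have hA2 : A * (c / Λ) * (c / Λ) = C3 κ Q ρ K * c * c * m0 := by
    rw [hA]
    field_simp
  rw [hA2] at htay
  have hb : 4 / 5 * m0 ≤ ‖b0‖ / Λ := by
    have e1 : (‖b0‖ / Λ) ^ 2 = m0 ^ 2 - ‖a0‖ ^ 2 := by
      rw [div_pow, hsq]; ring
    have e2 : ‖a0‖ ≤ m0 / 16 := by
      have : th κ Q ρ K σ ≤ 1 / 16 := by rw [hthc]; linarith only [hc4]
      nlinarith only [hm00, hcase, this]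
    have e3 : (4 / 5 * m0) ^ 2 ≤ (‖b0‖ / Λ) ^ 2 := by
      rw [e1]
      have := norm_nonneg a0
      nlinarith only [e2, this]
    exact (pow_le_pow_iff_left₀ (by positivity) (by positivity) two_ne_zero).1 e3
  have hsb : ‖((c / Λ : ℝ) : ℂ) * b0‖ = c * (‖b0‖ / Λ) := by
    rw [norm_mul, Complex.norm_real, Real.norm_eq_abs, abs_of_nonneg hs0]
    ring
  have htri : ‖((c / Λ : ℝ) : ℂ) * b0‖ ≤
      ‖a1‖ + ‖a0‖ + ‖a1 - a0 - ((c / Λ : ℝ) : ℂ) * b0‖ := by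
    have : ((c / Λ : ℝ) : ℂ) * b0 = a1 - a0 - (a1 - a0 - ((c / Λ : ℝ) : ℂ) * b0) := by ring
    calc ‖((c / Λ : ℝ) : ℂ) * b0‖ = ‖a1 - a0 - (a1 - a0 - ((c / Λ : ℝ) : ℂ) * b0)‖ := by
          rw [← this]
      _ ≤ ‖a1 - a0‖ + ‖a1 - a0 - ((c / Λ : ℝ) : ℂ) * b0‖ := norm_sub_le _ _
      _ ≤ _ := by
          have := norm_sub_le a1 a0
          linarith only [this]
  rw [hsb] at htri
  rw [hthc] at hcase ⊢
  have e5 : c * (4 / 5 * m0) ≤ c * (‖b0‖ / Λ) := mul_le_mul_of_nonneg_left hb hc0.le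
  have e6 : C3 κ Q ρ K * c * c * m0 ≤ 1 / 4 * c * m0 := by
    apply mul_le_mul_of_nonneg_right _ hm00
    apply mul_le_mul_of_nonneg_right hC3c hc0.le
  have e7 : 0 ≤ c * m0 := by positivity
  linarith only [hcase, htay, htri, e5, e6, e7]

end

end FC78
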