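import Pool.Agent.W_MP_fc1c69_an.Defs

/-!
Comparison of geodesic discs with Euclidean discs, compactness of the torus.
-/

namespace FC78

open Set MeasureTheory

namespace CircleTorus

variable (M : CircleTorus)

theorem q_zmul (n : ℤ) (x : ℝ) : M.q (x + n * M.T) = M.q x := by
  have h : Function.Periodic M.q M.T := M.q_per
  exact (h.int_mul n) x

theorem exists_bounds : ∃ q0 Q0 : ℝ, 0 < q0 ∧ q0 ≤ Q0 ∧ ∀ x, q0 ≤ M.q x ∧ M.q x ≤ Q0 := by
  have hne : (Icc 0 M.T).Nonempty := ⟨0, le_rfl, M.T_pos.le⟩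
  obtain ⟨a, ha, hamin⟩ := isCompact_Icc.exists_isMinOn hne M.q_cont.continuousOn
  obtain ⟨b, hb, hbmax⟩ := isCompact_Icc.exists_isMaxOn hne M.q_cont.continuousOn
  have hred : ∀ x, ∃ y ∈ Icc 0 M.T, M.q y = M.q x := by
    intro x
    refine ⟨x + (-⌊x / M.T⌋ : ℤ) * M.T, ?_, M.q_zmul _ x⟩
    have hT := M.T_pos
    have h1 := Int.floor_le (x / M.T)
    have h2 := (Int.lt_floor_add_one (x / M.T)).le
    rw [le_div_iff₀ hT] at h1
    rw [div_le_iff₀ hT] at h2
    push_cast
    constructor <;> nlinarith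
  refine ⟨M.q a, M.q b, M.q_pos a, ?_, ?_⟩
  · exact hamin hb
  · intro x
    obtain ⟨y, hy, hyx⟩ := hred x
    rw [← hyx]
    exact ⟨hamin hy, hbmax hy⟩

theorem same_refl (z : ℂ) : M.Same z z := ⟨0, 0, by simp⟩

theorem same_symm {z w : ℂ} (h : M.Same z w) : M.Same w z := by
  obtain ⟨a, b, h⟩ := h
  refine ⟨-a, -b, ?_⟩
  rw [h]; push_cast; ring

theorem same_trans {z w v : ℂ} (h : M.Same z w) (h' : M.Same w v) : M.Same z v := by
  obtain ⟨a, b, h⟩ := h
  obtain ⟨a', b', h'⟩ := h'
  refine ⟨a + a', b + b', ?_⟩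
  rw [h', h]; push_cast; ring

/-- every point has a representative close to a given point -/
theorem exists_close (c z : ℂ) : ∃ w, M.Same z w ∧ ‖w - c‖ ≤ M.T + 2 * Real.pi := by
  have hT := M.T_pos
  have hpi : 0 < 2 * Real.pi := by positivity
  set a : ℤ := -⌊(z - c).re / M.T⌋ with ha
  set z1 : ℂ := z + a * (M.T + M.τ * Complex.I) with hz1
  set b : ℤ := -⌊(z1 - c).im / (2 * Real.pi)⌋ with hb
  refine ⟨z + a * (M.T + M.τ * Complex.I) + b * (2 * Real.pi * Complex.I), ⟨a, b, rfl⟩, ?_⟩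
  have hre : (z + a * (M.T + M.τ * Complex.I) + b * (2 * Real.pi * Complex.I) - c).re =
      (z - c).re + a * M.T := by
    simp
    ring
  have him : (z + a * (M.T + M.τ * Complex.I) + b * (2 * Real.pi * Complex.I) - c).im =
      (z1 - c).im + b * (2 * Real.pi) := by
    simp [hz1]
    ring
  refine (Complex.norm_le_abs_re_add_abs_im _).trans ?_
  rw [hre, him]
  apply add_le_add
  · have h1 := Int.floor_le ((z - c).re / M.T)
    have h2 := (Int.lt_floor_add_one ((z - c).re / M.T)).le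
    rw [le_div_iff₀ hT] at h1
    rw [div_le_iff₀ hT] at h2
    rw [ha, abs_le]
    push_cast
    constructor <;> nlinarith
  · have h1 := Int.floor_le ((z1 - c).im / (2 * Real.pi))
    have h2 := (Int.lt_floor_add_one ((z1 - c).im / (2 * Real.pi))).le
    rw [le_div_iff₀ hpi] at h1
    rw [div_le_iff₀ hpi] at h2
    rw [hb, abs_le]
    push_cast
    constructor <;> nlinarith

/-- inner comparison -/
theorem mem_disc_of_norm {Q0 : ℝ} (hQ : ∀ x, M.q x ≤ Q0) {c z w : ℂ} {r : ℝ} (h : M.Same z w)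
    (hr : Real.sqrt Q0 * ‖w - c‖ < r) : z ∈ M.disc c r := by
  refine ⟨fun t => c + t * (w - c), ?_, by simp, ?_, ?_⟩
  · have : ContDiff ℝ 1 (fun t : ℝ => (t : ℂ)) := Complex.ofRealCLM.contDiff
    exact contDiff_const.add (this.mul contDiff_const)
  · simpa using h
  · have hd : ∀ t : ℝ, deriv (fun t : ℝ => c + (t:ℂ) * (w - c)) t = w - c := by
      intro t
      have h1 : HasDerivAt (fun t : ℝ => (t:ℂ)) 1 t := by
        simpa using (hasDerivAt_id t).ofReal_comp
      have h2 := (h1.mul_const (w - c)).const_add c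
      rw [h2.deriv, one_mul]
    unfold len
    refine lt_of_le_of_lt ?_ hr
    have h3 : ∫ t in (0:ℝ)..1, Real.sqrt (M.q ((fun t : ℝ => c + (t:ℂ) * (w - c)) t).re) *
        ‖deriv (fun t : ℝ => c + (t:ℂ) * (w - c)) t‖ ≤
        ∫ t in (0:ℝ)..1, Real.sqrt Q0 * ‖w - c‖ := by
      apply intervalIntegral.integral_mono_on (by norm_num)
      · apply Continuous.intervalIntegrable
        simp_rw [hd]
        apply Continuous.mul _ continuous_const
        apply Real.continuous_sqrt.comp
        apply M.q_cont.comp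
        fun_prop
      · exact intervalIntegrable_const
      · intro t _
        rw [hd]
        exact mul_le_mul_of_nonneg_right (Real.sqrt_le_sqrt (hQ _)) (norm_nonneg _)
    refine h3.trans (le_of_eq ?_)
    rw [intervalIntegral.integral_const]
    simp

/-- outer comparison -/
theorem norm_of_mem_disc {q0 : ℝ} (hq : ∀ x, q0 ≤ M.q x) {c z : ℂ} {r : ℝ}
    (h : z ∈ M.disc c r) : ∃ w, M.Same z w ∧ Real.sqrt q0 * ‖w - c‖ < r := by
  obtain ⟨γ, hγ, h0, h1, h2⟩ := h
  refine ⟨γ 1, h1, lt_of_le_of_lt ?_ h2⟩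
  have hdc : Continuous (deriv γ) := hγ.continuous_deriv (by norm_num)
  have e1 : ∫ t in (0:ℝ)..1, deriv γ t = γ 1 - γ 0 := by
    apply intervalIntegral.integral_deriv_eq_sub
    · intro t _
      exact (hγ.differentiable (by norm_num)) t
    · exact hdc.intervalIntegrable _ _
  have e2 : ‖γ 1 - c‖ ≤ ∫ t in (0:ℝ)..1, ‖deriv γ t‖ := by
    rw [← h0, ← e1]
    exact intervalIntegral.norm_integral_le_integral_norm (by norm_num)
  have e3 : Real.sqrt q0 * ∫ t in (0:ℝ)..1, ‖deriv γ t‖ ≤ M.len γ := by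
    unfold len
    rw [← intervalIntegral.integral_const_mul]
    apply intervalIntegral.integral_mono_on (by norm_num)
    · exact (continuous_const.mul hdc.norm).intervalIntegrable _ _
    · apply Continuous.intervalIntegrable
      apply Continuous.mul _ hdc.norm
      apply Real.continuous_sqrt.comp
      apply M.q_cont.comp
      exact Complex.continuous_re.comp hγ.continuous
    · intro t _
      exact mul_le_mul_of_nonneg_right (Real.sqrt_le_sqrt (hq _)) (norm_nonneg _)
  refine le_trans ?_ e3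
  exact mul_le_mul_of_nonneg_left e2 (Real.sqrt_nonneg _)

/-- A continuous periodic function attains the maximum of its modulus. -/
theorem exists_max {φ : ℂ → ℝ} (hφ : Continuous φ) (hper : ∀ z w, M.Same z w → φ w = φ z) :
    ∃ z0, ∀ z, |φ z| ≤ |φ z0| := by
  obtain ⟨z0, _, hz0⟩ := (isCompact_closedBall (0:ℂ) (M.T + 2 * Real.pi)).exists_isMaxOn
    ⟨0, by
      rw [mem_closedBall_zero_iff, norm_zero]
      have := M.T_pos
      positivity⟩
    (hφ.abs.continuousOn)
  refine ⟨z0, fun z => ?_⟩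
  obtain ⟨w, hw, hwn⟩ := M.exists_close 0 z
  rw [← hper z w hw]
  apply hz0
  rw [mem_closedBall_zero_iff]
  simpa using hwn

end CircleTorus

end FC78
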