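import Pool.Agent.W_MP_fc1c69_an.Zeros

/-!
Kolmogorov type estimate for sums of Herglotz summands.
-/

namespace FC78

open Finset MeasureTheory

theorem differentiableOn_tt (w : ℂ) : DifferentiableOn ℂ (tt w) (Metric.ball 0 1) := by
  intro z hz
  rw [mem_ball_zero_iff] at hz
  have := one_sub_ne (w := w) hz
  unfold tt
  apply DifferentiableAt.differentiableWithinAt
  apply DifferentiableAt.div
  · fun_prop
  · fun_prop
  · exact this

theorem circleMap_eq (h y : ℝ) :
    circleMap 0 (1 - h) y = ((1 - h : ℝ) : ℂ) * Complex.exp (Complex.I * y) := by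
  rw [circleMap_zero]
  rw [mul_comm (y : ℂ)]

/-- The bad set of a system of roots has small measure. -/
theorem measure_bad {ι : Type*} (s : Finset ι) (w : ι → ℂ) {h L : ℝ} (h0 : 0 < h)
    (h1 : h ≤ 1 / 2) (hL : 0 < L) (hcard : s.card * h ≤ 1) :
    (volume.restrict (Set.Ioc 0 (2 * Real.pi))).real
      {y : ℝ | L ≤ h * ‖∑ i ∈ s, tt (w i) (((1 - h : ℝ) : ℂ) *
        Complex.exp (Complex.I * y))‖} ≤ 10 / Real.sqrt L := by
  classical
  set H : ℂ → ℂ := fun z => ∑ i ∈ s, tt (w i) z with hH
  have hHd : DifferentiableOn ℂ H (Metric.ball 0 1) := by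
    simp only [hH]
    exact DifferentiableOn.fun_sum (fun i _ => differentiableOn_tt (w i))
  rcases s.eq_empty_or_nonempty with rfl | hne
  · have : {y : ℝ | L ≤ h * ‖∑ i ∈ (∅ : Finset ι), tt (w i) (((1 - h : ℝ) : ℂ) *
        Complex.exp (Complex.I * y))‖} = ∅ := by
      ext y
      simp [hL]
    rw [this]
    simp only [measureReal_empty]
    positivity
  have hre : ∀ z, ‖z‖ < 1 → 0 < (H z).re := by
    intro z hz
    simp only [hH]
    rw [Complex.re_sum]
    exact Finset.sum_pos (fun i _ => re_tt_pos hz) hne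
  have hH0 : H 0 = s.card := by
    simp [hH, tt]
  set S : ℂ → ℂ := fun z => Complex.sqrt (H z) with hS
  have hSd : DifferentiableOn ℂ S (Metric.ball 0 1) := by
    intro z hz
    have hz' : ‖z‖ < 1 := by rwa [mem_ball_zero_iff] at hz
    have h2 : H z ∈ Complex.slitPlane := Or.inl (hre z hz')
    exact (Complex.differentiableAt_sqrt h2).comp_differentiableWithinAt z (hHd z hz)
  have hρ : (0:ℝ) < 1 - h := by linarith
  have hmean : Real.circleAverage S 0 (1 - h) = S 0 := by
    apply DiffContOnCl.circleAverage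
    apply DifferentiableOn.diffContOnCl
    apply hSd.mono
    intro z hz
    have := Metric.closure_ball_subset_closedBall hz
    rw [mem_closedBall_zero_iff, abs_of_pos hρ] at this
    rw [mem_ball_zero_iff]
    linarith
  have hcm : ∀ y : ℝ, ‖circleMap 0 (1 - h) y‖ < 1 := by
    intro y
    rw [norm_circleMap_zero, abs_of_pos hρ]
    linarith
  have hScont : Continuous (fun y : ℝ => S (circleMap 0 (1 - h) y)) := by
    rw [← continuousOn_univ]
    apply hSd.continuousOn.comp (continuous_circleMap 0 (1 - h)).continuousOn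
    intro y _
    rw [mem_ball_zero_iff]
    exact hcm y
  have hHcont : Continuous (fun y : ℝ => H (circleMap 0 (1 - h) y)) := by
    rw [← continuousOn_univ]
    apply hHd.continuousOn.comp (continuous_circleMap 0 (1 - h)).continuousOn
    intro y _
    rw [mem_ball_zero_iff]
    exact hcm y
  have hInt : ∫ y in (0:ℝ)..(2 * Real.pi), (S (circleMap 0 (1 - h) y)).re =
      2 * Real.pi * Real.sqrt s.card := by
    have e1 : ∫ y in (0:ℝ)..(2 * Real.pi), S (circleMap 0 (1 - h) y) =
        ((2 * Real.pi : ℝ) : ℂ) * S 0 := by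
      rw [← hmean]
      unfold Real.circleAverage
      rw [Complex.real_smul]
      have : (Real.pi : ℂ) ≠ 0 := by exact_mod_cast Real.pi_ne_zero
      push_cast
      field_simp
    have e2 := congrArg Complex.re e1
    have e3 : (∫ y in (0:ℝ)..(2 * Real.pi), S (circleMap 0 (1 - h) y)).re =
        ∫ y in (0:ℝ)..(2 * Real.pi), (S (circleMap 0 (1 - h) y)).re := by
      have := intervalIntegral.intervalIntegral_re (𝕜 := ℂ) (μ := volume) (a := 0)
        (b := 2 * Real.pi) (f := fun y : ℝ => S (circleMap 0 (1 - h) y))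
        (hScont.intervalIntegrable _ _)
      exact this.symm
    rw [e3] at e2
    rw [e2]
    simp only [hS]
    rw [hH0]
    have e4 : ((s.card : ℕ) : ℂ) = ((s.card : ℝ) : ℂ) := by push_cast; rfl
    rw [e4, Complex.re_ofReal_mul, Complex.re_sqrt_ofReal]
  have hptw : ∀ y : ℝ, Real.sqrt (‖H (circleMap 0 (1 - h) y)‖ / 2) ≤
      (S (circleMap 0 (1 - h) y)).re := by
    intro y
    simp only [hS, Complex.sqrt]
    rw [Complex.cpow_inv_two_re]
    apply Real.sqrt_le_sqrt
    have := hre _ (hcm y)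
    linarith
  have hpi : (0:ℝ) ≤ 2 * Real.pi := by positivity
  have hI2 : ∫ y in Set.Ioc (0:ℝ) (2 * Real.pi),
      Real.sqrt (‖H (circleMap 0 (1 - h) y)‖ / 2) ≤ 2 * Real.pi * Real.sqrt s.card := by
    rw [← hInt, ← intervalIntegral.integral_of_le hpi]
    apply intervalIntegral.integral_mono_on hpi
    · apply Continuous.intervalIntegrable
      exact Real.continuous_sqrt.comp (hHcont.norm.div_const 2)
    · apply Continuous.intervalIntegrable
      exact Complex.continuous_re.comp hScont
    · intro y _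
      exact hptw y
  have hmark := mul_meas_ge_le_integral_of_nonneg
    (μ := volume.restrict (Set.Ioc (0:ℝ) (2 * Real.pi)))
    (f := fun y => Real.sqrt (‖H (circleMap 0 (1 - h) y)‖ / 2))
    (Filter.Eventually.of_forall (fun y => Real.sqrt_nonneg _))
    (by
      rw [← IntegrableOn]
      have : IntegrableOn (fun y => Real.sqrt (‖H (circleMap 0 (1 - h) y)‖ / 2))
          (Set.Icc (0:ℝ) (2 * Real.pi)) :=
        (Real.continuous_sqrt.comp (hHcont.norm.div_const 2)).continuousOn.integrableOn_Icc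
      exact this.mono_set Set.Ioc_subset_Icc_self)
    (Real.sqrt (L / (2 * h)))
  have hset : {y : ℝ | L ≤ h * ‖∑ i ∈ s, tt (w i) (((1 - h : ℝ) : ℂ) *
        Complex.exp (Complex.I * y))‖} ⊆
      {y | Real.sqrt (L / (2 * h)) ≤ Real.sqrt (‖H (circleMap 0 (1 - h) y)‖ / 2)} := by
    intro y hy
    simp only [Set.mem_ofPred_eq] at hy ⊢
    apply Real.sqrt_le_sqrt
    rw [circleMap_eq]
    rw [div_le_div_iff₀ (by positivity) (by norm_num)]
    simp only [hH]
    nlinarith
  have hle : (volume.restrict (Set.Ioc 0 (2 * Real.pi))).real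
      {y : ℝ | L ≤ h * ‖∑ i ∈ s, tt (w i) (((1 - h : ℝ) : ℂ) *
        Complex.exp (Complex.I * y))‖} ≤
      (volume.restrict (Set.Ioc 0 (2 * Real.pi))).real
      {y | Real.sqrt (L / (2 * h)) ≤ Real.sqrt (‖H (circleMap 0 (1 - h) y)‖ / 2)} := by
    exact measureReal_mono hset
  refine hle.trans ?_
  have hsq : 0 < Real.sqrt (L / (2 * h)) := Real.sqrt_pos.2 (by positivity)
  have h5 := hmark.trans hI2
  rw [mul_comm, ← le_div_iff₀ hsq] at h5
  refine h5.trans ?_
  -- numerical estimate
  have h6 : Real.sqrt s.card ≤ 1 / Real.sqrt h := by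
    rw [le_div_iff₀ (Real.sqrt_pos.2 h0), ← Real.sqrt_mul (by positivity)]
    rw [Real.sqrt_le_left (by norm_num)]
    linarith
  have h7 : Real.sqrt (L / (2 * h)) = Real.sqrt L / (Real.sqrt 2 * Real.sqrt h) := by
    rw [Real.sqrt_div hL.le, Real.sqrt_mul (by norm_num)]
  rw [h7]
  have hs2 : Real.sqrt 2 ≤ 1.4143 := by
    rw [Real.sqrt_le_left (by norm_num)]
    norm_num
  have hsh := Real.sqrt_pos.2 h0
  have hsL := Real.sqrt_pos.2 hL
  have hs20 : 0 < Real.sqrt 2 := Real.sqrt_pos.2 (by norm_num)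
  rw [div_div_eq_mul_div]
  apply div_le_div_of_nonneg_right _ hsL.le
  have hpi3 : Real.pi < 3.15 := Real.pi_lt_d2
  have hpos := Real.pi_pos
  calc 2 * Real.pi * Real.sqrt s.card * (Real.sqrt 2 * Real.sqrt h)
      ≤ 2 * Real.pi * (1 / Real.sqrt h) * (Real.sqrt 2 * Real.sqrt h) := by
        apply mul_le_mul_of_nonneg_right _ (by positivity)
        apply mul_le_mul_of_nonneg_left h6 (by positivity)
    _ = 2 * Real.pi * Real.sqrt 2 := by field_simp
    _ ≤ 10 := by nlinarith

end FC78
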