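import Mathlib

/-!
Sup bound for the one dimensional wave equation on a backward triangle, by characteristics.
-/

namespace FC78

open Set

/-- The backward triangle over `[-t₀, t₀]`. -/
def tri (t₀ : ℝ) : Set (ℝ × ℝ) := {p | 0 ≤ p.1 ∧ p.1 ≤ t₀ ∧ |p.2| ≤ t₀ - p.1}

theorem isCompact_tri (t₀ : ℝ) : IsCompact (tri t₀) := by
  have hclosed : IsClosed (tri t₀) := by
    apply IsClosed.inter (isClosed_le continuous_const continuous_fst)
    apply IsClosed.inter (isClosed_le continuous_fst continuous_const)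
    exact isClosed_le (continuous_abs.comp continuous_snd) (continuous_const.sub continuous_fst)
  refine IsCompact.of_isClosed_subset (isCompact_Icc.prod isCompact_Icc :
    IsCompact (Icc (0:ℝ) t₀ ×ˢ Icc (-t₀) t₀)) hclosed ?_
  rintro ⟨s, e⟩ ⟨h1, h2, h3⟩
  simp only at h1 h2 h3
  have := abs_le.1 h3
  exact ⟨⟨h1, h2⟩, ⟨by simp only; linarith only [h1, this], by simp only; linarith only [h1, this]⟩⟩

/-- Characteristic sup bound. -/
theorem wave_bound {W P N k : ℝ → ℝ → ℂ} {Λ Q t₀ B : ℝ} (hΛ : 0 < Λ) (hQ : 1 ≤ Q)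
    (ht : 0 ≤ t₀) (hB : 0 ≤ B)
    (hWc : ContinuousOn (fun p : ℝ × ℝ => W p.1 p.2) (tri t₀))
    (hPc : ContinuousOn (fun p : ℝ × ℝ => P p.1 p.2) (tri t₀))
    (hNc : ContinuousOn (fun p : ℝ × ℝ => N p.1 p.2) (tri t₀))
    (hk : ∀ s e, (s, e) ∈ tri t₀ → ‖k s e‖ ≤ Λ ^ 2 * Q)
    (dW : ∀ s e, (s, e) ∈ tri t₀ → HasDerivAt (fun u => W u e) ((P s e + N s e) / 2) s)
    (dP : ∀ s e, (s, e) ∈ tri t₀ → HasDerivAt (fun u => P u (e + s - u)) (k s e * W s e) s)
    (dN : ∀ s e, (s, e) ∈ tri t₀ → HasDerivAt (fun u => N u (e - s + u)) (k s e * W s e) s)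
    (iW : ∀ e, |e| ≤ t₀ → ‖W 0 e‖ ≤ B)
    (iP : ∀ e, |e| ≤ t₀ → ‖P 0 e‖ ≤ Λ * B)
    (iN : ∀ e, |e| ≤ t₀ → ‖N 0 e‖ ≤ Λ * B) :
    ∀ s e, (s, e) ∈ tri t₀ → ‖W s e‖ ≤ 2 * B * Real.exp (2 * Q * Λ * s) ∧
      ‖P s e‖ ≤ 2 * Λ * B * Real.exp (2 * Q * Λ * s) ∧
      ‖N s e‖ ≤ 2 * Λ * B * Real.exp (2 * Q * Λ * s) := by
  set β : ℝ := 2 * Q * Λ with hβ
  have hβpos : 0 < β := by positivity
  set G : ℝ × ℝ → ℝ := fun p =>
    Real.exp (-β * p.1) * max ‖P p.1 p.2‖ (max ‖N p.1 p.2‖ (Λ * ‖W p.1 p.2‖)) with hG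
  have hGc : ContinuousOn G (tri t₀) := by
    apply ContinuousOn.mul
    · exact (Real.continuous_exp.comp (continuous_const.mul continuous_fst)).continuousOn
    · exact hPc.norm.sup (hNc.norm.sup (continuousOn_const.mul hWc.norm))
  have hne : (tri t₀).Nonempty := ⟨(0, 0), by simp [tri, ht]⟩
  obtain ⟨⟨x, y⟩, hxy, hmax⟩ := (isCompact_tri t₀).exists_isMaxOn hne hGc
  set V : ℝ := G (x, y) with hV
  have hVub : ∀ s e, (s, e) ∈ tri t₀ →
      max ‖P s e‖ (max ‖N s e‖ (Λ * ‖W s e‖)) ≤ V * Real.exp (β * s) := by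
    intro s e hse
    have h1 : G (s, e) ≤ V := hmax hse
    have h2 : G (s, e) * Real.exp (β * s) =
        max ‖P s e‖ (max ‖N s e‖ (Λ * ‖W s e‖)) := by
      simp only [hG]
      rw [mul_comm, ← mul_assoc, ← Real.exp_add]
      simp
    rw [← h2]
    exact mul_le_mul_of_nonneg_right h1 (Real.exp_pos _).le
  have hPub : ∀ s e, (s, e) ∈ tri t₀ → ‖P s e‖ ≤ V * Real.exp (β * s) := fun s e h =>
    (le_max_left _ _).trans (hVub s e h)
  have hNub : ∀ s e, (s, e) ∈ tri t₀ → ‖N s e‖ ≤ V * Real.exp (β * s) := fun s e h =>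
    ((le_max_left _ _).trans (le_max_right _ _)).trans (hVub s e h)
  have hWub : ∀ s e, (s, e) ∈ tri t₀ → Λ * ‖W s e‖ ≤ V * Real.exp (β * s) := fun s e h =>
    ((le_max_right _ _).trans (le_max_right _ _)).trans (hVub s e h)
  have hV0 : 0 ≤ V := by
    simp only [hV, hG]
    apply mul_nonneg (Real.exp_pos _).le
    exact (norm_nonneg _).trans (le_max_left _ _)
  obtain ⟨hx0, hxt, hyt⟩ := hxy
  simp only at hx0 hxt hyt
  have hyt' := abs_le.1 hyt
  -- the bound along a curve
  have key : ∀ (f f' : ℝ → ℂ) (c : ℝ), 0 ≤ c → c ≤ 1 / 2 →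
      (∀ u ∈ Icc 0 x, HasDerivAt f (f' u) u) → (∀ D : ℝ, ‖f 0‖ ≤ D →
      (∀ u ∈ Icc 0 x, ‖f' u‖ ≤ c * β * V * Real.exp (β * u)) →
      ‖f x‖ ≤ D + c * V * Real.exp (β * x)) := by
    intro f f' c hc0 _ hd D hD hbd
    have := image_norm_le_of_norm_deriv_right_le_deriv_boundary (a := 0) (b := x)
      (f := f) (f' := f') (B := fun u => D + c * V * Real.exp (β * u))
      (B' := fun u => c * β * V * Real.exp (β * u))
      (fun u hu => (hd u hu).continuousAt.continuousWithinAt)
      (fun u hu => (hd u (Ico_subset_Icc_self hu)).hasDerivWithinAt)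
      (by
        have : 0 ≤ c * V * Real.exp (β * 0) := by positivity
        show ‖f 0‖ ≤ D + c * V * Real.exp (β * 0)
        linarith only [hD, this])
      (by
        intro u
        have h1 : HasDerivAt (fun u : ℝ => Real.exp (β * u)) (Real.exp (β * u) * (β * 1)) u :=
          ((hasDerivAt_id u).const_mul β).exp
        have h2 := (h1.const_mul (c * V)).const_add D
        have h3 : c * β * V * Real.exp (β * u) = c * V * (Real.exp (β * u) * (β * 1)) := by ring
        show HasDerivAt _ (c * β * V * Real.exp (β * u)) u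
        rw [h3]
        exact h2)
      (fun u hu => hbd u (Ico_subset_Icc_self hu))
      (right_mem_Icc.2 hx0)
    simpa using this
  -- P
  have hP : ‖P x y‖ ≤ Λ * B + 1 / 2 * V * Real.exp (β * x) := by
    have hmem : ∀ u ∈ Icc 0 x, (u, y + x - u) ∈ tri t₀ := by
      intro u hu
      refine ⟨hu.1, hu.2.trans hxt, abs_le.2 ⟨?_, ?_⟩⟩ <;> simp only <;>
        [skip; skip] <;> have := hu.1 <;> have := hu.2 <;> linarith only [hyt', this]
    have h := key (fun u => P u (y + x - u)) (fun u => k u (y + x - u) * W u (y + x - u))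
      (1 / 2) (by norm_num) le_rfl
      (by
        intro u hu
        have h1 := dP u (y + x - u) (hmem u hu)
        have h2 : (fun v => P v (y + x - u + u - v)) = fun v => P v (y + x - v) := by
          funext v
          congr 1
          ring
        rwa [h2] at h1)
      (Λ * B)
      (by
        have : |y + x - 0| ≤ t₀ := by
          rw [abs_le]; constructor <;> linarith only [hx0, hyt']
        exact iP _ this)
      (by
        intro u hu
        rw [norm_mul]
        have h1 := hk u _ (hmem u hu)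
        have h2 := hWub u _ (hmem u hu)
        calc ‖k u (y + x - u)‖ * ‖W u (y + x - u)‖ ≤ (Λ ^ 2 * Q) * ‖W u (y + x - u)‖ :=
              mul_le_mul_of_nonneg_right h1 (norm_nonneg _)
          _ = (Λ * Q) * (Λ * ‖W u (y + x - u)‖) := by ring
          _ ≤ (Λ * Q) * (V * Real.exp (β * u)) := by
              apply mul_le_mul_of_nonneg_left h2; positivity
          _ = 1 / 2 * β * V * Real.exp (β * u) := by rw [hβ]; ring)
    simpa using h
  have hN : ‖N x y‖ ≤ Λ * B + 1 / 2 * V * Real.exp (β * x) := by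
    have hmem : ∀ u ∈ Icc 0 x, (u, y - x + u) ∈ tri t₀ := by
      intro u hu
      refine ⟨hu.1, hu.2.trans hxt, abs_le.2 ⟨?_, ?_⟩⟩ <;> simp only <;>
        [skip; skip] <;> have := hu.1 <;> have := hu.2 <;> linarith only [hyt', this]
    have h := key (fun u => N u (y - x + u)) (fun u => k u (y - x + u) * W u (y - x + u))
      (1 / 2) (by norm_num) le_rfl
      (by
        intro u hu
        have h1 := dN u (y - x + u) (hmem u hu)
        have h2 : (fun v => N v (y - x + u - u + v)) = fun v => N v (y - x + v) := by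
          funext v
          congr 1
          ring
        rwa [h2] at h1)
      (Λ * B)
      (by
        have : |y - x + 0| ≤ t₀ := by
          rw [abs_le]; constructor <;> linarith only [hyt', hx0]
        exact iN _ this)
      (by
        intro u hu
        rw [norm_mul]
        have h1 := hk u _ (hmem u hu)
        have h2 := hWub u _ (hmem u hu)
        calc ‖k u (y - x + u)‖ * ‖W u (y - x + u)‖ ≤ (Λ ^ 2 * Q) * ‖W u (y - x + u)‖ :=
              mul_le_mul_of_nonneg_right h1 (norm_nonneg _)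
          _ = (Λ * Q) * (Λ * ‖W u (y - x + u)‖) := by ring
          _ ≤ (Λ * Q) * (V * Real.exp (β * u)) := by
              apply mul_le_mul_of_nonneg_left h2; positivity
          _ = 1 / 2 * β * V * Real.exp (β * u) := by rw [hβ]; ring)
    simpa using h
  have hW : Λ * ‖W x y‖ ≤ Λ * B + 1 / 2 * V * Real.exp (β * x) := by
    have hmem : ∀ u ∈ Icc 0 x, (u, y) ∈ tri t₀ := by
      intro u hu
      refine ⟨hu.1, hu.2.trans hxt, abs_le.2 ⟨?_, ?_⟩⟩ <;> simp only <;>
        [skip; skip] <;> have := hu.1 <;> have := hu.2 <;> linarith only [hyt', this]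
    have hc : 1 / β ≤ 1 / (2 * Λ) := by
      apply one_div_le_one_div_of_le (by positivity)
      rw [hβ]
      nlinarith only [hΛ, hQ]
    have h := key (fun u => (Λ : ℂ) * W u y) (fun u => (Λ : ℂ) * ((P u y + N u y) / 2))
      (Λ / β) (by positivity) (by
        rw [div_le_iff₀ hβpos, hβ]
        nlinarith only [hΛ, hQ])
      (fun u hu => (dW u y (hmem u hu)).const_mul _)
      (Λ * B)
      (by
        rw [norm_mul, Complex.norm_real, Real.norm_eq_abs, abs_of_pos hΛ]
        apply mul_le_mul_of_nonneg_left _ hΛ.le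
        apply iW
        rw [abs_le]; constructor <;> linarith only [hx0, hyt'])
      (by
        intro u hu
        rw [norm_mul, Complex.norm_real, Real.norm_eq_abs, abs_of_pos hΛ, norm_div]
        have h1 := hPub u _ (hmem u hu)
        have h2 := hNub u _ (hmem u hu)
        have h3 : ‖P u y + N u y‖ ≤ 2 * (V * Real.exp (β * u)) :=
          (norm_add_le _ _).trans (by linarith only [h1, h2])
        have h4 : ‖(2:ℂ)‖ = 2 := by norm_num
        rw [h4]
        have h5 : Λ / β * β * V * Real.exp (β * u) = Λ * (V * Real.exp (β * u)) := by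
          field_simp
        rw [h5]
        apply mul_le_mul_of_nonneg_left _ hΛ.le
        linarith only [h3])
    rw [norm_mul, Complex.norm_real, Real.norm_eq_abs, abs_of_pos hΛ] at h
    refine h.trans ?_
    have h6 : Λ / β ≤ 1 / 2 := by
      rw [div_le_iff₀ hβpos, hβ]
      nlinarith only [hΛ, hQ]
    have h7 : 0 ≤ V * Real.exp (β * x) := by positivity
    nlinarith only [h6, h7]
  have hVle : V ≤ 2 * (Λ * B) := by
    have h1 : V = Real.exp (-β * x) * max ‖P x y‖ (max ‖N x y‖ (Λ * ‖W x y‖)) := rfl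
    have h2 : max ‖P x y‖ (max ‖N x y‖ (Λ * ‖W x y‖)) ≤
        Λ * B + 1 / 2 * V * Real.exp (β * x) := max_le hP (max_le hN hW)
    have h3 : V ≤ Real.exp (-β * x) * (Λ * B + 1 / 2 * V * Real.exp (β * x)) := by
      rw [h1] at *
      exact mul_le_mul_of_nonneg_left h2 (Real.exp_pos _).le
    have h4 : Real.exp (-β * x) * Real.exp (β * x) = 1 := by
      rw [← Real.exp_add]; simp
    have h5 : Real.exp (-β * x) ≤ 1 := by
      rw [Real.exp_le_one_iff]
      nlinarith only [hβpos, hx0]
    have h6 : Real.exp (-β * x) * (Λ * B + 1 / 2 * V * Real.exp (β * x)) =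
        Real.exp (-β * x) * (Λ * B) + 1 / 2 * V := by
      calc _ = Real.exp (-β * x) * (Λ * B) +
            1 / 2 * V * (Real.exp (-β * x) * Real.exp (β * x)) := by ring
        _ = _ := by rw [h4]; ring
    have h7 : 0 ≤ Λ * B := by positivity
    nlinarith only [h3, h5, h6, h7]
  intro s e hse
  have hE : 0 < Real.exp (β * s) := Real.exp_pos _
  have hfin : V * Real.exp (β * s) ≤ 2 * (Λ * B) * Real.exp (β * s) :=
    mul_le_mul_of_nonneg_right hVle hE.le
  refine ⟨?_, ?_, ?_⟩
  · have h1 := (hWub s e hse).trans hfin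
    have h2 : Λ * ‖W s e‖ ≤ Λ * (2 * B * Real.exp (β * s)) := by linarith only [h1]
    exact le_of_mul_le_mul_left h2 hΛ
  · have h1 := (hPub s e hse).trans hfin
    linarith only [h1]
  · have h1 := (hNub s e hse).trans hfin
    linarith only [h1]

end FC78
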