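import Pool.Agent.W_MP_fc1c69_an.TrigPoly
import Pool.Agent.W_MP_fc1c69_an.Wave

/-!
From data on one line to a two dimensional doubling bound.
-/

namespace FC78

open Finset

theorem hasDerivAt_trig_curve (D : ℕ) (a : ℤ → ℝ → ℂ) (a' : ℤ → ℂ) (γ : ℝ → ℂ) (γ' : ℂ) (s : ℝ)
    (ha : ∀ m, HasDerivAt (a m) (a' m) s) (hγ : HasDerivAt γ γ' s) :
    HasDerivAt (fun u => trig D (fun m => a m u) (γ u))
      (trig D (fun m => a' m + a m s * (Complex.I * m * γ')) (γ s)) s := by
  unfold trig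
  apply HasDerivAt.fun_sum
  intro m _
  have h1 : HasDerivAt (fun u => Complex.exp (Complex.I * (m:ℂ) * γ u))
      (Complex.exp (Complex.I * (m:ℂ) * γ s) * (Complex.I * (m:ℂ) * γ')) s :=
    (hγ.const_mul (Complex.I * (m:ℂ))).cexp
  exact ((ha m).fun_mul h1).congr_deriv (by ring)

theorem hasDerivAt_trig (D : ℕ) (c : ℤ → ℂ) (ζ : ℂ) :
    HasDerivAt (trig D c) (trig D (fun m => Complex.I * m * c m) ζ) ζ := by
  unfold trig
  have : HasDerivAt (fun ζ : ℂ => ∑ m ∈ Finset.Icc (-(D:ℤ)) D,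
      c m * Complex.exp (Complex.I * (m:ℂ) * ζ))
      (∑ m ∈ Finset.Icc (-(D:ℤ)) D, (Complex.I * m * c m) *
        Complex.exp (Complex.I * (m:ℂ) * ζ)) ζ := by
    apply HasDerivAt.fun_sum
    intro m _
    have h1 : HasDerivAt (fun ζ : ℂ => Complex.exp (Complex.I * (m:ℂ) * ζ))
        (Complex.exp (Complex.I * (m:ℂ) * ζ) * (Complex.I * (m:ℂ) * 1)) ζ :=
      ((hasDerivAt_id ζ).const_mul (Complex.I * (m:ℂ))).cexp
    exact (h1.const_mul (c m)).congr_deriv (by ring)
  exact this

theorem differentiable_trig (D : ℕ) (c : ℤ → ℂ) : Differentiable ℂ (trig D c) :=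
  fun ζ => (hasDerivAt_trig D c ζ).differentiableAt

theorem deriv_trig (D : ℕ) (c : ℤ → ℂ) :
    deriv (trig D c) = trig D (fun m => Complex.I * m * c m) :=
  funext fun ζ => (hasDerivAt_trig D c ζ).deriv

theorem cauchy_trig (D : ℕ) (c : ℤ → ℂ) {ζ : ℂ} {r M : ℝ} (hr : 0 < r)
    (hM : ∀ z : ℂ, ‖z - ζ‖ ≤ r → ‖trig D c z‖ ≤ M) :
    ‖trig D (fun m => Complex.I * m * c m) ζ‖ ≤ M / r := by
  rw [← deriv_trig]
  apply Complex.norm_deriv_le_of_forall_mem_sphere_norm_le hr
    (differentiable_trig D c).diffContOnCl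
  intro z hz
  apply hM
  rw [mem_sphere_iff_norm] at hz
  exact hz.le

theorem trig_add (D : ℕ) (c d : ℤ → ℂ) (ζ : ℂ) :
    trig D (fun m => c m + d m) ζ = trig D c ζ + trig D d ζ := by
  unfold trig
  rw [← Finset.sum_add_distrib]
  apply Finset.sum_congr rfl
  intro m _
  ring

theorem trig_smul (D : ℕ) (a : ℂ) (c : ℤ → ℂ) (ζ : ℂ) :
    trig D (fun m => a * c m) ζ = a * trig D c ζ := by
  unfold trig
  rw [Finset.mul_sum]
  apply Finset.sum_congr rfl
  intro m _
  ring

/-- The modewise equation: `f'' = (m^2 - k) f`. -/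
structure Modes (k : ℝ → ℝ) (f g : ℤ → ℝ → ℂ) : Prop where
  hf : ∀ m x, HasDerivAt (f m) (g m x) x
  hg : ∀ m x, HasDerivAt (g m) (((m:ℂ) ^ 2 - (k x : ℂ)) * f m x) x

theorem Modes.cont_f {k : ℝ → ℝ} {f g : ℤ → ℝ → ℂ} (h : Modes k f g) (m : ℤ) :
    Continuous (f m) := continuous_iff_continuousAt.2 fun x => (h.hf m x).continuousAt

theorem Modes.cont_g {k : ℝ → ℝ} {f g : ℤ → ℝ → ℂ} (h : Modes k f g) (m : ℤ) :
    Continuous (g m) := continuous_iff_continuousAt.2 fun x => (h.hg m x).continuousAt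

/-- reflected modes -/
theorem Modes.reflect {k : ℝ → ℝ} {f g : ℤ → ℝ → ℂ} (h : Modes k f g) :
    Modes (fun x => k (-x)) (fun m x => f m (-x)) (fun m x => -g m (-x)) := by
  constructor
  · intro m x
    have h1 := (h.hf m (-x)).scomp x (hasDerivAt_neg x)
    exact h1.congr_deriv (by simp)
  · intro m x
    have h1 := ((h.hg m (-x)).scomp x (hasDerivAt_neg x)).fun_neg
    exact h1.congr_deriv (by simp)

theorem continuous_trig2 (D : ℕ) (a : ℤ → ℝ → ℂ) (ha : ∀ m, Continuous (a m)) (x0 y : ℝ) :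
    Continuous (fun p : ℝ × ℝ => trig D (fun m => a m (x0 + p.1)) (y + Complex.I * p.2)) := by
  unfold trig
  apply continuous_finsetSum
  intro m _
  apply Continuous.mul
  · exact (ha m).comp (continuous_const.add continuous_fst)
  · fun_prop

/-- Forward propagation in complexified form. -/
theorem wave_step {k : ℝ → ℝ} {f g : ℤ → ℝ → ℂ} (hm : Modes k f g) (D : ℕ) {Λ Q h ρ M x0 u : ℝ}
    (hΛ : 0 < Λ) (hQ : 1 ≤ Q) (hk : ∀ x, |k x| ≤ Λ ^ 2 * Q) (h0 : 0 < h) (hρ : 0 ≤ ρ)
    (hM : 0 ≤ M)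
    (hΦ : ∀ ζ : ℂ, ‖ζ - u‖ ≤ (2 * ρ + 1) * h → ‖trig D (fun m => f m x0) ζ‖ ≤ M)
    (hΨ : ∀ ζ : ℂ, ‖ζ - u‖ ≤ (2 * ρ + 1) * h → ‖trig D (fun m => g m x0) ζ‖ ≤ Λ * M) :
    ∀ s : ℝ, 0 ≤ s → ∀ ζ : ℂ, |ζ.re - u| ≤ ρ * h → |ζ.im| + s ≤ ρ * h →
      ‖trig D (fun m => f m (x0 + s)) ζ‖ ≤
        2 * (1 + 1 / (Λ * h)) * Real.exp (2 * Q * (ρ * (Λ * h))) * M ∧
      ‖trig D (fun m => g m (x0 + s)) ζ‖ ≤
        2 * Λ * (1 + 1 / (Λ * h)) * Real.exp (2 * Q * (ρ * (Λ * h))) * M := by
  intro s hs ζ hζre hζim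
  set y := ζ.re with hy
  set B := (1 + 1 / (Λ * h)) * M with hB
  have hB0 : 0 ≤ B := by positivity
  set t₀ := ρ * h with ht0
  have ht0' : 0 ≤ t₀ := by positivity
  set W : ℝ → ℝ → ℂ := fun s e => trig D (fun m => f m (x0 + s)) (y + Complex.I * e) with hW
  set P : ℝ → ℝ → ℂ := fun s e =>
    trig D (fun m => g m (x0 + s) - m * f m (x0 + s)) (y + Complex.I * e) with hP
  set N : ℝ → ℝ → ℂ := fun s e =>
    trig D (fun m => g m (x0 + s) + m * f m (x0 + s)) (y + Complex.I * e) with hN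
  have hfs : ∀ m s, HasDerivAt (fun u => f m (x0 + u)) (g m (x0 + s)) s := fun m s =>
    (hm.hf m (x0 + s)).comp_const_add x0 s
  have hgs : ∀ m s, HasDerivAt (fun u => g m (x0 + u))
      (((m:ℂ) ^ 2 - (k (x0 + s) : ℂ)) * f m (x0 + s)) s := fun m s =>
    (hm.hg m (x0 + s)).comp_const_add x0 s
  have hzero : ∀ e : ℝ, |e| ≤ t₀ → ‖((y:ℂ) + Complex.I * e) - u‖ ≤ 2 * ρ * h := by
    intro e he
    have e1 : ((y:ℂ) + Complex.I * e) - u = ((y - u : ℝ) : ℂ) + Complex.I * e := by
      push_cast; ring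
    rw [e1]
    refine (norm_add_le _ _).trans ?_
    rw [Complex.norm_real, norm_mul, Complex.norm_I, Complex.norm_real, one_mul,
      Real.norm_eq_abs, Real.norm_eq_abs]
    linarith
  have hW0 : ∀ e : ℝ, |e| ≤ t₀ → ‖trig D (fun m => f m x0) (y + Complex.I * e)‖ ≤ M := by
    intro e he
    apply hΦ
    have := hzero e he
    nlinarith
  have hΨ0 : ∀ e : ℝ, |e| ≤ t₀ → ‖trig D (fun m => g m x0) (y + Complex.I * e)‖ ≤ Λ * M := by
    intro e he
    apply hΨ
    have := hzero e he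
    nlinarith
  have hζ0 : ∀ e : ℝ, |e| ≤ t₀ →
      ‖trig D (fun m => Complex.I * m * f m x0) (y + Complex.I * e)‖ ≤ M / h := by
    intro e he
    apply cauchy_trig D (fun m => f m x0) h0
    intro z hz
    apply hΦ
    have e1 : z - u = (z - (y + Complex.I * e)) + (((y:ℂ) + Complex.I * e) - u) := by ring
    rw [e1]
    refine (norm_add_le _ _).trans ?_
    have := hzero e he
    nlinarith
  have hPN0 : ∀ (σ : ℂ), ‖σ‖ = 1 → ∀ e : ℝ, |e| ≤ t₀ →
      ‖trig D (fun m => g m x0 + σ * (Complex.I * m * f m x0)) (y + Complex.I * e)‖ ≤ Λ * B := by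
    intro σ hσ e he
    rw [trig_add, trig_smul]
    refine (norm_add_le _ _).trans ?_
    rw [norm_mul, hσ, one_mul]
    have e1 := hΨ0 e he
    have e2 := hζ0 e he
    have e3 : Λ * B = Λ * M + M / h := by
      rw [hB]
      field_simp
    rw [e3]
    exact add_le_add e1 e2
  have main := wave_bound (W := W) (P := P) (N := N) (k := fun s _ => -(k (x0 + s) : ℂ))
    (Λ := Λ) (Q := Q) (t₀ := t₀) (B := B) hΛ hQ ht0' hB0
    (continuous_trig2 D f hm.cont_f x0 y).continuousOn
    (by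
      have := continuous_trig2 D (fun m x => g m x - m * f m x)
        (fun m => (hm.cont_g m).sub (continuous_const.mul (hm.cont_f m))) x0 y
      exact this.continuousOn)
    (by
      have := continuous_trig2 D (fun m x => g m x + m * f m x)
        (fun m => (hm.cont_g m).add (continuous_const.mul (hm.cont_f m))) x0 y
      exact this.continuousOn)
    (by
      intro s e _
      rw [norm_neg, Complex.norm_real, Real.norm_eq_abs]
      exact hk _)
    (by
      intro s e _
      have h1 := hasDerivAt_trig_curve D (fun m u => f m (x0 + u)) (fun m => g m (x0 + s))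
        (fun _ => (y:ℂ) + Complex.I * e) 0 s (fun m => hfs m s) (hasDerivAt_const _ _)
      convert h1 using 1
      simp only [hP, hN]
      rw [← trig_add, div_eq_inv_mul, ← trig_smul]
      congr 1
      funext m
      ring)
    (by
      intro s e _
      have hγ : HasDerivAt (fun u : ℝ => (y:ℂ) + Complex.I * ((e + s - u : ℝ) : ℂ))
          (-Complex.I) s := by
        have e1 : HasDerivAt (fun u : ℝ => ((e + s - u : ℝ) : ℂ)) (((-1 : ℝ)) : ℂ) s :=
          ((hasDerivAt_id s).const_sub (e + s)).ofReal_comp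
        have e2 := (e1.const_mul Complex.I).const_add (y:ℂ)
        exact e2.congr_deriv (by push_cast; ring)
      have h1 := hasDerivAt_trig_curve D (fun m u => g m (x0 + u) - m * f m (x0 + u))
        (fun m => ((m:ℂ) ^ 2 - (k (x0 + s) : ℂ)) * f m (x0 + s) - m * g m (x0 + s))
        _ _ s (fun m => (hgs m s).sub ((hfs m s).const_mul _)) hγ
      convert h1 using 1
      simp only [hW]
      rw [← trig_smul]
      congr 1
      · funext m
        linear_combination (((m:ℂ)) * (g m (x0 + s) - m * f m (x0 + s))) * Complex.I_sq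
      · have : e + s - s = e := by ring
        rw [this])
    (by
      intro s e _
      have hγ : HasDerivAt (fun u : ℝ => (y:ℂ) + Complex.I * ((e - s + u : ℝ) : ℂ))
          (Complex.I) s := by
        have e1 : HasDerivAt (fun u : ℝ => ((e - s + u : ℝ) : ℂ)) (((1 : ℝ)) : ℂ) s :=
          ((hasDerivAt_id s).const_add (e - s)).ofReal_comp
        have e2 := (e1.const_mul Complex.I).const_add (y:ℂ)
        exact e2.congr_deriv (by push_cast; ring)
      have h1 := hasDerivAt_trig_curve D (fun m u => g m (x0 + u) + m * f m (x0 + u))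
        (fun m => ((m:ℂ) ^ 2 - (k (x0 + s) : ℂ)) * f m (x0 + s) + m * g m (x0 + s))
        _ _ s (fun m => (hgs m s).add ((hfs m s).const_mul _)) hγ
      convert h1 using 1
      simp only [hW]
      rw [← trig_smul]
      congr 1
      · funext m
        linear_combination (-((m:ℂ)) * (g m (x0 + s) + m * f m (x0 + s))) * Complex.I_sq
      · have : e - s + s = e := by ring
        rw [this])
    (by
      intro e he
      simp only [hW, add_zero]
      refine (hW0 e he).trans ?_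
      rw [hB]
      have : 0 ≤ 1 / (Λ * h) * M := by positivity
      linarith)
    (by
      intro e he
      have := hPN0 Complex.I Complex.norm_I e he
      simp only [hP, add_zero]
      convert this using 3
      funext m
      linear_combination (-(m:ℂ) * f m x0) * Complex.I_sq)
    (by
      intro e he
      have := hPN0 (-Complex.I) (by simp) e he
      simp only [hN, add_zero]
      convert this using 3
      funext m
      linear_combination ((m:ℂ) * f m x0) * Complex.I_sq)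
  have hmem : (s, ζ.im) ∈ tri t₀ := by
    refine ⟨hs, ?_, ?_⟩
    · show s ≤ t₀
      have := abs_nonneg ζ.im
      linarith
    · show |ζ.im| ≤ t₀ - s
      linarith
  obtain ⟨r1, r2, r3⟩ := main s ζ.im hmem
  have hζeq : (y:ℂ) + Complex.I * (ζ.im : ℂ) = ζ := by
    rw [hy, mul_comm]
    exact Complex.re_add_im ζ
  have hsle : s ≤ t₀ := hmem.2.1
  have hexp : Real.exp (2 * Q * Λ * s) ≤ Real.exp (2 * Q * (ρ * (Λ * h))) := by
    apply Real.exp_le_exp.2
    have : 2 * Q * (ρ * (Λ * h)) = 2 * Q * Λ * t₀ := by rw [ht0]; ring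
    rw [this]
    apply mul_le_mul_of_nonneg_left hsle (by positivity)
  constructor
  · simp only [hW, hζeq] at r1
    refine r1.trans ?_
    calc 2 * B * Real.exp (2 * Q * Λ * s) ≤ 2 * B * Real.exp (2 * Q * (ρ * (Λ * h))) :=
          mul_le_mul_of_nonneg_left hexp (by positivity)
      _ = _ := by rw [hB]; ring
  · have e1 : trig D (fun m => g m (x0 + s)) ζ = (P s ζ.im + N s ζ.im) / 2 := by
      simp only [hP, hN, hζeq]
      rw [← trig_add, div_eq_inv_mul, ← trig_smul]
      congr 1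
      funext m
      ring
    rw [e1, norm_div]
    have e2 : ‖(2:ℂ)‖ = 2 := by norm_num
    rw [e2]
    have e3 := norm_add_le (P s ζ.im) (N s ζ.im)
    have e4 : 2 * Λ * B * Real.exp (2 * Q * Λ * s) ≤
        2 * Λ * (1 + 1 / (Λ * h)) * Real.exp (2 * Q * (ρ * (Λ * h))) * M := by
      calc 2 * Λ * B * Real.exp (2 * Q * Λ * s) ≤
          2 * Λ * B * Real.exp (2 * Q * (ρ * (Λ * h))) :=
            mul_le_mul_of_nonneg_left hexp (by positivity)
        _ = _ := by rw [hB]; ring
    linarith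

end FC78
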