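import Pool.Agent.W_MP_fc1c69_an.Herglotz

/-!
Local complex doubling for trigonometric polynomials at most points.
-/

namespace FC78

open Finset MeasureTheory

/-- Trigonometric polynomial of degree at most `D`. -/
noncomputable def trig (D : ℕ) (c : ℤ → ℂ) (ζ : ℂ) : ℂ :=
  ∑ m ∈ Finset.Icc (-(D:ℤ)) D, c m * Complex.exp (Complex.I * (m:ℂ) * ζ)

/-- The associated polynomial. -/
noncomputable def tpoly (D : ℕ) (c : ℤ → ℂ) : Polynomial ℂ :=
  ∑ j ∈ Finset.range (2 * D + 1), Polynomial.C (c ((j:ℤ) - D)) * Polynomial.X ^ j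

theorem trig_eq (D : ℕ) (c : ℤ → ℂ) (ζ : ℂ) :
    trig D c ζ = Complex.exp (-(Complex.I * D * ζ)) *
      (tpoly D c).eval (Complex.exp (Complex.I * ζ)) := by
  unfold trig tpoly
  rw [Polynomial.eval_finsetSum, Finset.mul_sum]
  symm
  apply Finset.sum_bij (fun (j:ℕ) _ => (j:ℤ) - D)
  · intro j hj
    rw [Finset.mem_range] at hj
    rw [Finset.mem_Icc]
    omega
  · intro a _ b _ h
    omega
  · intro m hm
    rw [Finset.mem_Icc] at hm
    refine ⟨(m + D).toNat, ?_, ?_⟩
    · rw [Finset.mem_range]; omega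
    · omega
  · intro j _
    rw [Polynomial.eval_mul, Polynomial.eval_C, Polynomial.eval_pow, Polynomial.eval_X,
      ← Complex.exp_nat_mul, mul_comm (Complex.exp (-(Complex.I * D * ζ))), mul_assoc,
      ← Complex.exp_add]
    congr 2
    push_cast
    ring

theorem tpoly_natDegree (D : ℕ) (c : ℤ → ℂ) : (tpoly D c).natDegree ≤ 2 * D := by
  unfold tpoly
  apply Polynomial.natDegree_sum_le_of_forall_le
  intro j hj
  rw [Finset.mem_range] at hj
  refine (Polynomial.natDegree_C_mul_X_pow_le _ _).trans ?_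
  omega

/-- product representation of a polynomial -/
theorem exists_prod (P : Polynomial ℂ) : ∃ (w : Fin P.roots.toList.length → ℂ),
    ∀ z, ‖P.eval z‖ = ‖P.leadingCoeff‖ * ∏ i, ‖z - w i‖ := by
  refine ⟨fun i => P.roots.toList.get i, ?_⟩
  intro z
  rw [(IsAlgClosed.splits P).eval_eq_prod_roots z, norm_mul]
  congr 1
  have h1 : ∏ i, ‖z - P.roots.toList.get i‖ =
      (List.ofFn (fun i => ‖z - P.roots.toList.get i‖)).prod := (List.prod_ofFn).symm
  rw [h1]
  have h2 : List.ofFn (fun i => ‖z - P.roots.toList.get i‖) =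
      P.roots.toList.map (fun a => ‖z - a‖) := by
    rw [← List.ofFn_get (P.roots.toList)]
    simp
    rfl
  have h3 : (P.roots.map (fun a => z - a)).prod =
      (P.roots.toList.map (fun a => z - a)).prod := by
    rw [← Multiset.prod_coe, ← Multiset.map_coe, Multiset.coe_toList]
  rw [h2, h3, List.norm_prod, List.map_map]
  rfl

theorem norm_exp_sub_one_le' (x : ℂ) : ‖Complex.exp x - 1‖ ≤ ‖x‖ * Real.exp ‖x‖ := by
  have := Complex.norm_exp_sub_sum_le_norm_mul_exp x 1
  simpa using this

/-- The constant of `trig_good`. -/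
noncomputable def KT (L δ R : ℝ) : ℝ := Real.exp (R / 2) * KK L δ (R * Real.exp (R / 2))

/-- At most points a trigonometric polynomial has bounded local complex doubling. -/
theorem trig_good (D : ℕ) (c : ℤ → ℂ) {h L : ℝ} (h0 : 0 < h) (h1 : h ≤ 1 / 2) (hL : 1 ≤ L)
    (hD : 2 * D * h ≤ 1) :
    ∃ Bad : Set ℝ, MeasurableSet Bad ∧ (∀ y, y + 2 * Real.pi ∈ Bad ↔ y ∈ Bad) ∧
      (volume.restrict (Set.Ioc 0 (2 * Real.pi))).real Bad ≤ 10 / Real.sqrt L ∧
      ∀ y, y ∉ Bad → ∀ δ R : ℝ, 0 < δ → δ ≤ 1 → 0 ≤ R →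
        ∃ u ∈ Set.Icc y (y + δ * h), ∀ ζ : ℂ, ‖ζ - u‖ ≤ R * h →
          ‖trig D c ζ‖ ≤ KT L δ R * ‖trig D c u‖ := by
  set P := tpoly D c with hP
  obtain ⟨w, hw⟩ := exists_prod P
  set Bad : Set ℝ := {y : ℝ | L ≤ h * ‖∑ i ∈ (Finset.univ : Finset (Fin P.roots.toList.length)),
    tt (w i) (((1 - h : ℝ) : ℂ) * Complex.exp (Complex.I * y))‖} with hBad
  have hk : (P.roots.toList.length : ℝ) ≤ 2 * D := by
    have e1 : P.roots.toList.length = Multiset.card P.roots := Multiset.length_toList _
    rw [e1]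
    have e2 : Multiset.card P.roots ≤ 2 * D := (Polynomial.card_roots' P).trans
      (tpoly_natDegree D c)
    exact_mod_cast e2
  have hcard : ((Finset.univ : Finset (Fin P.roots.toList.length)).card : ℝ) * h ≤ 1 := by
    rw [Finset.card_univ, Fintype.card_fin]
    nlinarith
  refine ⟨Bad, ?_, ?_, measure_bad _ w h0 h1 (by linarith) hcard, ?_⟩
  · -- measurability
    have hcont : Continuous (fun y : ℝ => ∑ i ∈ (Finset.univ :
        Finset (Fin P.roots.toList.length)),
        tt (w i) (((1 - h : ℝ) : ℂ) * Complex.exp (Complex.I * y))) := by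
      apply continuous_finsetSum
      intro i _
      rw [← continuousOn_univ]
      apply (differentiableOn_tt (w i)).continuousOn.comp
        (f := fun y : ℝ => ((1 - h : ℝ) : ℂ) * Complex.exp (Complex.I * y))
      · fun_prop
      · intro y _
        rw [mem_ball_zero_iff, norm_mul, mul_comm Complex.I, Complex.norm_exp_ofReal_mul_I,
          Complex.norm_real, Real.norm_eq_abs, abs_of_pos (by linarith)]
        linarith
    exact (isClosed_le continuous_const (continuous_const.mul hcont.norm)).measurableSet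
  · intro y
    simp only [hBad, Set.mem_ofPred_eq]
    have : Complex.exp (Complex.I * ((y + 2 * Real.pi : ℝ) : ℂ)) =
        Complex.exp (Complex.I * y) := by
      push_cast
      have e : Complex.I * ((y:ℂ) + 2 * Real.pi) = Complex.I * y + 2 * Real.pi * Complex.I := by
        ring
      rw [e, Complex.exp_add, Complex.exp_two_pi_mul_I, mul_one]
    rw [this]
  · intro y hy δ R hδ hδ1 hR
    have hσ : 0 ≤ R * Real.exp (R / 2) := by positivity
    have hy' : h * ‖∑ i ∈ (Finset.univ : Finset (Fin P.roots.toList.length)),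
        tt (w i) (((1 - h : ℝ) : ℂ) * Complex.exp (Complex.I * y))‖ ≤ L := by
      simp only [hBad, Set.mem_ofPred_eq, not_le] at hy
      exact hy.le
    obtain ⟨u, hu, hgood⟩ := good_point (Finset.univ) w h0 h1 hL hδ hδ1 hσ hcard hy'
    refine ⟨u, hu, ?_⟩
    intro ζ hζ
    have hRh : R * h ≤ R / 2 := by nlinarith
    have hz : ‖Complex.exp (Complex.I * ζ) - Complex.exp (Complex.I * u)‖ ≤
        R * Real.exp (R / 2) * h := by
      have e1 : Complex.exp (Complex.I * ζ) - Complex.exp (Complex.I * u) =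
          Complex.exp (Complex.I * u) * (Complex.exp (Complex.I * (ζ - u)) - 1) := by
        rw [mul_sub (Complex.exp _), ← Complex.exp_add, mul_one]
        congr 2
        ring
      have e2 : ‖Complex.exp (Complex.I * (u:ℂ))‖ = 1 := by
        rw [mul_comm]
        exact Complex.norm_exp_ofReal_mul_I u
      rw [e1, norm_mul, e2, one_mul]
      refine (norm_exp_sub_one_le' _).trans ?_
      have e3 : ‖Complex.I * (ζ - u)‖ = ‖ζ - u‖ := by simp
      rw [e3]
      calc ‖ζ - u‖ * Real.exp ‖ζ - u‖ ≤ (R * h) * Real.exp (R / 2) := by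
            apply mul_le_mul hζ _ (Real.exp_pos _).le (by positivity)
            exact Real.exp_le_exp.2 (hζ.trans hRh)
        _ = _ := by ring
    have h3 := hgood _ hz
    rw [trig_eq, trig_eq, norm_mul, norm_mul, hw, hw]
    have e4 : ‖Complex.exp (-(Complex.I * D * (u:ℂ)))‖ = 1 := by
      rw [Complex.norm_exp]
      simp
    have e5 : ‖Complex.exp (-(Complex.I * D * ζ))‖ ≤ Real.exp (R / 2) := by
      rw [Complex.norm_exp]
      apply Real.exp_le_exp.2
      have e6 : (-(Complex.I * D * ζ)).re = D * ζ.im := by simp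
      rw [e6]
      have e7 : ζ.im ≤ R * h := by
        have e8 : ζ.im = (ζ - u).im := by simp
        rw [e8]
        exact (Complex.abs_im_le_norm _ |> le_trans (le_abs_self _)).trans hζ
      have e9 : (D:ℝ) * h ≤ 1 / 2 := by linarith
      have e10 : (0:ℝ) ≤ D := Nat.cast_nonneg D
      nlinarith
    rw [e4, one_mul]
    have hkk : 0 < KK L δ (R * Real.exp (R / 2)) := KK_pos (by linarith) hδ hσ
    calc _ ≤ Real.exp (R / 2) * (‖P.leadingCoeff‖ *
          (KK L δ (R * Real.exp (R / 2)) * ∏ i, ‖Complex.exp (Complex.I * u) - w i‖)) := by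
          apply mul_le_mul e5 _ (by positivity) (Real.exp_pos _).le
          exact mul_le_mul_of_nonneg_left h3 (norm_nonneg _)
      _ = _ := by unfold KT; ring

end FC78
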