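import Mathlib

/-!
Products of linear factors near good points of the unit circle.
-/

namespace FC78

open Finset

/-- The reflected reciprocal root. -/
noncomputable def rfl' (w : ℂ) : ℂ := if 1 ≤ ‖w‖ then w⁻¹ else (starRingEnd ℂ) w

theorem norm_rfl'_le (w : ℂ) : ‖rfl' w‖ ≤ 1 := by
  unfold rfl'
  split_ifs with h
  · rw [norm_inv]
    exact inv_le_one_of_one_le₀ h
  · rw [RCLike.norm_conj]
    exact (not_le.1 h).le

/-- The Herglotz summand. -/
noncomputable def tt (w z : ℂ) : ℂ := (1 + rfl' w * z) / (1 - rfl' w * z)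

theorem re_one_add_div (a : ℂ) :
    ((1 + a) / (1 - a)).re = (1 - ‖a‖ ^ 2) / ‖1 - a‖ ^ 2 := by
  rw [Complex.div_re, ← Complex.normSq_eq_norm_sq, ← Complex.normSq_eq_norm_sq]
  simp only [Complex.add_re, Complex.one_re, Complex.sub_re, Complex.add_im, Complex.one_im,
    Complex.sub_im, Complex.normSq_apply]
  ring

theorem one_sub_ne {w z : ℂ} (hz : ‖z‖ < 1) : 1 - rfl' w * z ≠ 0 := by
  intro h
  have h1 : rfl' w * z = 1 := (sub_eq_zero.1 h).symm
  have h2 : ‖rfl' w * z‖ = 1 := by rw [h1]; simp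
  rw [norm_mul] at h2
  have := norm_rfl'_le w
  have h3 := norm_nonneg (rfl' w)
  have h4 := norm_nonneg z
  nlinarith only [hz, h2, this, h4]

theorem norm_one_sub_ge {w z : ℂ} : 1 - ‖z‖ ≤ ‖1 - rfl' w * z‖ := by
  have h1 : ‖(1:ℂ)‖ - ‖rfl' w * z‖ ≤ ‖1 - rfl' w * z‖ := norm_sub_norm_le _ _
  rw [norm_one, norm_mul] at h1
  have := norm_rfl'_le w
  have h4 := norm_nonneg z
  nlinarith only [h1, this, h4]

theorem re_tt_nonneg {w z : ℂ} (hz : ‖z‖ ≤ 1) : 0 ≤ (tt w z).re := by
  unfold tt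
  rw [re_one_add_div]
  apply div_nonneg _ (by positivity)
  rw [norm_mul]
  have := norm_rfl'_le w
  have h3 := norm_nonneg (rfl' w)
  have h4 := norm_nonneg z
  have h5 : ‖rfl' w‖ * ‖z‖ ≤ 1 := by nlinarith only [hz, this, h4]
  have h6 : 0 ≤ ‖rfl' w‖ * ‖z‖ := by positivity
  nlinarith only [h5, h6]

theorem re_tt_pos {w z : ℂ} (hz : ‖z‖ < 1) : 0 < (tt w z).re := by
  unfold tt
  rw [re_one_add_div]
  have h0 := norm_pos_iff.2 (one_sub_ne (w := w) hz)
  apply div_pos _ (by positivity)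
  rw [norm_mul]
  have := norm_rfl'_le w
  have h3 := norm_nonneg (rfl' w)
  have h4 := norm_nonneg z
  have h5 : ‖rfl' w‖ * ‖z‖ < 1 := by nlinarith only [hz, this, h4]
  have h6 : 0 ≤ ‖rfl' w‖ * ‖z‖ := by positivity
  nlinarith only [h5, h6]

theorem re_tt_ge {w z : ℂ} (hz : ‖z‖ < 1) :
    (1 - ‖z‖) / ‖1 - rfl' w * z‖ ^ 2 ≤ (tt w z).re := by
  unfold tt
  rw [re_one_add_div]
  apply div_le_div_of_nonneg_right _ (by positivity)
  rw [norm_mul]
  have := norm_rfl'_le w
  have h3 := norm_nonneg (rfl' w)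
  have h4 := norm_nonneg z
  have h5 : ‖rfl' w‖ * ‖z‖ ≤ ‖z‖ := by nlinarith only [this, h4]
  have h6 : 0 ≤ ‖rfl' w‖ * ‖z‖ := by positivity
  nlinarith only [hz, h5, h6]

theorem norm_tt_le {w z : ℂ} (hz : ‖z‖ < 1) : ‖tt w z‖ ≤ 2 / (1 - ‖z‖) := by
  unfold tt
  rw [norm_div]
  have h1 : ‖1 + rfl' w * z‖ ≤ 2 := by
    refine (norm_add_le _ _).trans ?_
    rw [norm_one, norm_mul]
    have := norm_rfl'_le w
    have h3 := norm_nonneg (rfl' w)
    have h4 := norm_nonneg z
    nlinarith only [hz, this, h4]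
  have h2 := norm_one_sub_ge (w := w) (z := z)
  have h3 : 0 < 1 - ‖z‖ := by linarith only [hz]
  exact div_le_div₀ (by norm_num) h1 h3 h2

theorem tt_sub {w z z' : ℂ} (h : 1 - rfl' w * z ≠ 0) (h' : 1 - rfl' w * z' ≠ 0) :
    tt w z - tt w z' = 2 * rfl' w * (z - z') / ((1 - rfl' w * z) * (1 - rfl' w * z')) := by
  unfold tt
  field_simp
  ring

theorem conj_of_norm_one {z : ℂ} (hz : ‖z‖ = 1) : (starRingEnd ℂ) z * z = 1 := by
  rw [mul_comm, Complex.mul_conj, Complex.normSq_eq_norm_sq, hz]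
  simp

theorem norm_sub_root {z w : ℂ} (hz : ‖z‖ = 1) :
    ‖z - w‖ = max 1 ‖w‖ * ‖1 - rfl' w * z‖ := by
  unfold rfl'
  split_ifs with h
  · rw [max_eq_right h, ← norm_mul]
    have hw : w ≠ 0 := by
      rintro rfl
      simp at h
      linarith only [h]
    have : w * (1 - w⁻¹ * z) = w - z := by
      field_simp
    rw [this, norm_sub_rev]
  · rw [max_eq_left (not_le.1 h).le, one_mul]
    have h1 : 1 - (starRingEnd ℂ) w * z = z * (starRingEnd ℂ) (z - w) := by
      rw [map_sub, mul_sub, mul_comm z, conj_of_norm_one hz]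
      ring
    rw [h1, norm_mul, hz, one_mul, RCLike.norm_conj]

theorem norm_sub_root_ge {z w : ℂ} (hz : ‖z‖ = 1) : ‖1 - rfl' w * z‖ ≤ ‖z - w‖ := by
  rw [norm_sub_root hz]
  have := le_max_left 1 ‖w‖
  have h2 := norm_nonneg (1 - rfl' w * z)
  nlinarith only [this, h2]

/-- On the circle `z / (z - w)` is controlled by the Herglotz summand. -/
theorem div_sub_root {z w : ℂ} (hz : ‖z‖ = 1) (h : 1 - rfl' w * z ≠ 0) :
    (z / (z - w)).im = -(tt w z).im / 2 ∧ |(z / (z - w)).re| ≤ (1 + (tt w z).re) / 2 := by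
  have hre := re_tt_nonneg (w := w) (z := z) hz.le
  by_cases hw : 1 ≤ ‖w‖
  · have hb : rfl' w = w⁻¹ := by unfold rfl'; rw [if_pos hw]
    have hw0 : w ≠ 0 := by
      rintro rfl
      simp at hw
      linarith only [hw]
    have hzw : z - w ≠ 0 := by
      intro h0
      apply h
      rw [hb, sub_eq_zero.1 h0]
      field_simp
      simp
    have key : z / (z - w) = (1 - tt w z) / 2 := by
      unfold tt
      rw [hb] at h ⊢
      have h' : w - z ≠ 0 := by
        intro h0; apply hzw; rw [← neg_sub, h0]; simp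
      field_simp
      ring
    rw [key]
    constructor
    · simp [Complex.div_ofNat_im]
    · rw [Complex.div_ofNat_re, Complex.sub_re, Complex.one_re, abs_le]
      constructor <;> linarith only [hre]
  · have hb : rfl' w = (starRingEnd ℂ) w := by unfold rfl'; rw [if_neg hw]
    have hz0 : z ≠ 0 := by
      rintro rfl
      simp at hz
    have hc := conj_of_norm_one hz
    have hcz : (starRingEnd ℂ) z ≠ 0 := by simpa using hz0
    have hzw : z - w ≠ 0 := by
      intro h0
      have : z = w := sub_eq_zero.1 h0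
      rw [this] at hz
      exact hw hz.ge
    have key : z / (z - w) = (1 + (starRingEnd ℂ) (tt w z)) / 2 := by
      have h2 : (starRingEnd ℂ) (z / (z - w)) = (1 + tt w z) / 2 := by
        rw [map_div₀, map_sub]
        unfold tt
        rw [hb] at h ⊢
        have h3 : (starRingEnd ℂ) z - (starRingEnd ℂ) w ≠ 0 := by
          rw [← map_sub]
          exact (map_ne_zero _).2 hzw
        have h4 : (1 + (1 + (starRingEnd ℂ) w * z) / (1 - (starRingEnd ℂ) w * z)) / 2 =
            1 / (1 - (starRingEnd ℂ) w * z) := by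
          field_simp
          ring
        rw [h4, div_eq_div_iff h3 h]
        linear_combination (-(starRingEnd ℂ) w) * hc
      have h5 := congrArg (starRingEnd ℂ) h2
      rw [Complex.conj_conj] at h5
      rw [h5, map_div₀, map_add, map_one, map_ofNat]
    rw [key]
    constructor
    · simp [Complex.div_ofNat_im]
    · rw [Complex.div_ofNat_re, Complex.add_re, Complex.one_re, Complex.conj_re, abs_of_nonneg]
      linarith only [hre]

theorem norm_one_add_le_exp (a : ℂ) : ‖1 + a‖ ≤ Real.exp (a.re + ‖a‖ ^ 2 / 2) := by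
  have h1 : ‖1 + a‖ ^ 2 = 1 + (2 * a.re + ‖a‖ ^ 2) := by
    rw [← Complex.normSq_eq_norm_sq, ← Complex.normSq_eq_norm_sq]
    simp only [Complex.normSq_apply, Complex.add_re, Complex.one_re, Complex.add_im,
      Complex.one_im]
    ring
  have h2 : ‖1 + a‖ ^ 2 ≤ Real.exp (a.re + ‖a‖ ^ 2 / 2) ^ 2 := by
    rw [h1, ← Real.exp_nat_mul]
    have := Real.add_one_le_exp (2 * a.re + ‖a‖ ^ 2)
    have h3 : ((2:ℕ):ℝ) * (a.re + ‖a‖ ^ 2 / 2) = 2 * a.re + ‖a‖ ^ 2 := by
      push_cast; ring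
    rw [h3]
    linarith only [this]
  exact (pow_le_pow_iff_left₀ (norm_nonneg _) (Real.exp_pos _).le two_ne_zero).1 h2

theorem far_prod_le {ι : Type*} (s : Finset ι) (w : ι → ℂ) {z z' : ℂ} (hz : ‖z‖ = 1)
    (hne : ∀ i ∈ s, z - w i ≠ 0) :
    ∏ i ∈ s, ‖z' - w i‖ ≤ (∏ i ∈ s, ‖z - w i‖) *
      Real.exp (‖z' - z‖ * ‖∑ i ∈ s, z / (z - w i)‖ +
        ‖z' - z‖ ^ 2 / 2 * ∑ i ∈ s, 1 / ‖z - w i‖ ^ 2) := by
  have h1 : ∏ i ∈ s, ‖z' - w i‖ ≤ ∏ i ∈ s, (‖z - w i‖ *
      Real.exp (((z' - z) / (z - w i)).re + ‖(z' - z) / (z - w i)‖ ^ 2 / 2)) := by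
    apply Finset.prod_le_prod (fun i _ => norm_nonneg _)
    intro i hi
    have h2 : z' - w i = (z - w i) * (1 + (z' - z) / (z - w i)) := by
      have := hne i hi
      field_simp
      ring
    rw [h2, norm_mul]
    exact mul_le_mul_of_nonneg_left (norm_one_add_le_exp _) (norm_nonneg _)
  refine h1.trans ?_
  rw [Finset.prod_mul_distrib, ← Real.exp_sum]
  apply mul_le_mul_of_nonneg_left _ (Finset.prod_nonneg (fun i _ => norm_nonneg _))
  apply Real.exp_le_exp.2
  rw [Finset.sum_add_distrib]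
  apply add_le_add
  · rw [← Complex.re_sum]
    refine (Complex.re_le_norm _).trans ?_
    have h3 : ∑ i ∈ s, (z' - z) / (z - w i) = (z' - z) * z⁻¹ * ∑ i ∈ s, z / (z - w i) := by
      rw [Finset.mul_sum]
      apply Finset.sum_congr rfl
      intro i hi
      have hz0 : z ≠ 0 := by
        rintro rfl
        simp at hz
      have := hne i hi
      field_simp
    rw [h3, norm_mul, norm_mul, norm_inv, hz]
    simp
  · rw [Finset.mul_sum]
    apply Finset.sum_le_sum
    intro i _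
    rw [norm_div, div_pow]
    apply le_of_eq
    ring

theorem chord_ge {a b : ℝ} (h : |a - b| ≤ Real.pi) :
    |a - b| / 2 ≤ ‖Complex.exp (Complex.I * a) - Complex.exp (Complex.I * b)‖ := by
  have h1 : Complex.exp (Complex.I * a) - Complex.exp (Complex.I * b) =
      Complex.exp (Complex.I * b) * (Complex.exp (Complex.I * ((a - b : ℝ) : ℂ)) - 1) := by
    rw [mul_sub, ← Complex.exp_add]
    push_cast
    rw [mul_one]
    congr 2
    ring
  have h2 : ‖Complex.exp (Complex.I * b)‖ = 1 := by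
    rw [mul_comm]
    exact Complex.norm_exp_ofReal_mul_I b
  rw [h1, norm_mul, h2, one_mul, Complex.norm_exp_I_mul_ofReal_sub_one]
  have h3 : ‖2 * Real.sin ((a - b) / 2)‖ = 2 * Real.sin (|a - b| / 2) := by
    rw [Real.norm_eq_abs, abs_mul, abs_of_pos (by norm_num : (0:ℝ) < 2)]
    congr 1
    rcases abs_cases (a - b) with ⟨h4, h5⟩ | ⟨h4, h5⟩
    · rw [h4, abs_of_nonneg]
      apply Real.sin_nonneg_of_nonneg_of_le_pi <;> [linarith only [h5]; skip]
      rw [h4] at h
      have := Real.pi_pos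
      linarith only [h, this]
    · rw [h4, neg_div, Real.sin_neg, abs_of_nonpos]
      apply Real.sin_nonpos_of_nonpos_of_neg_pi_le <;> [linarith only [h5]; skip]
      rw [h4] at h
      have := Real.pi_pos
      linarith only [h, this]
  rw [h3]
  have h4 : 2 / Real.pi * (|a - b| / 2) ≤ Real.sin (|a - b| / 2) :=
    Real.mul_le_sin (by positivity) (by linarith only [h])
  have h5 : Real.pi ≤ 4 := Real.pi_le_four
  have h6 : (1:ℝ) / 2 ≤ 2 / Real.pi := by
    rw [div_le_div_iff₀ (by norm_num) Real.pi_pos]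
    linarith only [h5]
  have h7 : 0 ≤ |a - b| := abs_nonneg _
  nlinarith only [h4, h6, h7]

theorem chord_le (a b : ℝ) :
    ‖Complex.exp (Complex.I * a) - Complex.exp (Complex.I * b)‖ ≤ |a - b| := by
  have h1 : Complex.exp (Complex.I * a) - Complex.exp (Complex.I * b) =
      Complex.exp (Complex.I * b) * (Complex.exp (Complex.I * ((a - b : ℝ) : ℂ)) - 1) := by
    rw [mul_sub, ← Complex.exp_add]
    push_cast
    rw [mul_one]
    congr 2
    ring
  have h2 : ‖Complex.exp (Complex.I * b)‖ = 1 := by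
    rw [mul_comm]
    exact Complex.norm_exp_ofReal_mul_I b
  rw [h1, norm_mul, h2, one_mul]
  exact Real.norm_exp_I_mul_ofReal_sub_one_le

/-- Pigeonhole: some point of the arc is far from all the roots of a small set. -/
theorem exists_far_point {ι : Type*} (s : Finset ι) (w : ι → ℂ) {y d : ℝ} (hd : 0 < d)
    (hd1 : d ≤ 1) :
    ∃ u ∈ Set.Icc y (y + d), ∀ i ∈ s,
      d / (4 * (s.card + 1)) ≤ ‖Complex.exp (Complex.I * u) - w i‖ := by
  classical
  set M := s.card with hM
  have hM1 : (0:ℝ) < (M:ℝ) + 1 := by positivity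
  let u : ℕ → ℝ := fun j => y + d * j / (M + 1)
  by_contra hcon
  push Not at hcon
  have hu : ∀ j ∈ Finset.range (M + 1), u j ∈ Set.Icc y (y + d) := by
    intro j hj
    have hj' : (j:ℝ) ≤ M := by
      exact_mod_cast Nat.lt_succ_iff.1 (Finset.mem_range.1 hj)
    constructor
    · simp only [u]
      have : 0 ≤ d * j / (M + 1) := by positivity
      linarith only [this]
    · simp only [u]
      have : d * j / (M + 1) ≤ d := by
        rw [div_le_iff₀ hM1]
        nlinarith only [hd, hj']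
      linarith only [this]
  have hne : Nonempty ι := ⟨(hcon (u 0) (hu 0 (by simp))).choose⟩
  choose! f hf hfw using fun j hj => hcon (u j) (hu j hj)
  obtain ⟨j, hj, l, hl, hjl, hfe⟩ := Finset.exists_ne_map_eq_of_card_lt_of_maps_to
    (s := Finset.range (M + 1)) (t := s) (f := f) (by simp [hM]) (fun j hj => hf j hj)
  have h1 := hfw j hj
  have h2 := hfw l hl
  rw [hfe] at h1
  have h3 : ‖Complex.exp (Complex.I * u j) - Complex.exp (Complex.I * u l)‖ <
      d / (2 * (M + 1)) := by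
    calc ‖Complex.exp (Complex.I * u j) - Complex.exp (Complex.I * u l)‖
        = ‖(Complex.exp (Complex.I * u j) - w (f l)) -
          (Complex.exp (Complex.I * u l) - w (f l))‖ := by congr 1; ring
      _ ≤ _ := norm_sub_le _ _
      _ < d / (4 * (M + 1)) + d / (4 * (M + 1)) := add_lt_add h1 h2
      _ = d / (2 * (M + 1)) := by field_simp; ring
  have h4 : u j - u l = d / (M + 1) * ((j:ℝ) - l) := by
    simp only [u]
    field_simp
    ring
  have h5 : (1:ℝ) ≤ |(j:ℝ) - l| := by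
    have : (1:ℤ) ≤ |(j:ℤ) - l| := by
      apply Int.one_le_abs
      intro h
      apply hjl
      omega
    exact_mod_cast this
  have h6 : d / (M + 1) ≤ |u j - u l| := by
    rw [h4, abs_mul, abs_of_pos (by positivity)]
    have : 0 < d / ((M:ℝ) + 1) := by positivity
    nlinarith only [h5, this]
  have h7 : |u j - u l| ≤ Real.pi := by
    have a1 := hu j hj
    have a2 := hu l hl
    have a3 : |u j - u l| ≤ d := by
      rw [abs_le]
      constructor <;> linarith only [a1.1, a1.2, a2.1, a2.2]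
    linarith only [Real.pi_gt_three, hd1, a3]
  have h8 := chord_ge h7
  have h9 : d / (2 * (M + 1)) = d / (M + 1) / 2 := by
    field_simp
  rw [h9] at h3
  linarith only [h3, h6, h8]

/-- The constant of `good_point`. -/
noncomputable def KK (L δ σ : ℝ) : ℝ :=
  Real.exp (32 * σ * L + 5 * σ ^ 2 * L) * (1 + 4 * σ * (9 * L + 1) / δ) ^ ⌊9 * L⌋₊

theorem KK_pos {L δ σ : ℝ} (hL : 0 ≤ L) (hδ : 0 < δ) (hσ : 0 ≤ σ) : 0 < KK L δ σ := by
  unfold KK
  positivity

theorem good_point {ι : Type*} (s : Finset ι) (w : ι → ℂ) {h L δ σ y : ℝ} (h0 : 0 < h)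
    (h1 : h ≤ 1 / 2) (hL : 1 ≤ L) (hδ : 0 < δ) (hδ1 : δ ≤ 1) (hσ : 0 ≤ σ)
    (hcard : s.card * h ≤ 1)
    (hH : h * ‖∑ i ∈ s, tt (w i) (((1 - h : ℝ) : ℂ) * Complex.exp (Complex.I * y))‖ ≤ L) :
    ∃ u ∈ Set.Icc y (y + δ * h), ∀ z' : ℂ, ‖z' - Complex.exp (Complex.I * u)‖ ≤ σ * h →
      ∏ i ∈ s, ‖z' - w i‖ ≤ KK L δ σ * ∏ i ∈ s, ‖Complex.exp (Complex.I * u) - w i‖ := by
  classical
  set z : ℂ := Complex.exp (Complex.I * y) with hz
  set z0 : ℂ := ((1 - h : ℝ) : ℂ) * z with hz0
  have hzn : ‖z‖ = 1 := by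
    rw [hz, mul_comm]
    exact Complex.norm_exp_ofReal_mul_I y
  have hz0n : ‖z0‖ = 1 - h := by
    rw [hz0, norm_mul, hzn, Complex.norm_real, Real.norm_eq_abs, abs_of_pos (by linarith only [h1])]
    ring
  have hz0lt : ‖z0‖ < 1 := by linarith only [h0, hz0n]
  have hzz0 : ‖z - z0‖ = h := by
    have : z - z0 = ((h : ℝ) : ℂ) * z := by rw [hz0]; push_cast; ring
    rw [this, norm_mul, hzn, Complex.norm_real, Real.norm_eq_abs, abs_of_pos h0]
    ring
  have hLpos : 0 < L := by linarith only [hL]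
  -- the basic sums
  have hsum : ∑ i ∈ s, 1 / ‖1 - rfl' (w i) * z0‖ ^ 2 ≤ L / h ^ 2 := by
    have e1 : h * ∑ i ∈ s, 1 / ‖1 - rfl' (w i) * z0‖ ^ 2 ≤ ‖∑ i ∈ s, tt (w i) z0‖ := by
      calc h * ∑ i ∈ s, 1 / ‖1 - rfl' (w i) * z0‖ ^ 2
          = ∑ i ∈ s, h * (1 / ‖1 - rfl' (w i) * z0‖ ^ 2) := Finset.mul_sum _ _ _
        _ ≤ ∑ i ∈ s, (tt (w i) z0).re := by
            apply Finset.sum_le_sum
            intro i _
            refine le_trans (le_of_eq ?_) (re_tt_ge hz0lt)
            rw [hz0n]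
            ring
        _ = (∑ i ∈ s, tt (w i) z0).re := (Complex.re_sum _ _).symm
        _ ≤ _ := Complex.re_le_norm _
    rw [le_div_iff₀ (by positivity)]
    calc (∑ i ∈ s, 1 / ‖1 - rfl' (w i) * z0‖ ^ 2) * h ^ 2
        = h * (h * ∑ i ∈ s, 1 / ‖1 - rfl' (w i) * z0‖ ^ 2) := by ring
      _ ≤ h * ‖∑ i ∈ s, tt (w i) z0‖ := mul_le_mul_of_nonneg_left e1 h0.le
      _ ≤ L := hH
  have hHn : ‖∑ i ∈ s, tt (w i) z0‖ ≤ L / h := by
    rw [le_div_iff₀ h0]
    linarith only [hH]
  set near := s.filter (fun i => ‖1 - rfl' (w i) * z‖ < 2 * h) with hnear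
  set far := s.filter (fun i => ¬ ‖1 - rfl' (w i) * z‖ < 2 * h) with hfar
  have hcmp : ∀ i, ‖1 - rfl' (w i) * z0‖ ≤ ‖1 - rfl' (w i) * z‖ + h := by
    intro i
    have e1 : 1 - rfl' (w i) * z0 = (1 - rfl' (w i) * z) + rfl' (w i) * (z - z0) := by ring
    rw [e1]
    refine (norm_add_le _ _).trans ?_
    rw [norm_mul, hzz0]
    have := norm_rfl'_le (w i)
    nlinarith only [hz0n, hz0lt, this]
  have hposz0 : ∀ i, 0 < ‖1 - rfl' (w i) * z0‖ := fun i => norm_pos_iff.2 (one_sub_ne hz0lt)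
  -- number of near roots
  have hncard : (near.card : ℝ) ≤ 9 * L := by
    have e1 : (near.card : ℝ) = ∑ i ∈ near, (1:ℝ) := by simp
    rw [e1]
    calc ∑ i ∈ near, (1:ℝ) ≤ ∑ i ∈ near, 9 * h ^ 2 * (1 / ‖1 - rfl' (w i) * z0‖ ^ 2) := by
          apply Finset.sum_le_sum
          intro i hi
          have e2 := (Finset.mem_filter.1 hi).2
          have e3 := hcmp i
          have e4 := hposz0 i
          have e5 : ‖1 - rfl' (w i) * z0‖ ^ 2 ≤ (3 * h) ^ 2 := by
            apply pow_le_pow_left₀ e4.le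
            linarith only [e2, e3]
          rw [mul_one_div, le_div_iff₀ (by positivity)]
          nlinarith only [e5]
      _ = 9 * h ^ 2 * ∑ i ∈ near, (1 / ‖1 - rfl' (w i) * z0‖ ^ 2) := (Finset.mul_sum _ _ _).symm
      _ ≤ 9 * h ^ 2 * ∑ i ∈ s, (1 / ‖1 - rfl' (w i) * z0‖ ^ 2) := by
          apply mul_le_mul_of_nonneg_left _ (by positivity)
          apply Finset.sum_le_sum_of_subset_of_nonneg (Finset.filter_subset _ _)
          intro i _ _
          positivity
      _ ≤ 9 * h ^ 2 * (L / h ^ 2) := mul_le_mul_of_nonneg_left hsum (by positivity)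
      _ = 9 * L := by field_simp
  have hd1 : δ * h ≤ 1 := by nlinarith only [h0, h1, hδ1]
  obtain ⟨u, hu, hufar⟩ := exists_far_point near w (y := y) (mul_pos hδ h0) hd1
  refine ⟨u, hu, ?_⟩
  set z2 : ℂ := Complex.exp (Complex.I * u) with hz2
  have hz2n : ‖z2‖ = 1 := by
    rw [hz2, mul_comm]
    exact Complex.norm_exp_ofReal_mul_I u
  have hz2z : ‖z2 - z‖ ≤ h := by
    refine (chord_le u y).trans ?_
    rw [abs_le]
    constructor <;> nlinarith only [hu.1, hu.2, hz0n, hz0lt, hδ, hδ1]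
  have hz2z0 : ‖z2 - z0‖ ≤ 2 * h := by
    have e1 : z2 - z0 = (z2 - z) + (z - z0) := by ring
    rw [e1]
    refine (norm_add_le _ _).trans ?_
    rw [hzz0]
    linarith only [hz2z]
  -- far roots
  have hfar1 : ∀ i ∈ far, ‖1 - rfl' (w i) * z0‖ ≤ 3 * ‖1 - rfl' (w i) * z2‖ := by
    intro i hi
    have e2 := not_lt.1 (Finset.mem_filter.1 hi).2
    have e3 := hcmp i
    have e4 : ‖1 - rfl' (w i) * z‖ ≤ ‖1 - rfl' (w i) * z2‖ + h := by
      have e1 : 1 - rfl' (w i) * z = (1 - rfl' (w i) * z2) + rfl' (w i) * (z2 - z) := by ring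
      rw [e1]
      refine (norm_add_le _ _).trans ?_
      rw [norm_mul]
      have := norm_rfl'_le (w i)
      nlinarith only [norm_nonneg (z2 - z), hz2z, this]
    linarith only [e2, e3, e4]
  have hfarne : ∀ i ∈ far, 1 - rfl' (w i) * z2 ≠ 0 := by
    intro i hi
    rw [← norm_pos_iff]
    have := hfar1 i hi
    have := hposz0 i
    linarith
  have hfarne2 : ∀ i ∈ far, z2 - w i ≠ 0 := by
    intro i hi
    rw [← norm_pos_iff]
    exact lt_of_lt_of_le (norm_pos_iff.2 (hfarne i hi)) (norm_sub_root_ge hz2n)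
  have hfarsq : ∑ i ∈ far, 1 / ‖1 - rfl' (w i) * z0‖ ^ 2 ≤ L / h ^ 2 := by
    refine le_trans ?_ hsum
    apply Finset.sum_le_sum_of_subset_of_nonneg (Finset.filter_subset _ _)
    intro i _ _
    positivity
  have hsplit : ∀ f : ι → ℂ, ∑ i ∈ far, f i = ∑ i ∈ s, f i - ∑ i ∈ near, f i := by
    intro f
    rw [eq_sub_iff_add_eq, add_comm]
    exact Finset.sum_filter_add_sum_filter_not s _ f
  have hT0 : ‖∑ i ∈ far, tt (w i) z0‖ ≤ 19 * L / h := by
    rw [hsplit]
    refine (norm_sub_le _ _).trans ?_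
    have e1 : ‖∑ i ∈ near, tt (w i) z0‖ ≤ 18 * L / h := by
      refine (norm_sum_le _ _).trans ?_
      calc ∑ i ∈ near, ‖tt (w i) z0‖ ≤ ∑ i ∈ near, 2 / h := by
            apply Finset.sum_le_sum
            intro i _
            have := norm_tt_le (w := w i) hz0lt
            rw [hz0n] at this
            have e5 : 1 - (1 - h) = h := by ring
            rwa [e5] at this
        _ = near.card * (2 / h) := by rw [Finset.sum_const, nsmul_eq_mul]
        _ ≤ 9 * L * (2 / h) := mul_le_mul_of_nonneg_right hncard (by positivity)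
        _ = 18 * L / h := by ring
    calc _ ≤ L / h + 18 * L / h := add_le_add hHn e1
      _ = _ := by ring
  have hTd : ‖∑ i ∈ far, (tt (w i) z2 - tt (w i) z0)‖ ≤ 12 * L / h := by
    refine (norm_sum_le _ _).trans ?_
    calc ∑ i ∈ far, ‖tt (w i) z2 - tt (w i) z0‖
        ≤ ∑ i ∈ far, 12 * h * (1 / ‖1 - rfl' (w i) * z0‖ ^ 2) := by
          apply Finset.sum_le_sum
          intro i hi
          rw [tt_sub (hfarne i hi) (one_sub_ne hz0lt), norm_div, norm_mul, norm_mul, norm_mul]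
          have e1 := hfar1 i hi
          have e2 := hposz0 i
          have e3 := norm_pos_iff.2 (hfarne i hi)
          have e4 := norm_rfl'_le (w i)
          have e5 : ‖(2:ℂ)‖ = 2 := by norm_num
          rw [e5, mul_one_div, div_le_div_iff₀ (by positivity) (by positivity)]
          have e6 : ‖rfl' (w i)‖ * ‖z2 - z0‖ ≤ 2 * h := by
            nlinarith only [norm_nonneg (z2 - z0), hz2z0, e4]
          have e7 : ‖1 - rfl' (w i) * z0‖ ^ 2 ≤
              3 * (‖1 - rfl' (w i) * z2‖ * ‖1 - rfl' (w i) * z0‖) := by nlinarith only [e1, e2]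
          calc 2 * ‖rfl' (w i)‖ * ‖z2 - z0‖ * ‖1 - rfl' (w i) * z0‖ ^ 2
              = 2 * (‖rfl' (w i)‖ * ‖z2 - z0‖) * ‖1 - rfl' (w i) * z0‖ ^ 2 := by ring
            _ ≤ 2 * (2 * h) * (3 * (‖1 - rfl' (w i) * z2‖ * ‖1 - rfl' (w i) * z0‖)) := by
                apply mul_le_mul _ e7 (by positivity) (by positivity)
                linarith only [e6]
            _ = _ := by ring
      _ = 12 * h * ∑ i ∈ far, (1 / ‖1 - rfl' (w i) * z0‖ ^ 2) := (Finset.mul_sum _ _ _).symm
      _ ≤ 12 * h * (L / h ^ 2) := mul_le_mul_of_nonneg_left hfarsq (by positivity)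
      _ = _ := by field_simp
  have hT2 : ‖∑ i ∈ far, tt (w i) z2‖ ≤ 31 * L / h := by
    have e1 : ∑ i ∈ far, tt (w i) z2 = ∑ i ∈ far, (tt (w i) z2 - tt (w i) z0) +
        ∑ i ∈ far, tt (w i) z0 := by
      rw [← Finset.sum_add_distrib]
      apply Finset.sum_congr rfl
      intro i _
      ring
    rw [e1]
    refine (norm_add_le _ _).trans ?_
    calc _ ≤ 12 * L / h + 19 * L / h := add_le_add hTd hT0
      _ = _ := by ring
  have hS1 : ‖∑ i ∈ far, z2 / (z2 - w i)‖ ≤ 32 * L / h := by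
    have e1 : |(∑ i ∈ far, z2 / (z2 - w i)).im| ≤ ‖∑ i ∈ far, tt (w i) z2‖ / 2 := by
      have : (∑ i ∈ far, z2 / (z2 - w i)).im = -(∑ i ∈ far, tt (w i) z2).im / 2 := by
        rw [Complex.im_sum, Complex.im_sum, ← Finset.sum_neg_distrib, Finset.sum_div]
        apply Finset.sum_congr rfl
        intro i hi
        exact (div_sub_root hz2n (hfarne i hi)).1
      rw [this, abs_div, abs_neg, abs_of_pos (by norm_num : (0:ℝ) < 2)]
      have := Complex.abs_im_le_norm (∑ i ∈ far, tt (w i) z2)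
      linarith only [this]
    have e2 : |(∑ i ∈ far, z2 / (z2 - w i)).re| ≤
        far.card / 2 + ‖∑ i ∈ far, tt (w i) z2‖ / 2 := by
      rw [Complex.re_sum]
      refine (Finset.abs_sum_le_sum_abs _ _).trans ?_
      calc ∑ i ∈ far, |(z2 / (z2 - w i)).re| ≤ ∑ i ∈ far, (1 + (tt (w i) z2).re) / 2 := by
            apply Finset.sum_le_sum
            intro i hi
            exact (div_sub_root hz2n (hfarne i hi)).2
        _ = far.card / 2 + (∑ i ∈ far, tt (w i) z2).re / 2 := by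
            rw [← Finset.sum_div, Finset.sum_add_distrib, Complex.re_sum]
            simp
            ring
        _ ≤ _ := by
            have := Complex.re_le_norm (∑ i ∈ far, tt (w i) z2)
            linarith only [this]
    have e3 := Complex.norm_le_abs_re_add_abs_im (∑ i ∈ far, z2 / (z2 - w i))
    have e4 : (far.card : ℝ) ≤ 1 / h := by
      rw [le_div_iff₀ h0]
      have : (far.card : ℝ) ≤ s.card := by
        exact_mod_cast Finset.card_le_card (Finset.filter_subset _ _)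
      nlinarith only [h0, hcard, this]
    calc _ ≤ far.card / 2 + ‖∑ i ∈ far, tt (w i) z2‖ := by linarith only [e1, e2, e3]
      _ ≤ (1 / h) / 2 + 31 * L / h := by linarith only [hT2, e4]
      _ ≤ L / h + 31 * L / h := by
          have : 1 / h ≤ L / h := div_le_div_of_nonneg_right hL h0.le
          have h5 : 0 < 1 / h := by positivity
          linarith only [e4, this]
      _ = _ := by ring
  have hS2 : ∑ i ∈ far, 1 / ‖z2 - w i‖ ^ 2 ≤ 9 * L / h ^ 2 := by
    calc ∑ i ∈ far, 1 / ‖z2 - w i‖ ^ 2 ≤ ∑ i ∈ far, 9 * (1 / ‖1 - rfl' (w i) * z0‖ ^ 2) := by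
          apply Finset.sum_le_sum
          intro i hi
          have e1 := hfar1 i hi
          have e2 := hposz0 i
          have e3 := norm_pos_iff.2 (hfarne2 i hi)
          have e4 : ‖1 - rfl' (w i) * z2‖ ≤ ‖z2 - w i‖ := norm_sub_root_ge hz2n
          rw [mul_one_div, div_le_div_iff₀ (by positivity) (by positivity)]
          have e5 : ‖1 - rfl' (w i) * z0‖ ^ 2 ≤ (3 * ‖z2 - w i‖) ^ 2 :=
            pow_le_pow_left₀ e2.le (by linarith only [e1, e4]) 2
          nlinarith only [e5]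
      _ = 9 * ∑ i ∈ far, (1 / ‖1 - rfl' (w i) * z0‖ ^ 2) := (Finset.mul_sum _ _ _).symm
      _ ≤ 9 * (L / h ^ 2) := mul_le_mul_of_nonneg_left hfarsq (by norm_num)
      _ = _ := by ring
  intro z' hz'
  have hz'0 : 0 ≤ ‖z' - z2‖ := norm_nonneg _
  -- far product
  have hfp : ∏ i ∈ far, ‖z' - w i‖ ≤ (∏ i ∈ far, ‖z2 - w i‖) *
      Real.exp (32 * σ * L + 5 * σ ^ 2 * L) := by
    refine (far_prod_le far w hz2n hfarne2).trans ?_
    apply mul_le_mul_of_nonneg_left _ (Finset.prod_nonneg (fun i _ => norm_nonneg _))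
    apply Real.exp_le_exp.2
    apply add_le_add
    · calc ‖z' - z2‖ * ‖∑ i ∈ far, z2 / (z2 - w i)‖ ≤ (σ * h) * (32 * L / h) :=
            mul_le_mul hz' hS1 (norm_nonneg _) (by positivity)
        _ = 32 * σ * L := by field_simp
    · calc ‖z' - z2‖ ^ 2 / 2 * ∑ i ∈ far, 1 / ‖z2 - w i‖ ^ 2 ≤
            (σ * h) ^ 2 / 2 * (9 * L / h ^ 2) := by
            apply mul_le_mul _ hS2 (Finset.sum_nonneg (fun i _ => by positivity)) (by positivity)
            have := pow_le_pow_left₀ hz'0 hz' 2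
            linarith only [this]
        _ = 9 / 2 * (σ ^ 2 * L) := by field_simp
        _ ≤ 5 * σ ^ 2 * L := by
            have : 0 ≤ σ ^ 2 * L := by positivity
            nlinarith only [this]
  -- near product
  have hbase : 1 ≤ 1 + 4 * σ * (9 * L + 1) / δ := by
    have : 0 ≤ 4 * σ * (9 * L + 1) / δ := by positivity
    linarith only [this]
  have hnp : ∏ i ∈ near, ‖z' - w i‖ ≤ (∏ i ∈ near, ‖z2 - w i‖) *
      (1 + 4 * σ * (9 * L + 1) / δ) ^ ⌊9 * L⌋₊ := by
    calc ∏ i ∈ near, ‖z' - w i‖ ≤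
          ∏ i ∈ near, (‖z2 - w i‖ * (1 + 4 * σ * (9 * L + 1) / δ)) := by
          apply Finset.prod_le_prod (fun i _ => norm_nonneg _)
          intro i hi
          have e1 := hufar i hi
          have e2 : ‖z' - w i‖ ≤ ‖z2 - w i‖ + σ * h := by
            have : z' - w i = (z2 - w i) + (z' - z2) := by ring
            rw [this]
            exact (norm_add_le _ _).trans (by linarith only [hz'])
          have e3 : δ * h / (4 * (9 * L + 1)) ≤ ‖z2 - w i‖ := by
            refine le_trans ?_ e1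
            apply div_le_div_of_nonneg_left (by positivity) (by positivity)
            linarith only [hncard]
          rw [div_le_iff₀ (by positivity)] at e3
          have e4 : σ * h ≤ ‖z2 - w i‖ * (4 * σ * (9 * L + 1) / δ) := by
            have e5 : ‖z2 - w i‖ * (4 * σ * (9 * L + 1) / δ) =
                σ * (‖z2 - w i‖ * (4 * (9 * L + 1))) / δ := by ring
            rw [e5, le_div_iff₀ hδ]
            nlinarith only [hσ, e3]
          linarith only [e2, e4]
      _ = (∏ i ∈ near, ‖z2 - w i‖) * (1 + 4 * σ * (9 * L + 1) / δ) ^ near.card := by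
          rw [Finset.prod_mul_distrib, Finset.prod_const]
      _ ≤ _ := by
          apply mul_le_mul_of_nonneg_left _ (Finset.prod_nonneg (fun i _ => norm_nonneg _))
          apply pow_le_pow_right₀ hbase
          exact Nat.le_floor hncard
  have hps : ∀ f : ι → ℝ, ∏ i ∈ s, f i = (∏ i ∈ near, f i) * ∏ i ∈ far, f i := fun f =>
    (Finset.prod_filter_mul_prod_filter_not s _ f).symm
  rw [hps, hps]
  calc _ ≤ ((∏ i ∈ near, ‖z2 - w i‖) * (1 + 4 * σ * (9 * L + 1) / δ) ^ ⌊9 * L⌋₊) *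
        ((∏ i ∈ far, ‖z2 - w i‖) * Real.exp (32 * σ * L + 5 * σ ^ 2 * L)) :=
        mul_le_mul hnp hfp (Finset.prod_nonneg (fun i _ => norm_nonneg _))
          (mul_nonneg (Finset.prod_nonneg (fun i _ => norm_nonneg _)) (by positivity))
    _ = _ := by
        unfold KK
        ring

end FC78
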